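import Mathlib

/-!
# MP_4ac55f: uniqueness of the mean curvature flow, the algebra at a maximum point (helper38)
-/

set_option autoImplicit false

open scoped InnerProductSpace

namespace Pool.Agent.H4ac.RP

/-- `MᵀM - 1` and `MMᵀ - 1` have the same Frobenius norm. -/
theorem frob_eq {n : ℕ} (M : Matrix (Fin n) (Fin n) ℝ) :
    ∑ j, ∑ k, ((M.transpose * M) j k - (1 : Matrix (Fin n) (Fin n) ℝ) j k) ^ 2 =
      ∑ j, ∑ k, ((M * M.transpose) j k - (1 : Matrix (Fin n) (Fin n) ℝ) j k) ^ 2 := by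
  have key : ∀ X : Matrix (Fin n) (Fin n) ℝ, X.transpose = X →
      ∑ j, ∑ k, (X j k - (1 : Matrix (Fin n) (Fin n) ℝ) j k) ^ 2 =
        Matrix.trace ((X - 1) * (X - 1)) := by
    intro X hX
    rw [Matrix.trace]
    refine Finset.sum_congr rfl fun j _ => ?_
    rw [Matrix.diag_apply, Matrix.mul_apply]
    refine Finset.sum_congr rfl fun k _ => ?_
    have h1 : X k j = X j k := by
      conv_lhs => rw [← hX]
      rfl
    have h2 : (1 : Matrix (Fin n) (Fin n) ℝ) k j = (1 : Matrix (Fin n) (Fin n) ℝ) j k := by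
      simp [Matrix.one_apply, eq_comm]
    rw [Matrix.sub_apply, Matrix.sub_apply, h1, h2]
    ring
  rw [key _ (by simp), key _ (by simp)]
  have e1 : (M.transpose * M - 1) * (M.transpose * M - 1) =
      M.transpose * (M * M.transpose * M) - (M.transpose * M + M.transpose * M) + 1 := by
    noncomm_ring
  have e2 : (M * M.transpose - 1) * (M * M.transpose - 1) =
      (M * M.transpose * M) * M.transpose - (M * M.transpose + M * M.transpose) + 1 := by
    noncomm_ring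
  rw [e1, e2, Matrix.trace_add, Matrix.trace_add, Matrix.trace_sub, Matrix.trace_sub,
    Matrix.trace_add, Matrix.trace_add, Matrix.trace_mul_comm M.transpose (M * M.transpose * M),
    Matrix.trace_mul_comm M.transpose M]

/-- Polarisation. -/
theorem bil_le {V W : Type*} [AddCommGroup V] [Module ℝ V] [NormedAddCommGroup W]
    [InnerProductSpace ℝ W] (Q : V →ₗ[ℝ] W) (β : V →ₗ[ℝ] V →ₗ[ℝ] ℝ) (hs : ∀ w w', β w w' = β w' w)
    {κ : ℝ} (hβ : ∀ w, |β w w| ≤ κ * ‖Q w‖ ^ 2) (u v : V) (hu : ‖Q u‖ = 1) (hv : ‖Q v‖ = 1) :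
    |β u v| ≤ κ := by
  have h1 : 4 * β u v = β (u + v) (u + v) - β (u - v) (u - v) := by
    simp only [map_add, map_sub, LinearMap.add_apply, LinearMap.sub_apply]
    rw [hs v u]
    ring
  have h2 := hβ (u + v)
  have h3 := hβ (u - v)
  have h4 : ‖Q (u + v)‖ ^ 2 + ‖Q (u - v)‖ ^ 2 = 4 := by
    have := parallelogram_law_with_norm ℝ (Q u) (Q v)
    rw [map_add, map_sub]
    rw [hu, hv] at this
    nlinarith
  have h5 : |4 * β u v| ≤ κ * 4 := by
    rw [h1, ← h4, mul_add]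
    exact (abs_sub _ _).trans (add_le_add h2 h3)
  rw [abs_mul, abs_of_pos (by norm_num : (0 : ℝ) < 4)] at h5
  linarith

/-- The algebra at a maximum point. -/
theorem alg {n : ℕ} {V W : Type*} [AddCommGroup V] [Module ℝ V] [NormedAddCommGroup W]
    [InnerProductSpace ℝ W] (Q : V →ₗ[ℝ] W) (β : V →ₗ[ℝ] V →ₗ[ℝ] ℝ) (hs : ∀ w w', β w w' = β w' w)
    {κ : ℝ} (hκ : 0 ≤ κ) (hκ' : κ * (2 * n ^ 2) ≤ 1) (hβ : ∀ w, |β w w| ≤ κ * ‖Q w‖ ^ 2)
    (p : Fin n → W) (hp : Orthonormal ℝ p) (b : Fin n → ℝ) (w : Fin n → V)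
    (h : ∀ i, ‖p i - Q (w i)‖ ^ 2 + b i ≤ β (w i) (w i))
    (f : Module.Basis (Fin n) ℝ V) (hf : Orthonormal ℝ fun j => Q (f j)) :
    ∑ i, b i - ∑ j, β (f j) (f j) ≤ 2 * n ^ 5 * κ ^ 2 := by
  set M : Matrix (Fin n) (Fin n) ℝ := Matrix.of fun i j => f.repr (w i) j with hM
  have hw : ∀ i, w i = ∑ j, M i j • f j := fun i => (f.sum_repr (w i)).symm
  have hβw : ∀ i, β (w i) (w i) = ∑ j, ∑ k, M i j * M i k * β (f j) (f k) := by
    intro i
    conv_lhs => rw [hw i]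
    simp only [map_sum, map_smul, LinearMap.sum_apply, LinearMap.smul_apply, smul_eq_mul,
      Finset.mul_sum]
    refine Finset.sum_congr rfl fun j _ => Finset.sum_congr rfl fun k _ => ?_
    rw [hs (f k) (f j)]
    ring
  have hsum : ∑ i, β (w i) (w i) - ∑ j, β (f j) (f j) =
      ∑ j, ∑ k, ((M.transpose * M) j k - (1 : Matrix (Fin n) (Fin n) ℝ) j k) * β (f j) (f k) := by
    have h1 : ∑ i, β (w i) (w i) = ∑ j, ∑ k, (M.transpose * M) j k * β (f j) (f k) := by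
      simp only [hβw, Matrix.mul_apply, Matrix.transpose_apply, Finset.sum_mul]
      rw [Finset.sum_comm]
      refine Finset.sum_congr rfl fun j _ => ?_
      rw [Finset.sum_comm]
    have h2 : ∑ j, β (f j) (f j) =
        ∑ j, ∑ k, (1 : Matrix (Fin n) (Fin n) ℝ) j k * β (f j) (f k) := by
      refine Finset.sum_congr rfl fun j _ => ?_
      simp [Matrix.one_apply]
    rw [h1, h2, ← Finset.sum_sub_distrib]
    refine Finset.sum_congr rfl fun j _ => ?_
    rw [← Finset.sum_sub_distrib]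
    refine Finset.sum_congr rfl fun k _ => ?_
    ring
  -- the Gram matrix of the `Q w_i`
  have hin : ∀ i j, inner ℝ (Q (w i)) (Q (w j)) = (M * M.transpose) i j := by
    intro i j
    have h1 : ∀ i, Q (w i) = ∑ k, M i k • Q (f k) := by
      intro i
      conv_lhs => rw [hw i]
      simp
    rw [h1 i, h1 j, hf.inner_sum, Matrix.mul_apply]
    simp [Matrix.transpose_apply]
  set θ : Fin n → ℝ := fun i => ‖p i - Q (w i)‖ with hθ
  have hθ0 : ∀ i, 0 ≤ θ i := fun i => norm_nonneg _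
  set Θ : ℝ := ∑ i, θ i with hΘ
  have hΘ0 : 0 ≤ Θ := Finset.sum_nonneg fun i _ => hθ0 i
  have hent : ∀ i j, |(M * M.transpose) i j - (1 : Matrix (Fin n) (Fin n) ℝ) i j| ≤
      θ i + θ j + θ i * θ j := by
    intro i j
    have h1 : (1 : Matrix (Fin n) (Fin n) ℝ) i j = inner ℝ (p i) (p j) := by
      rw [orthonormal_iff_ite.1 hp i j, Matrix.one_apply]
    rw [← hin, h1]
    have h2 : inner ℝ (Q (w i)) (Q (w j)) - inner ℝ (p i) (p j) =
        inner ℝ (p i - Q (w i)) (p j - Q (w j)) - inner ℝ (p i - Q (w i)) (p j) -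
          inner ℝ (p i) (p j - Q (w j)) := by
      simp only [inner_sub_left, inner_sub_right]
      ring
    rw [h2]
    have h3 := abs_real_inner_le_norm (p i - Q (w i)) (p j - Q (w j))
    have h4 := abs_real_inner_le_norm (p i - Q (w i)) (p j)
    have h5 := abs_real_inner_le_norm (p i) (p j - Q (w j))
    rw [hp.1 j, mul_one] at h4
    rw [hp.1 i, one_mul] at h5
    have h6 := abs_sub (inner ℝ (p i - Q (w i)) (p j - Q (w j)) - inner ℝ (p i - Q (w i)) (p j))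
      (inner ℝ (p i) (p j - Q (w j)))
    have h7 := abs_sub (inner ℝ (p i - Q (w i)) (p j - Q (w j))) (inner ℝ (p i - Q (w i)) (p j))
    simp only [hθ]
    linarith
  -- bound of the Frobenius norm
  set X : Fin n → Fin n → ℝ := fun j k =>
    (M.transpose * M) j k - (1 : Matrix (Fin n) (Fin n) ℝ) j k with hX
  set Y : Fin n → Fin n → ℝ := fun j k =>
    (M * M.transpose) j k - (1 : Matrix (Fin n) (Fin n) ℝ) j k with hY
  have hYs : ∑ j, ∑ k, |Y j k| ≤ 2 * n * Θ + Θ ^ 2 := by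
    have h1 : ∑ j, ∑ k, |Y j k| ≤ ∑ j, ∑ k, (θ j + θ k + θ j * θ k) :=
      Finset.sum_le_sum fun j _ => Finset.sum_le_sum fun k _ => hent j k
    have h2 : ∑ j, ∑ k, (θ j + θ k + θ j * θ k) = 2 * n * Θ + Θ ^ 2 := by
      simp only [Finset.sum_add_distrib, Finset.sum_const, Finset.card_univ, Fintype.card_fin,
        nsmul_eq_mul, ← Finset.mul_sum, ← Finset.sum_mul]
      rw [← hΘ]
      ring
    exact h1.trans_eq h2
  have hYF : ∑ j, ∑ k, Y j k ^ 2 ≤ (2 * n * Θ + Θ ^ 2) ^ 2 := by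
    have h1 : ∑ j, ∑ k, Y j k ^ 2 ≤ (∑ j, ∑ k, |Y j k|) ^ 2 := by
      have h2 : ∀ (s : Fin n → ℝ), (∀ i, 0 ≤ s i) → ∑ i, s i ^ 2 ≤ (∑ i, s i) ^ 2 := by
        intro s hs0
        exact Finset.sum_sq_le_sq_sum_of_nonneg fun i _ => hs0 i
      calc ∑ j, ∑ k, Y j k ^ 2 = ∑ j, ∑ k, |Y j k| ^ 2 := by simp only [sq_abs]
        _ ≤ ∑ j, (∑ k, |Y j k|) ^ 2 := Finset.sum_le_sum fun j _ => h2 _ fun k => abs_nonneg _
        _ ≤ (∑ j, ∑ k, |Y j k|) ^ 2 := h2 _ fun j => Finset.sum_nonneg fun k _ => abs_nonneg _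
    refine h1.trans ?_
    have h3 : 0 ≤ ∑ j, ∑ k, |Y j k| := Finset.sum_nonneg fun _ _ => Finset.sum_nonneg fun _ _ => abs_nonneg _
    exact pow_le_pow_left₀ h3 hYs 2
  have hXF : ∑ j, ∑ k, X j k ^ 2 ≤ (2 * n * Θ + Θ ^ 2) ^ 2 := (frob_eq M).trans_le hYF
  have hXs : ∑ j, ∑ k, |X j k| ≤ n * (2 * n * Θ + Θ ^ 2) := by
    have h1 : (∑ j, ∑ k, |X j k|) ^ 2 ≤ (n * (2 * n * Θ + Θ ^ 2)) ^ 2 := by
      have h2 : ∀ (s : Fin n → ℝ), (∑ i, s i) ^ 2 ≤ n * ∑ i, s i ^ 2 := by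
        intro s
        have := sq_sum_le_card_mul_sum_sq (s := (Finset.univ : Finset (Fin n))) (f := s)
        simpa using this
      calc (∑ j, ∑ k, |X j k|) ^ 2 ≤ n * ∑ j, (∑ k, |X j k|) ^ 2 := h2 _
        _ ≤ n * ∑ j, (n * ∑ k, |X j k| ^ 2) :=
            mul_le_mul_of_nonneg_left (Finset.sum_le_sum fun j _ => h2 _) (Nat.cast_nonneg n)
        _ = n ^ 2 * ∑ j, ∑ k, X j k ^ 2 := by
            simp only [sq_abs, ← Finset.mul_sum]; ring
        _ ≤ n ^ 2 * (2 * n * Θ + Θ ^ 2) ^ 2 := mul_le_mul_of_nonneg_left hXF (by positivity)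
        _ = (n * (2 * n * Θ + Θ ^ 2)) ^ 2 := by ring
    exact (pow_le_pow_iff_left₀ (Finset.sum_nonneg fun _ _ => Finset.sum_nonneg fun _ _ => abs_nonneg _)
      (by positivity) two_ne_zero).1 h1
  have hbil : ∀ j k, |β (f j) (f k)| ≤ κ := fun j k =>
    bil_le Q β hs hβ _ _ (hf.1 j) (hf.1 k)
  have hdiff : ∑ i, β (w i) (w i) - ∑ j, β (f j) (f j) ≤ κ * (n * (2 * n * Θ + Θ ^ 2)) := by
    rw [hsum]
    calc ∑ j, ∑ k, X j k * β (f j) (f k) ≤ ∑ j, ∑ k, κ * |X j k| := by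
          refine Finset.sum_le_sum fun j _ => Finset.sum_le_sum fun k _ => ?_
          calc X j k * β (f j) (f k) ≤ |X j k * β (f j) (f k)| := le_abs_self _
            _ = |β (f j) (f k)| * |X j k| := by rw [abs_mul, mul_comm]
            _ ≤ κ * |X j k| := mul_le_mul_of_nonneg_right (hbil j k) (abs_nonneg _)
      _ = κ * ∑ j, ∑ k, |X j k| := by simp only [Finset.mul_sum]
      _ ≤ _ := mul_le_mul_of_nonneg_left hXs hκ
  have hsumh : ∑ i, θ i ^ 2 + ∑ i, b i ≤ ∑ i, β (w i) (w i) := by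
    rw [← Finset.sum_add_distrib]
    exact Finset.sum_le_sum fun i _ => h i
  have hCS : Θ ^ 2 ≤ n * ∑ i, θ i ^ 2 := by
    have := sq_sum_le_card_mul_sum_sq (s := (Finset.univ : Finset (Fin n))) (f := θ)
    simpa using this
  rcases Nat.eq_zero_or_pos n with hn | hn
  · subst hn
    simp
  have hn' : (1 : ℝ) ≤ n := by exact_mod_cast hn
  -- multiply everything with `2 n`
  have h1 : 2 * n * (∑ i, b i - ∑ j, β (f j) (f j)) ≤
      -(2 * Θ ^ 2) + 2 * n * (κ * (n * (2 * n * Θ + Θ ^ 2))) := by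
    nlinarith
  have h2 : 2 * n * (κ * (n * (2 * n * Θ + Θ ^ 2))) ≤ Θ ^ 2 + 4 * n ^ 3 * κ * Θ := by
    have : 2 * n * (κ * (n * (2 * n * Θ + Θ ^ 2))) = (κ * (2 * n ^ 2)) * Θ ^ 2 + 4 * n ^ 3 * κ * Θ := by
      ring
    rw [this]
    have := mul_le_mul_of_nonneg_right hκ' (sq_nonneg Θ)
    linarith
  have h3 : -Θ ^ 2 + 4 * n ^ 3 * κ * Θ ≤ 4 * n ^ 6 * κ ^ 2 := by
    nlinarith [sq_nonneg (Θ - 2 * n ^ 3 * κ)]
  have h4 : 2 * n * (∑ i, b i - ∑ j, β (f j) (f j)) ≤ 2 * n * (2 * n ^ 5 * κ ^ 2) := by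
    calc _ ≤ _ := h1
      _ ≤ 4 * n ^ 6 * κ ^ 2 := by linarith
      _ = _ := by ring
  exact le_of_mul_le_mul_left h4 (by positivity)

end Pool.Agent.H4ac.RP
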