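import Pool.Agent.H.MP_4ac55f_gt.RP.Def

/-!
# Derivatives of the example  (module G0d)

Componentwise: `hasFDerivAt_euclidean` (or `hasStrictFDerivAt_euclidean`, `contDiff_euclidean`), the coordinate functionals
`EuclideanSpace.proj i`; `fderiv` of `cos (x 3) * x i` etc. For `G0_d2` first prove `fderiv ℝ G0 = fun x => ..` pointwise applied to `w`:
`d2 G0 x v w = fderiv ℝ (fun y => d G0 y w) x v` (`fderiv_clm_apply`), then differentiate the explicit components.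
-/

set_option autoImplicit false

open scoped InnerProductSpace ContDiff Topology
open Set Metric Filter

namespace Pool.Agent.H.MP_4ac55f_gt.RP

theorem G0d_co (i : Fin 4) : ContDiff ℝ ∞ (fun x : EuclideanSpace ℝ (Fin 4) => x i) :=
  (EuclideanSpace.proj i : EuclideanSpace ℝ (Fin 4) →L[ℝ] ℝ).contDiff

theorem G0d_hf (i : Fin 4) (x : EuclideanSpace ℝ (Fin 4)) :
    HasFDerivAt (fun y : EuclideanSpace ℝ (Fin 4) => y i)
      (EuclideanSpace.proj i : EuclideanSpace ℝ (Fin 4) →L[ℝ] ℝ) x :=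
  (EuclideanSpace.proj i : EuclideanSpace ℝ (Fin 4) →L[ℝ] ℝ).hasFDerivAt

theorem G0_smooth : ContDiff ℝ ∞ G0 := by
  rw [contDiff_euclidean]
  intro i
  have h : ∀ i, ContDiff ℝ ∞ (fun x : EuclideanSpace ℝ (Fin 4) => x i) := G0d_co
  fin_cases i
  · exact (Real.contDiff_cos.comp (h 3)).mul (h 0)
  · exact (Real.contDiff_cos.comp (h 3)).mul (h 1)
  · exact (Real.contDiff_cos.comp (h 3)).mul (h 2)
  · exact (Real.contDiff_sin.comp (h 3)).mul (h 0)
  · exact (Real.contDiff_sin.comp (h 3)).mul (h 1)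
  · exact (Real.contDiff_sin.comp (h 3)).mul (h 2)
  · exact ((h 3).pow 2).div_const 2

theorem G0d_cos (i : Fin 4) (x v : EuclideanSpace ℝ (Fin 4)) :
    fderiv ℝ (fun y : EuclideanSpace ℝ (Fin 4) => Real.cos (y 3) * y i) x v
      = Real.cos (x 3) * v i - Real.sin (x 3) * v 3 * x i := by
  have h : HasFDerivAt (fun y : EuclideanSpace ℝ (Fin 4) => Real.cos (y 3) * y i) _ x :=
    (G0d_hf 3 x).cos.mul (G0d_hf i x)
  rw [h.fderiv]
  simp
  ring

theorem G0d_sin (i : Fin 4) (x v : EuclideanSpace ℝ (Fin 4)) :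
    fderiv ℝ (fun y : EuclideanSpace ℝ (Fin 4) => Real.sin (y 3) * y i) x v
      = Real.sin (x 3) * v i + Real.cos (x 3) * v 3 * x i := by
  have h : HasFDerivAt (fun y : EuclideanSpace ℝ (Fin 4) => Real.sin (y 3) * y i) _ x :=
    (G0d_hf 3 x).sin.mul (G0d_hf i x)
  rw [h.fderiv]
  simp
  ring

theorem G0d_sq (x v : EuclideanSpace ℝ (Fin 4)) :
    fderiv ℝ (fun y : EuclideanSpace ℝ (Fin 4) => y 3 ^ 2 / 2) x v = x 3 * v 3 := by
  have h : HasFDerivAt (fun y : EuclideanSpace ℝ (Fin 4) => (1 / 2 : ℝ) * (y 3 * y 3)) _ x :=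
    ((G0d_hf 3 x).mul (G0d_hf 3 x)).const_mul (1 / 2 : ℝ)
  have e : (fun y : EuclideanSpace ℝ (Fin 4) => y 3 ^ 2 / 2)
      = fun y : EuclideanSpace ℝ (Fin 4) => (1 / 2 : ℝ) * (y 3 * y 3) := by
    funext y
    ring
  rw [e, h.fderiv]
  simp
  ring

theorem G0d_comp {g : EuclideanSpace ℝ (Fin 4) → EuclideanSpace ℝ (Fin 7)}
    {x : EuclideanSpace ℝ (Fin 4)} (hg : DifferentiableAt ℝ g x) (v : EuclideanSpace ℝ (Fin 4))
    (i : Fin 7) : (fderiv ℝ g x v) i = fderiv ℝ (fun y => g y i) x v := by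
  have h := ((EuclideanSpace.proj i : EuclideanSpace ℝ (Fin 7) →L[ℝ] ℝ).hasFDerivAt
    (x := g x)).comp x hg.hasFDerivAt
  have e : (fun y => g y i)
      = (EuclideanSpace.proj i : EuclideanSpace ℝ (Fin 7) →L[ℝ] ℝ) ∘ g := rfl
  rw [e, h.fderiv]
  rfl

theorem G0_d (x v : EuclideanSpace ℝ (Fin 4)) : d G0 x v = WithLp.toLp 2
    ![Real.cos (x 3) * v 0 - Real.sin (x 3) * v 3 * x 0,
      Real.cos (x 3) * v 1 - Real.sin (x 3) * v 3 * x 1,
      Real.cos (x 3) * v 2 - Real.sin (x 3) * v 3 * x 2,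
      Real.sin (x 3) * v 0 + Real.cos (x 3) * v 3 * x 0,
      Real.sin (x 3) * v 1 + Real.cos (x 3) * v 3 * x 1,
      Real.sin (x 3) * v 2 + Real.cos (x 3) * v 3 * x 2, x 3 * v 3] := by
  have hd : DifferentiableAt ℝ G0 x := G0_smooth.contDiffAt.differentiableAt (by simp)
  ext i
  unfold d
  rw [G0d_comp hd v i]
  fin_cases i
  · exact G0d_cos 0 x v
  · exact G0d_cos 1 x v
  · exact G0d_cos 2 x v
  · exact G0d_sin 0 x v
  · exact G0d_sin 1 x v
  · exact G0d_sin 2 x v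
  · exact G0d_sq x v

theorem G0d_cos2 (i : Fin 4) (x v w : EuclideanSpace ℝ (Fin 4)) :
    fderiv ℝ (fun y : EuclideanSpace ℝ (Fin 4) =>
      Real.cos (y 3) * w i - Real.sin (y 3) * w 3 * y i) x v
      = -(Real.sin (x 3) * (v 3 * w i + w 3 * v i)) - Real.cos (x 3) * (v 3 * w 3) * x i := by
  have h : HasFDerivAt (fun y : EuclideanSpace ℝ (Fin 4) =>
      Real.cos (y 3) * w i - Real.sin (y 3) * w 3 * y i) _ x :=
    ((G0d_hf 3 x).cos.mul_const (w i)).sub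
    (((G0d_hf 3 x).sin.mul_const (w 3)).mul (G0d_hf i x))
  rw [h.fderiv]
  simp
  ring

theorem G0d_sin2 (i : Fin 4) (x v w : EuclideanSpace ℝ (Fin 4)) :
    fderiv ℝ (fun y : EuclideanSpace ℝ (Fin 4) =>
      Real.sin (y 3) * w i + Real.cos (y 3) * w 3 * y i) x v
      = Real.cos (x 3) * (v 3 * w i + w 3 * v i) - Real.sin (x 3) * (v 3 * w 3) * x i := by
  have h : HasFDerivAt (fun y : EuclideanSpace ℝ (Fin 4) =>
      Real.sin (y 3) * w i + Real.cos (y 3) * w 3 * y i) _ x :=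
    ((G0d_hf 3 x).sin.mul_const (w i)).add
    (((G0d_hf 3 x).cos.mul_const (w 3)).mul (G0d_hf i x))
  rw [h.fderiv]
  simp
  ring

theorem G0d_sq2 (x v w : EuclideanSpace ℝ (Fin 4)) :
    fderiv ℝ (fun y : EuclideanSpace ℝ (Fin 4) => y 3 * w 3) x v = v 3 * w 3 := by
  have h : HasFDerivAt (fun y : EuclideanSpace ℝ (Fin 4) => y 3 * w 3) _ x :=
    (G0d_hf 3 x).mul_const (w 3)
  rw [h.fderiv]
  simp
  ring

theorem G0_d2 (x v w : EuclideanSpace ℝ (Fin 4)) : d2 G0 x v w = WithLp.toLp 2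
    ![-(Real.sin (x 3) * (v 3 * w 0 + w 3 * v 0)) - Real.cos (x 3) * (v 3 * w 3) * x 0,
      -(Real.sin (x 3) * (v 3 * w 1 + w 3 * v 1)) - Real.cos (x 3) * (v 3 * w 3) * x 1,
      -(Real.sin (x 3) * (v 3 * w 2 + w 3 * v 2)) - Real.cos (x 3) * (v 3 * w 3) * x 2,
      Real.cos (x 3) * (v 3 * w 0 + w 3 * v 0) - Real.sin (x 3) * (v 3 * w 3) * x 0,
      Real.cos (x 3) * (v 3 * w 1 + w 3 * v 1) - Real.sin (x 3) * (v 3 * w 3) * x 1,
      Real.cos (x 3) * (v 3 * w 2 + w 3 * v 2) - Real.sin (x 3) * (v 3 * w 3) * x 2,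
      v 3 * w 3] := by
  have hd : DifferentiableAt ℝ (fderiv ℝ G0) x :=
    (G0_smooth.fderiv_right (m := ∞) (by simp)).contDiffAt.differentiableAt (by simp)
  have h1 : d2 G0 x v w = fderiv ℝ (fun y => fderiv ℝ G0 y w) x v := by
    have h := hd.hasFDerivAt.clm_apply (hasFDerivAt_const w x)
    rw [h.fderiv]
    simp [d2]
  have h2 : ∀ y, fderiv ℝ G0 y w = WithLp.toLp 2
    ![Real.cos (y 3) * w 0 - Real.sin (y 3) * w 3 * y 0,
      Real.cos (y 3) * w 1 - Real.sin (y 3) * w 3 * y 1,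
      Real.cos (y 3) * w 2 - Real.sin (y 3) * w 3 * y 2,
      Real.sin (y 3) * w 0 + Real.cos (y 3) * w 3 * y 0,
      Real.sin (y 3) * w 1 + Real.cos (y 3) * w 3 * y 1,
      Real.sin (y 3) * w 2 + Real.cos (y 3) * w 3 * y 2, y 3 * w 3] := by
    intro y
    exact G0_d y w
  have hd2 : DifferentiableAt ℝ (fun y => fderiv ℝ G0 y w) x :=
    hd.clm_apply (differentiableAt_const w)
  rw [h1]
  ext i
  rw [G0d_comp hd2 v i]
  simp only [h2]
  fin_cases i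
  · exact G0d_cos2 0 x v w
  · exact G0d_cos2 1 x v w
  · exact G0d_cos2 2 x v w
  · exact G0d_sin2 0 x v w
  · exact G0d_sin2 1 x v w
  · exact G0d_sin2 2 x v w
  · exact G0d_sq2 x v w

end Pool.Agent.H.MP_4ac55f_gt.RP
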