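import Pool.Agent.H.MP_4ac55f_gt.RP.ExtH
import Pool.Agent.H.MP_4ac55f_gt.RP.G0d

/-!
# The example is an isometric immersion of the round sphere  (module AlgA)

`F0_isom`: `ext_d`, `G0_d`; the inner product is `v₀ w₀ + v₁ w₁ + v₂ w₂ + v₃ w₃ (x₀² + x₁² + x₂² + x₃²)` by `cos² + sin² = 1`.
`F0_sff`: with `v, w, u` tangent
(`x₀ v₀ + x₁ v₁ + x₂ v₂ = - x₃ v₃` etc.), `⟪d2 (ext F0) x v w, d (ext F0) x u⟫ = 0`: `ext_d2`, `G0_d2`, `G0_d`; the inner product of `D²G (v, w)` with `DG u` is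
`(v₃ ⟪w', x'⟫ + w₃ ⟪v', x'⟫) u₃ - v₃ w₃ ⟪x', u'⟫ + v₃ w₃ x₃ u₃ = 0`. `F0_sff`: `nor` subtracts inner products that vanish.
-/

set_option autoImplicit false

open scoped InnerProductSpace ContDiff Topology
open Set Metric Filter

namespace Pool.Agent.H.MP_4ac55f_gt.RP

theorem AlgA_inner4 (x v : EuclideanSpace ℝ (Fin 4)) :
    ⟪x, v⟫_ℝ = x 0 * v 0 + x 1 * v 1 + x 2 * v 2 + x 3 * v 3 := by
  rw [PiLp.inner_apply, Fin.sum_univ_four]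
  simp only [RCLike.inner_apply, conj_trivial]
  ring

theorem AlgA_inner7 (a b : Fin 7 → ℝ) :
    ⟪(WithLp.toLp 2 a : EuclideanSpace ℝ (Fin 7)), (WithLp.toLp 2 b : EuclideanSpace ℝ (Fin 7))⟫_ℝ
      = a 0 * b 0 + a 1 * b 1 + a 2 * b 2 + a 3 * b 3 + a 4 * b 4 + a 5 * b 5 + a 6 * b 6 := by
  rw [PiLp.inner_apply, Fin.sum_univ_seven]
  simp only [RCLike.inner_apply, conj_trivial]
  ring

theorem AlgA_sq {x : EuclideanSpace ℝ (Fin 4)} (hx : ‖x‖ = 1) :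
    x 0 * x 0 + x 1 * x 1 + x 2 * x 2 + x 3 * x 3 = 1 := by
  rw [← AlgA_inner4, real_inner_self_eq_norm_sq, hx]
  norm_num

theorem AlgA_G0_inner {x : EuclideanSpace ℝ (Fin 4)} (hx : ‖x‖ = 1)
    {v w : EuclideanSpace ℝ (Fin 4)}
    (hv : ⟪x, v⟫_ℝ = 0) (hw : ⟪x, w⟫_ℝ = 0) : ⟪d G0 x v, d G0 x w⟫_ℝ = ⟪v, w⟫_ℝ := by
  have h1 := AlgA_sq hx
  rw [AlgA_inner4] at hv hw
  rw [G0_d, G0_d, AlgA_inner7, AlgA_inner4]
  have h2 := Real.sin_sq_add_cos_sq (x 3)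
  simp only [Matrix.cons_val]
  linear_combination (v 0 * w 0 + v 1 * w 1 + v 2 * w 2 +
    v 3 * w 3 * (x 0 * x 0 + x 1 * x 1 + x 2 * x 2)) * h2 + (v 3 * w 3) * h1

theorem F0_isom {x : EuclideanSpace ℝ (Fin 4)} (hx : ‖x‖ = 1) {v w : EuclideanSpace ℝ (Fin 4)}
    (hv : ⟪x, v⟫_ℝ = 0) (hw : ⟪x, w⟫_ℝ = 0) : ⟪d (ext F0) x v, d (ext F0) x w⟫_ℝ = ⟪v, w⟫_ℝ := by
  rw [ext_d (f := F0) G0_smooth (fun _ => rfl) hx hv, ext_d (f := F0) G0_smooth (fun _ => rfl) hx hw]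
  exact AlgA_G0_inner hx hv hw

theorem F0_imm : Imm (ext F0) := by
  intro x hx v hv h
  have h1 := F0_isom hx hv hv
  rw [h, inner_zero_left] at h1
  exact inner_self_eq_zero.1 h1.symm

theorem AlgA_perp {x : EuclideanSpace ℝ (Fin 4)} (hx : ‖x‖ = 1)
    {u v w : EuclideanSpace ℝ (Fin 4)} (hu : ⟪x, u⟫_ℝ = 0)
    (hv : ⟪x, v⟫_ℝ = 0) (hw : ⟪x, w⟫_ℝ = 0) :
    ⟪d G0 x u, d2 G0 x v w - ⟪v, w⟫_ℝ • d G0 x x⟫_ℝ = 0 := by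
  have h1 := AlgA_sq hx
  have h2 := Real.sin_sq_add_cos_sq (x 3)
  rw [inner_sub_right, real_inner_smul_right]
  have e1 : ⟪d G0 x u, d G0 x x⟫_ℝ = 0 := by
    rw [AlgA_inner4] at hu
    rw [G0_d, G0_d, AlgA_inner7]
    simp only [Matrix.cons_val]
    linear_combination (u 0 * x 0 + u 1 * x 1 + u 2 * x 2 +
      u 3 * x 3 * (x 0 * x 0 + x 1 * x 1 + x 2 * x 2)) * h2 + hu + (u 3 * x 3) * h1
  have e2 : ⟪d G0 x u, d2 G0 x v w⟫_ℝ = 0 := by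
    rw [AlgA_inner4] at hu hv hw
    rw [G0_d, G0_d2, AlgA_inner7]
    simp only [Matrix.cons_val]
    linear_combination (u 3 * (x 0 * (v 3 * w 0 + w 3 * v 0) + x 1 * (v 3 * w 1 + w 3 * v 1) +
      x 2 * (v 3 * w 2 + w 3 * v 2)) - v 3 * w 3 * (u 0 * x 0 + u 1 * x 1 + u 2 * x 2)) * h2 -
      (v 3 * w 3) * hu + (u 3 * v 3) * hw + (u 3 * w 3) * hv
  rw [e1, e2]
  ring

theorem F0_sff {x : EuclideanSpace ℝ (Fin 4)} (hx : ‖x‖ = 1)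
    {e : Fin 3 → EuclideanSpace ℝ (Fin 4)} (he : IsFrame (ext F0) x e)
    {v w : EuclideanSpace ℝ (Fin 4)} (hv : ⟪x, v⟫_ℝ = 0) (hw : ⟪x, w⟫_ℝ = 0) :
    sff (ext F0) x e v w = d2 G0 x v w - ⟪v, w⟫_ℝ • d G0 x x := by
  unfold sff nor
  rw [ext_d2 (f := F0) G0_smooth (fun _ => rfl) hx hv hw]
  have h : ∀ j ∈ Finset.univ, ⟪d (ext F0) x (e j), d2 G0 x v w - ⟪v, w⟫_ℝ • d G0 x x⟫_ℝ •
      d (ext F0) x (e j) = 0 := by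
    intro j _
    rw [ext_d (f := F0) G0_smooth (fun _ => rfl) hx (he.1 j), AlgA_perp hx (he.1 j) hv hw, zero_smul]
  rw [Finset.sum_eq_zero h, sub_zero]

end Pool.Agent.H.MP_4ac55f_gt.RP
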