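import Pool.Agent.H.MP_4ac55f_gt.RP.AlgA

/-!
# Curvatures of the example  (module AlgB)

`e` is orthonormal (`F0_isom`) and orthogonal to the unit vector `x`, so `x, e 0, e 1, e 2` is an orthonormal basis of `ℝ⁴`: `frame_sum`:
`∑ i, (e i a) (e i b) = δ_ab - x a * x b` (`OrthonormalBasis.sum_inner_mul_inner` applied to basis vectors). All values of `sff` are explicit (`F0_sff`, `G0_d`, `G0_d2`), quadratic in
the `e i`; `mcv = (-(5 x₃) sin.., ..)`: with `c = cos x₃`, `s = sin x₃` the first three components of `mcv` are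
`((x₃² - 4) c + 5 x₃ s) x_a`, the next three `((x₃² - 4) s - 5 x₃ c) x_a`, the last `1 - 4 x₃²`; norm squared `((4 - x₃²)² + 25 x₃²) (1 - x₃²) + (1 - 4 x₃²)²`
`= 9 + 10 y - 3 y² + y³`, `y = 1 - x₃²`. `F0_ric`: polynomial identity modulo `‖x‖ = 1`, `⟪x, v⟫ = 0` and `frame_sum`:
with `S (v, w)` = `sff`: `⟪S (v, w), S (a, b)⟫ = |x'|² (v₃ w₃ + ⟪v, w⟫) (a₃ b₃ + ⟪a, b⟫) + ⟪v₃ w' + w₃ v' - ⟪v, w⟫ x₃ x', a₃ b' + b₃ a' - ⟪a, b⟫ x₃ x'⟫ + (v₃ w₃ - ⟪v, w⟫ x₃²) (a₃ b₃ - ⟪a, b⟫ x₃²)`.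
-/

set_option autoImplicit false

open scoped InnerProductSpace ContDiff Topology
open Set Metric Filter

namespace Pool.Agent.H.MP_4ac55f_gt.RP

/-! ### explicit vectors -/

theorem AlgB_inner4 (v w : EuclideanSpace ℝ (Fin 4)) :
    ⟪v, w⟫_ℝ = v 0 * w 0 + v 1 * w 1 + v 2 * w 2 + v 3 * w 3 := by
  rw [PiLp.inner_apply, Fin.sum_univ_four]
  simp only [RCLike.inner_apply, conj_trivial]
  ring

/-- a rotated vector -/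
noncomputable def AlgB_vec (c s : ℝ) (A B : Fin 3 → ℝ) (L : ℝ) : EuclideanSpace ℝ (Fin 7) :=
  WithLp.toLp 2 ![-(s * A 0) - c * B 0, -(s * A 1) - c * B 1, -(s * A 2) - c * B 2,
    c * A 0 - s * B 0, c * A 1 - s * B 1, c * A 2 - s * B 2, L]

theorem AlgB_vec_inner {c s : ℝ} (h : s ^ 2 + c ^ 2 = 1) (A B A' B' : Fin 3 → ℝ) (L L' : ℝ) :
    ⟪AlgB_vec c s A B L, AlgB_vec c s A' B' L'⟫_ℝ =
      A 0 * A' 0 + A 1 * A' 1 + A 2 * A' 2 + (B 0 * B' 0 + B 1 * B' 1 + B 2 * B' 2) + L * L' := by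
  rw [PiLp.inner_apply, Fin.sum_univ_seven]
  simp only [AlgB_vec, RCLike.inner_apply, conj_trivial, PiLp.toLp_apply, Matrix.cons_val]
  linear_combination (A 0 * A' 0 + A 1 * A' 1 + A 2 * A' 2 +
    (B 0 * B' 0 + B 1 * B' 1 + B 2 * B' 2)) * h

theorem AlgB_vec_norm {c s : ℝ} (h : s ^ 2 + c ^ 2 = 1) (A B : Fin 3 → ℝ) (L : ℝ) :
    ‖AlgB_vec c s A B L‖ ^ 2 =
      A 0 ^ 2 + A 1 ^ 2 + A 2 ^ 2 + (B 0 ^ 2 + B 1 ^ 2 + B 2 ^ 2) + L ^ 2 := by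
  rw [← real_inner_self_eq_norm_sq, AlgB_vec_inner h]
  ring

/-- the components `A` of the second fundamental form -/
noncomputable def AlgB_A (x v w : EuclideanSpace ℝ (Fin 4)) : Fin 3 → ℝ :=
  ![v 3 * w 0 + w 3 * v 0 - ⟪v, w⟫_ℝ * x 3 * x 0, v 3 * w 1 + w 3 * v 1 - ⟪v, w⟫_ℝ * x 3 * x 1,
    v 3 * w 2 + w 3 * v 2 - ⟪v, w⟫_ℝ * x 3 * x 2]

/-- the components `B` of the second fundamental form -/
noncomputable def AlgB_B (x v w : EuclideanSpace ℝ (Fin 4)) : Fin 3 → ℝ :=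
  ![(v 3 * w 3 + ⟪v, w⟫_ℝ) * x 0, (v 3 * w 3 + ⟪v, w⟫_ℝ) * x 1, (v 3 * w 3 + ⟪v, w⟫_ℝ) * x 2]

theorem AlgB_sff {x : EuclideanSpace ℝ (Fin 4)} (hx : ‖x‖ = 1)
    {e : Fin 3 → EuclideanSpace ℝ (Fin 4)} (he : IsFrame (ext F0) x e)
    {v w : EuclideanSpace ℝ (Fin 4)} (hv : ⟪x, v⟫_ℝ = 0) (hw : ⟪x, w⟫_ℝ = 0) :
    sff (ext F0) x e v w = AlgB_vec (Real.cos (x 3)) (Real.sin (x 3)) (AlgB_A x v w)
      (AlgB_B x v w) (v 3 * w 3 - ⟪v, w⟫_ℝ * x 3 ^ 2) := by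
  rw [F0_sff hx he hv hw, G0_d2, G0_d]
  ext k
  fin_cases k
  · simp [AlgB_vec, AlgB_A, AlgB_B]; ring
  · simp [AlgB_vec, AlgB_A, AlgB_B]; ring
  · simp [AlgB_vec, AlgB_A, AlgB_B]; ring
  · simp [AlgB_vec, AlgB_A, AlgB_B]; ring
  · simp [AlgB_vec, AlgB_A, AlgB_B]; ring
  · simp [AlgB_vec, AlgB_A, AlgB_B]; ring
  · simp [AlgB_vec, pow_two]

theorem AlgB_orth {x : EuclideanSpace ℝ (Fin 4)} (hx : ‖x‖ = 1)
    {e : Fin 3 → EuclideanSpace ℝ (Fin 4)} (he : IsFrame (ext F0) x e) (i j : Fin 3) :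
    ⟪e i, e j⟫_ℝ = if i = j then 1 else 0 := by
  rw [← F0_isom hx (he.1 i) (he.1 j)]
  exact he.2 i j

theorem frame_sum {x : EuclideanSpace ℝ (Fin 4)} (hx : ‖x‖ = 1)
    {e : Fin 3 → EuclideanSpace ℝ (Fin 4)} (he : IsFrame (ext F0) x e) (a b : Fin 4) :
    ∑ i, e i a * e i b = (if a = b then 1 else 0) - x a * x b := by
  have hfo : Orthonormal ℝ (Fin.cons x e : Fin 4 → EuclideanSpace ℝ (Fin 4)) := by
    rw [orthonormal_iff_ite]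
    intro i j
    refine Fin.cases ?_ (fun i => ?_) i
    · refine Fin.cases ?_ (fun j => ?_) j
      · simp [hx]
      · simp [he.1 j, (Fin.succ_ne_zero j).symm]
    · refine Fin.cases ?_ (fun j => ?_) j
      · simp only [Fin.cons_succ, Fin.cons_zero]
        rw [real_inner_comm, he.1 i, if_neg (Fin.succ_ne_zero i)]
      · simp only [Fin.cons_succ, Fin.succ_inj]
        exact AlgB_orth hx he i j
  let B := OrthonormalBasis.mk hfo (by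
    refine (hfo.linearIndependent.span_eq_top_of_card_eq_finrank' ?_).ge
    simp)
  have h := B.sum_inner_mul_inner (EuclideanSpace.single a 1) (EuclideanSpace.single b 1)
  rw [Fin.sum_univ_succ] at h
  simp only [B, OrthonormalBasis.coe_mk, Fin.cons_zero, Fin.cons_succ] at h
  simp only [EuclideanSpace.inner_single_left, EuclideanSpace.inner_single_right, map_one,
    one_mul, conj_trivial, PiLp.single_apply] at h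
  have h2 : (if a = b then (1 : ℝ) else 0) = if b = a then 1 else 0 := by simp only [eq_comm]
  linarith

theorem AlgB_sum {x : EuclideanSpace ℝ (Fin 4)} (hx : ‖x‖ = 1)
    {e : Fin 3 → EuclideanSpace ℝ (Fin 4)} (he : IsFrame (ext F0) x e) (a b : Fin 4) :
    e 0 a * e 0 b + e 1 a * e 1 b + e 2 a * e 2 b = (if a = b then 1 else 0) - x a * x b := by
  have := frame_sum hx he a b
  rwa [Fin.sum_univ_three] at this

theorem AlgB_mcv {x : EuclideanSpace ℝ (Fin 4)} (hx : ‖x‖ = 1)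
    {e : Fin 3 → EuclideanSpace ℝ (Fin 4)} (he : IsFrame (ext F0) x e) :
    mcv (ext F0) x e = AlgB_vec (Real.cos (x 3)) (Real.sin (x 3))
      ![-5 * x 3 * x 0, -5 * x 3 * x 1, -5 * x 3 * x 2]
      ![(4 - x 3 ^ 2) * x 0, (4 - x 3 ^ 2) * x 1, (4 - x 3 ^ 2) * x 2] (1 - 4 * x 3 ^ 2) := by
  have h33 := AlgB_sum hx he 3 3
  have h30 := AlgB_sum hx he 3 0
  have h31 := AlgB_sum hx he 3 1
  have h32 := AlgB_sum hx he 3 2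
  rw [if_pos rfl] at h33
  rw [if_neg (by decide)] at h30 h31 h32
  rw [mcv, Fin.sum_univ_three, AlgB_sff hx he (he.1 0) (he.1 0), AlgB_sff hx he (he.1 1) (he.1 1),
    AlgB_sff hx he (he.1 2) (he.1 2)]
  simp only [AlgB_A, AlgB_B, AlgB_orth hx he, if_true]
  ext k
  fin_cases k
  · simp [AlgB_vec]
    linear_combination (-2 * Real.sin (x 3)) * h30 - Real.cos (x 3) * x 0 * h33
  · simp [AlgB_vec]
    linear_combination (-2 * Real.sin (x 3)) * h31 - Real.cos (x 3) * x 1 * h33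
  · simp [AlgB_vec]
    linear_combination (-2 * Real.sin (x 3)) * h32 - Real.cos (x 3) * x 2 * h33
  · simp [AlgB_vec]
    linear_combination (2 * Real.cos (x 3)) * h30 - Real.sin (x 3) * x 0 * h33
  · simp [AlgB_vec]
    linear_combination (2 * Real.cos (x 3)) * h31 - Real.sin (x 3) * x 1 * h33
  · simp [AlgB_vec]
    linear_combination (2 * Real.cos (x 3)) * h32 - Real.sin (x 3) * x 2 * h33
  · simp [AlgB_vec]
    linear_combination h33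

theorem AlgB_unit {x : EuclideanSpace ℝ (Fin 4)} (hx : ‖x‖ = 1) :
    x 0 ^ 2 + x 1 ^ 2 + x 2 ^ 2 + x 3 ^ 2 = 1 := by
  have h := AlgB_inner4 x x
  rw [real_inner_self_eq_norm_sq, hx] at h
  linarith

theorem F0_mcv {x : EuclideanSpace ℝ (Fin 4)} (hx : ‖x‖ = 1)
    {e : Fin 3 → EuclideanSpace ℝ (Fin 4)} (he : IsFrame (ext F0) x e) :
    ‖mcv (ext F0) x e‖ ^ 2 =
      9 + 10 * (1 - x 3 ^ 2) - 3 * (1 - x 3 ^ 2) ^ 2 + (1 - x 3 ^ 2) ^ 3 := by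
  have hu := AlgB_unit hx
  rw [AlgB_mcv hx he, AlgB_vec_norm (Real.sin_sq_add_cos_sq (x 3))]
  simp only [Matrix.cons_val]
  linear_combination ((4 - x 3 ^ 2) ^ 2 + 25 * x 3 ^ 2) * hu

theorem F0_ric {x : EuclideanSpace ℝ (Fin 4)} (hx : ‖x‖ = 1)
    {e : Fin 3 → EuclideanSpace ℝ (Fin 4)} (he : IsFrame (ext F0) x e)
    {v : EuclideanSpace ℝ (Fin 4)} (hv : ⟪x, v⟫_ℝ = 0) :
    ric (ext F0) x e v = 2 * ‖v‖ ^ 2 := by
  have hu := AlgB_unit hx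
  have hr : ric (ext F0) x e v = ⟪sff (ext F0) x e v v, mcv (ext F0) x e⟫_ℝ -
      ∑ i, ‖sff (ext F0) x e v (e i)‖ ^ 2 := by
    rw [ric, mcv, inner_sum, Finset.sum_sub_distrib]
  have hn : ⟪v, v⟫_ℝ = ‖v‖ ^ 2 := real_inner_self_eq_norm_sq v
  have hn' := AlgB_inner4 v v
  have hv' := AlgB_inner4 x v
  rw [hv] at hv'
  set q : Fin 3 → ℝ := fun i => ⟪v, e i⟫_ℝ with hq
  have hqi : ∀ i, q i = v 0 * e i 0 + v 1 * e i 1 + v 2 * e i 2 + v 3 * e i 3 := fun i =>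
    AlgB_inner4 v (e i)
  -- `∑ q i * e i a = v a`
  have hE1 : ∀ a : Fin 4, q 0 * e 0 a + q 1 * e 1 a + q 2 * e 2 a = v a := by
    intro a
    have h0 := AlgB_sum hx he 0 a
    have h1 := AlgB_sum hx he 1 a
    have h2 := AlgB_sum hx he 2 a
    have h3 := AlgB_sum hx he 3 a
    have hd : v 0 * (if (0 : Fin 4) = a then (1 : ℝ) else 0) +
        v 1 * (if (1 : Fin 4) = a then (1 : ℝ) else 0) +
        v 2 * (if (2 : Fin 4) = a then (1 : ℝ) else 0) +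
        v 3 * (if (3 : Fin 4) = a then (1 : ℝ) else 0) = v a := by
      fin_cases a <;> simp
    rw [hqi 0, hqi 1, hqi 2]
    linear_combination v 0 * h0 + v 1 * h1 + v 2 * h2 + v 3 * h3 + hd + x a * hv'
  have hE2 : q 0 ^ 2 + q 1 ^ 2 + q 2 ^ 2 = ‖v‖ ^ 2 := by
    have h0 := hE1 0
    have h1 := hE1 1
    have h2 := hE1 2
    have h3 := hE1 3
    rw [← hn, hn']
    linear_combination v 0 * h0 + v 1 * h1 + v 2 * h2 + v 3 * h3 + q 0 * hqi 0 + q 1 * hqi 1 +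
      q 2 * hqi 2
  have hA : ∀ k : Fin 4, k ≠ 3 →
      (v 3 * e 0 k + e 0 3 * v k - q 0 * x 3 * x k) ^ 2 +
      (v 3 * e 1 k + e 1 3 * v k - q 1 * x 3 * x k) ^ 2 +
      (v 3 * e 2 k + e 2 3 * v k - q 2 * x 3 * x k) ^ 2 =
      v 3 ^ 2 * (1 - x k ^ 2) + v k ^ 2 * (1 - x 3 ^ 2) + x 3 ^ 2 * x k ^ 2 * ‖v‖ ^ 2 -
        6 * v 3 * v k * x k * x 3 := by
    intro k hk
    have h1 := AlgB_sum hx he k k
    have h2 := AlgB_sum hx he 3 3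
    have h3 := AlgB_sum hx he k 3
    rw [if_pos rfl] at h1 h2
    rw [if_neg hk] at h3
    have h4 := hE1 k
    have h5 := hE1 3
    linear_combination v 3 ^ 2 * h1 + v k ^ 2 * h2 + x 3 ^ 2 * x k ^ 2 * hE2 + 2 * v 3 * v k * h3 -
      2 * v 3 * x 3 * x k * h4 - 2 * v k * x 3 * x k * h5
  have hB : (v 3 * e 0 3 + q 0) ^ 2 + (v 3 * e 1 3 + q 1) ^ 2 + (v 3 * e 2 3 + q 2) ^ 2 =
      v 3 ^ 2 * (1 - x 3 ^ 2) + 2 * v 3 ^ 2 + ‖v‖ ^ 2 := by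
    have h2 := AlgB_sum hx he 3 3
    rw [if_pos rfl] at h2
    have h5 := hE1 3
    linear_combination v 3 ^ 2 * h2 + 2 * v 3 * h5 + hE2
  have hC : (v 3 * e 0 3 - q 0 * x 3 ^ 2) ^ 2 + (v 3 * e 1 3 - q 1 * x 3 ^ 2) ^ 2 +
      (v 3 * e 2 3 - q 2 * x 3 ^ 2) ^ 2 =
      v 3 ^ 2 * (1 - x 3 ^ 2) - 2 * v 3 ^ 2 * x 3 ^ 2 + ‖v‖ ^ 2 * x 3 ^ 4 := by
    have h2 := AlgB_sum hx he 3 3
    rw [if_pos rfl] at h2
    have h5 := hE1 3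
    linear_combination v 3 ^ 2 * h2 - 2 * v 3 * x 3 ^ 2 * h5 + x 3 ^ 4 * hE2
  have hcs := Real.sin_sq_add_cos_sq (x 3)
  rw [hr, AlgB_mcv hx he, AlgB_sff hx he hv hv, AlgB_vec_inner hcs, Fin.sum_univ_three,
    AlgB_sff hx he hv (he.1 0), AlgB_sff hx he hv (he.1 1), AlgB_sff hx he hv (he.1 2),
    AlgB_vec_norm hcs, AlgB_vec_norm hcs, AlgB_vec_norm hcs]
  simp only [AlgB_A, AlgB_B, Matrix.cons_val, hn]
  have hq0 : ⟪v, e 0⟫_ℝ = q 0 := rfl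
  have hq1 : ⟪v, e 1⟫_ℝ = q 1 := rfl
  have hq2 : ⟪v, e 2⟫_ℝ = q 2 := rfl
  rw [hq0, hq1, hq2]
  have hA0 := hA 0 (by decide)
  have hA1 := hA 1 (by decide)
  have hA2 := hA 2 (by decide)
  have hm : ‖v‖ ^ 2 = v 0 * v 0 + v 1 * v 1 + v 2 * v 2 + v 3 * v 3 := by rw [← hn, hn']
  -- the final identity
  have hgoal : (2 * v 3 * v 0 - ‖v‖ ^ 2 * x 3 * x 0) * (-5 * x 3 * x 0) +
      (2 * v 3 * v 1 - ‖v‖ ^ 2 * x 3 * x 1) * (-5 * x 3 * x 1) +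
      (2 * v 3 * v 2 - ‖v‖ ^ 2 * x 3 * x 2) * (-5 * x 3 * x 2) +
      ((v 3 ^ 2 + ‖v‖ ^ 2) * (4 - x 3 ^ 2)) * (x 0 ^ 2 + x 1 ^ 2 + x 2 ^ 2) +
      (v 3 ^ 2 - ‖v‖ ^ 2 * x 3 ^ 2) * (1 - 4 * x 3 ^ 2) -
      ((v 3 ^ 2 * (3 - (x 0 ^ 2 + x 1 ^ 2 + x 2 ^ 2)) + (v 0 ^ 2 + v 1 ^ 2 + v 2 ^ 2) * (1 - x 3 ^ 2) +
        x 3 ^ 2 * (x 0 ^ 2 + x 1 ^ 2 + x 2 ^ 2) * ‖v‖ ^ 2 -
        6 * v 3 * x 3 * (x 0 * v 0 + x 1 * v 1 + x 2 * v 2)) +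
        (x 0 ^ 2 + x 1 ^ 2 + x 2 ^ 2) * (v 3 ^ 2 * (1 - x 3 ^ 2) + 2 * v 3 ^ 2 + ‖v‖ ^ 2) +
        (v 3 ^ 2 * (1 - x 3 ^ 2) - 2 * v 3 ^ 2 * x 3 ^ 2 + ‖v‖ ^ 2 * x 3 ^ 4)) = 2 * ‖v‖ ^ 2 := by
    have hy : x 0 ^ 2 + x 1 ^ 2 + x 2 ^ 2 = 1 - x 3 ^ 2 := by linarith
    have hw : x 0 * v 0 + x 1 * v 1 + x 2 * v 2 = -(x 3 * v 3) := by linarith
    have hz : v 0 ^ 2 + v 1 ^ 2 + v 2 ^ 2 = ‖v‖ ^ 2 - v 3 ^ 2 := by rw [hm]; ring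
    have h1 : (2 * v 3 * v 0 - ‖v‖ ^ 2 * x 3 * x 0) * (-5 * x 3 * x 0) +
      (2 * v 3 * v 1 - ‖v‖ ^ 2 * x 3 * x 1) * (-5 * x 3 * x 1) +
      (2 * v 3 * v 2 - ‖v‖ ^ 2 * x 3 * x 2) * (-5 * x 3 * x 2) =
      -10 * x 3 * v 3 * (x 0 * v 0 + x 1 * v 1 + x 2 * v 2) +
      5 * ‖v‖ ^ 2 * x 3 ^ 2 * (x 0 ^ 2 + x 1 ^ 2 + x 2 ^ 2) := by ring
    rw [h1, hy, hw, hz]
    ring
  linear_combination hgoal - hA0 - hA1 - hA2 - (x 0 ^ 2 + x 1 ^ 2 + x 2 ^ 2) * hB - hC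

theorem F0_bounds {x : EuclideanSpace ℝ (Fin 4)} (hx : ‖x‖ = 1)
    {e : Fin 3 → EuclideanSpace ℝ (Fin 4)} (he : IsFrame (ext F0) x e) :
    9 ≤ ‖mcv (ext F0) x e‖ ^ 2 ∧ ‖mcv (ext F0) x e‖ ^ 2 ≤ 17 := by
  have hu := AlgB_unit hx
  rw [F0_mcv hx he]
  have h1 : 0 ≤ 1 - x 3 ^ 2 := by nlinarith [sq_nonneg (x 0), sq_nonneg (x 1), sq_nonneg (x 2)]
  have h2 : 1 - x 3 ^ 2 ≤ 1 := by nlinarith [sq_nonneg (x 3)]
  generalize 1 - x 3 ^ 2 = y at h1 h2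
  constructor
  · nlinarith [mul_nonneg h1 h1, mul_nonneg h1 (mul_nonneg h1 h1)]
  · nlinarith [mul_nonneg (sub_nonneg.2 h2) (sq_nonneg (y - 1)), sub_nonneg.2 h2]

end Pool.Agent.H.MP_4ac55f_gt.RP
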