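import Pool.Agent.H.MP_4ac55f_gt.RP.Sm

/-!
# Maps close to a linear isometry are injective  (module Cl)

`x ≠ y` on the sphere: `y = c θ`, `c s = cos s • x + sin s • e`, `e` a unit vector orthogonal to `x`, `0 < θ ≤ π` (`θ = arccos ⟪x, y⟫`; for `y = -x` any `e`; if there is no
such `e` the sphere is `{x, -x}`: then use `‖g x - L x‖ ≤ 1/2`, `‖g y - L y‖ ≤ 1/2`, `‖L x - L y‖ = 2`). The derivative of `s ↦ ext g (c s) - L (c s)` is
`d (ext g) (c s) (c' s) - L (c' s)`, of norm `≤ 1/2` (`c s` is a unit vector, `c' s` a unit vector orthogonal to it). Mean value: if `g x = g y` then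
`‖x - y‖ = ‖L (x - y)‖ ≤ θ / 2`, but `‖x - y‖ = 2 sin (θ / 2) ≥ 2 θ / π > θ / 2` (`Real.mul_le_sin`).
-/

set_option autoImplicit false

open scoped InnerProductSpace ContDiff Topology
open Set Metric Filter

namespace Pool.Agent.H.MP_4ac55f_gt.RP

variable {V W : Type*} [NormedAddCommGroup V] [InnerProductSpace ℝ V]
  [NormedAddCommGroup W] [InnerProductSpace ℝ W]

theorem Cl_norm {x e : V} (hx : ‖x‖ = 1) (he : ‖e‖ = 1) (hxe : ⟪x, e⟫_ℝ = 0) {a b : ℝ}
    (hab : a ^ 2 + b ^ 2 = 1) : ‖a • x + b • e‖ = 1 := by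
  have h1 : ‖a • x + b • e‖ ^ 2 = 1 := by
    rw [norm_add_sq_real, norm_smul, norm_smul, real_inner_smul_left, real_inner_smul_right, hx,
      he, hxe, mul_one, mul_one, Real.norm_eq_abs, Real.norm_eq_abs, sq_abs, sq_abs]
    linarith
  have h2 : 0 ≤ ‖a • x + b • e‖ := norm_nonneg _
  nlinarith

theorem Cl_ort {x e : V} (hx : ‖x‖ = 1) (he : ‖e‖ = 1) (hxe : ⟪x, e⟫_ℝ = 0) (a b : ℝ) :
    ⟪a • x + b • e, (-b) • x + a • e⟫_ℝ = 0 := by
  have h1 : ⟪x, x⟫_ℝ = 1 := by rw [real_inner_self_eq_norm_sq, hx]; norm_num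
  have h2 : ⟪e, e⟫_ℝ = 1 := by rw [real_inner_self_eq_norm_sq, he]; norm_num
  have h3 : ⟪e, x⟫_ℝ = 0 := by rw [real_inner_comm]; exact hxe
  rw [inner_add_left, inner_add_right, inner_add_right]
  simp only [real_inner_smul_left, real_inner_smul_right, h1, h2, h3, hxe]
  ring

/-- the mean value inequality on a great circle -/
theorem Cl_arc {g : sphere (0 : V) 1 → W} {L : V →ₗᵢ[ℝ] W} (h : Close g L (1 / 2)) {x e : V}
    (hx : ‖x‖ = 1) (he : ‖e‖ = 1) (hxe : ⟪x, e⟫_ℝ = 0) {θ : ℝ} (hθ : 0 ≤ θ) :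
    ‖(ext g (Real.cos θ • x + Real.sin θ • e) - L (Real.cos θ • x + Real.sin θ • e)) -
      (ext g (Real.cos 0 • x + Real.sin 0 • e) - L (Real.cos 0 • x + Real.sin 0 • e))‖ ≤
      1 / 2 * (θ - 0) := by
  have hc : ∀ s : ℝ, ‖Real.cos s • x + Real.sin s • e‖ = 1 := fun s =>
    Cl_norm hx he hxe (Real.cos_sq_add_sin_sq s)
  have hd : ∀ s : ℝ, HasDerivAt (fun s => Real.cos s • x + Real.sin s • e)
      ((-Real.sin s) • x + Real.cos s • e) s := fun s =>
    ((Real.hasDerivAt_cos s).smul_const x).add ((Real.hasDerivAt_sin s).smul_const e)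
  have hne : ∀ s : ℝ, Real.cos s • x + Real.sin s • e ≠ 0 := fun s h0 => by
    have := hc s
    rw [h0, norm_zero] at this
    exact one_ne_zero this.symm
  refine norm_image_sub_le_of_norm_deriv_le_segment'
    (f := fun s => ext g (Real.cos s • x + Real.sin s • e) - L (Real.cos s • x + Real.sin s • e))
    (f' := fun s => d (ext g) (Real.cos s • x + Real.sin s • e)
      ((-Real.sin s) • x + Real.cos s • e) - L ((-Real.sin s) • x + Real.cos s • e))
    (C := 1 / 2) (a := 0) (b := θ) ?_ ?_ θ ⟨hθ, le_rfl⟩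
  · intro s _
    have h1 : DifferentiableAt ℝ (ext g) (Real.cos s • x + Real.sin s • e) :=
      h.1.differentiableAt (isOpen_compl_singleton.mem_nhds (hne s))
    have h2 := h1.hasFDerivAt.comp_hasDerivAt s (hd s)
    have h3 := L.toContinuousLinearMap.hasFDerivAt.comp_hasDerivAt s (hd s)
    exact (h2.sub h3).hasDerivWithinAt
  · intro s _
    have h1 := h.2.2 ⟨Real.cos s • x + Real.sin s • e, by
      rw [mem_sphere_zero_iff_norm]; exact hc s⟩ ((-Real.sin s) • x + Real.cos s • e)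
      (Cl_ort hx he hxe _ _)
    have h2 : ‖(-Real.sin s) • x + Real.cos s • e‖ = 1 :=
      Cl_norm hx he hxe (by rw [neg_sq]; exact Real.sin_sq_add_cos_sq s)
    rw [h2, mul_one] at h1
    exact h1

theorem close_inj {g : sphere (0 : V) 1 → W} {L : V →ₗᵢ[ℝ] W} (h : Close g L (1 / 2)) :
    Function.Injective g := by
  intro x y hxy
  by_contra hne
  have hx : ‖(x : V)‖ = 1 := mem_sphere_zero_iff_norm.1 x.2
  have hy : ‖(y : V)‖ = 1 := mem_sphere_zero_iff_norm.1 y.2
  have hne' : (x : V) ≠ y := fun h0 => hne (Subtype.ext h0)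
  set c := ⟪(x : V), (y : V)⟫_ℝ with hc
  have hsq : ‖(x : V) - y‖ ^ 2 = 2 - 2 * c := by
    rw [norm_sub_sq_real, hx, hy]; ring
  have hpos : 0 < ‖(x : V) - y‖ := norm_pos_iff.2 (sub_ne_zero.2 hne')
  have hc1 : c < 1 := by nlinarith
  have habs : |c| ≤ 1 := by
    have := abs_real_inner_le_norm (x : V) (y : V)
    rw [hx, hy, mul_one] at this
    exact this
  have hcm : -1 ≤ c := (abs_le.1 habs).1
  have hLL : ‖L ((x : V) - y)‖ = ‖(x : V) - y‖ := L.norm_map _
  rcases eq_or_lt_of_le hcm with h1 | h1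
  · -- antipodal points
    have h2 : ‖(x : V) - y‖ ≤ 1 := by
      have e1 : L ((x : V) - y) = (g y - L y) - (g x - L x) := by
        rw [map_sub, hxy]; abel
      rw [← hLL, e1]
      refine (norm_sub_le _ _).trans ?_
      have := h.2.1 x
      have := h.2.1 y
      linarith
    nlinarith
  · set θ := Real.arccos c with hθ
    have hcos : Real.cos θ = c := Real.cos_arccos hcm hc1.le
    have hθ0 : 0 < θ := Real.arccos_pos.2 hc1
    have hθπ : θ < Real.pi := by
      rcases lt_or_eq_of_le (Real.arccos_le_pi c) with h2 | h2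
      · exact h2
      · exfalso
        rw [hθ, h2, Real.cos_pi] at hcos
        linarith
    have hsin : 0 < Real.sin θ := Real.sin_pos_of_pos_of_lt_pi hθ0 hθπ
    set e : V := (Real.sin θ)⁻¹ • ((y : V) - Real.cos θ • (x : V)) with he
    have hsc := Real.sin_sq_add_cos_sq θ
    have hxx : ⟪(x : V), (x : V)⟫_ℝ = 1 := by rw [real_inner_self_eq_norm_sq, hx]; norm_num
    have hxe : ⟪(x : V), e⟫_ℝ = 0 := by
      rw [he, real_inner_smul_right, inner_sub_right, real_inner_smul_right, hxx, ← hc, hcos]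
      ring
    have hne2 : ‖(y : V) - Real.cos θ • (x : V)‖ = Real.sin θ := by
      have e1 : ‖(y : V) - Real.cos θ • (x : V)‖ ^ 2 = Real.sin θ ^ 2 := by
        rw [norm_sub_sq_real, norm_smul, real_inner_smul_right, real_inner_comm, ← hc, hx, hy,
          mul_one, Real.norm_eq_abs, sq_abs, ← hcos]
        nlinarith
      have e2 := norm_nonneg ((y : V) - Real.cos θ • (x : V))
      exact (pow_left_inj₀ e2 hsin.le two_ne_zero).1 e1
    have hen : ‖e‖ = 1 := by
      rw [he, norm_smul, hne2, norm_inv, Real.norm_eq_abs, abs_of_pos hsin,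
        inv_mul_cancel₀ hsin.ne']
    have hy2 : Real.cos θ • (x : V) + Real.sin θ • e = y := by
      rw [he, smul_smul, mul_inv_cancel₀ hsin.ne', one_smul]
      abel
    have hx2 : Real.cos 0 • (x : V) + Real.sin 0 • e = x := by
      rw [Real.cos_zero, Real.sin_zero, one_smul, zero_smul, add_zero]
    have h2 := Cl_arc h hx hen hxe hθ0.le
    rw [hy2, hx2, ext_coe, ext_coe, hxy] at h2
    have e3 : (g y - L (y : V)) - (g y - L (x : V)) = L ((x : V) - y) := by
      rw [map_sub]; abel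
    rw [e3, hLL, sub_zero] at h2
    -- the chord
    have h3 : Real.cos θ = 1 - 2 * Real.sin (θ / 2) ^ 2 := by
      have e4 := Real.cos_two_mul (θ / 2)
      have e5 := Real.sin_sq_add_cos_sq (θ / 2)
      rw [show 2 * (θ / 2) = θ by ring] at e4
      linarith
    have h4 : 2 / Real.pi * (θ / 2) ≤ Real.sin (θ / 2) :=
      Real.mul_le_sin (by linarith) (by linarith)
    have hpi := Real.pi_lt_four
    have hpi0 := Real.pi_pos
    have h5 : θ / 4 < Real.sin (θ / 2) := by
      refine lt_of_lt_of_le ?_ h4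
      have e6 : 2 / Real.pi * (θ / 2) = θ / Real.pi := by ring
      rw [e6]
      exact div_lt_div_of_pos_left hθ0 hpi0 hpi
    have h6 : ‖(x : V) - y‖ ^ 2 = 4 * Real.sin (θ / 2) ^ 2 := by
      rw [hsq, ← hcos, h3]; ring
    nlinarith

end Pool.Agent.H.MP_4ac55f_gt.RP
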