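import Pool.Agent.H.MP_4ac55f_gt.RP.Rp

/-!
# Uniqueness  (module Co)

Let `t < T₁ < T`, `ε` from `step`. `k0` and compactness of `Icc 0 T₁ ×ˢ sphere`: uniform continuity gives `δ > 0` with `‖(G s x - G' s x) - (G t x - G' t x)‖ ≤ ε` for `|s - t| ≤ δ` and unit `x`. Induction on `k`:
`G = G'` on `[0, min (k δ) T₁]`.
-/

set_option autoImplicit false

open scoped InnerProductSpace ContDiff Topology
open Set Metric Filter

namespace Pool.Agent.H.MP_4ac55f_gt.RP

variable {V W : Type*} [NormedAddCommGroup V] [InnerProductSpace ℝ V] [FiniteDimensional ℝ V]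
  [NormedAddCommGroup W] [InnerProductSpace ℝ W]

theorem uniq {n : ℕ} (hV : Module.finrank ℝ V = n + 1) {T : ℝ} {G G' : ℝ → V → W}
    (h : Flow n T G) (h' : Flow n T G') (h0 : ∀ x : V, ‖x‖ = 1 → G 0 x = G' 0 x) :
    ∀ t ∈ Ico 0 T, ∀ x : V, ‖x‖ = 1 → G t x = G' t x := by
  intro t ht
  obtain ⟨ε, hε, hstep⟩ := step hV h h' ht.1 ht.2
  have hpro : ProperSpace V := FiniteDimensional.proper_real V
  obtain ⟨D, hD⟩ : ∃ D : ℝ × V → W, D = fun p => G p.1 p.2 - G' p.1 p.2 := ⟨_, rfl⟩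
  have hK : IsCompact (Icc (0 : ℝ) t ×ˢ sphere (0 : V) 1) := isCompact_Icc.prod (isCompact_sphere 0 1)
  have hsub : Icc (0 : ℝ) t ×ˢ sphere (0 : V) 1 ⊆ Ico 0 T ×ˢ {0}ᶜ := by
    rintro ⟨s, x⟩ ⟨hs, hx⟩
    refine ⟨⟨hs.1, hs.2.trans_lt ht.2⟩, ?_⟩
    intro hx0
    rw [mem_singleton_iff] at hx0
    rw [mem_sphere_zero_iff_norm] at hx
    simp only at hx0 hx
    rw [hx0, norm_zero] at hx
    exact zero_ne_one hx
  have hDc : ContinuousOn D (Icc (0 : ℝ) t ×ˢ sphere (0 : V) 1) := by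
    rw [hD]
    exact (h.k0.sub h'.k0).mono hsub
  have hu := hK.uniformContinuousOn_of_continuous hDc
  obtain ⟨δ, hδ, hδu⟩ := Metric.uniformContinuousOn_iff.1 hu ε hε
  have key : ∀ k : ℕ, ∀ s ∈ Icc (0 : ℝ) (min (k * (δ / 2)) t), ∀ x : V, ‖x‖ = 1 →
      G s x = G' s x := by
    intro k
    induction k with
    | zero =>
      intro s hs x hx
      have h1 : s = 0 := by
        have h2 := hs.2.trans (min_le_left _ _)
        rw [Nat.cast_zero, zero_mul] at h2
        exact le_antisymm h2 hs.1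
      rw [h1]
      exact h0 x hx
    | succ k ih =>
      intro s hs x hx
      have ht₀ : 0 ≤ min (k * (δ / 2)) t := le_min (by positivity) ht.1
      have hle : min (k * (δ / 2)) t ≤ min (((k + 1 : ℕ) : ℝ) * (δ / 2)) t := by
        refine min_le_min ?_ le_rfl
        push_cast
        nlinarith
      rcases le_total s (min (k * (δ / 2)) t) with h1 | h1
      · exact ih s ⟨hs.1, h1⟩ x hx
      refine hstep _ _ ht₀ hle (min_le_right _ _) (fun y hy => ih _ ⟨ht₀, le_rfl⟩ y hy) ?_ s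
        ⟨h1, hs.2⟩ x hx
      intro τ hτ y hy
      have hτt : τ ≤ t := hτ.2.trans (min_le_right _ _)
      have hdist : dist ((τ, y) : ℝ × V) (min (k * (δ / 2)) t, y) < δ := by
        rw [Prod.dist_eq, dist_self, max_eq_left dist_nonneg, Real.dist_eq,
          abs_of_nonneg (by linarith [hτ.1])]
        have h2 : min (((k + 1 : ℕ) : ℝ) * (δ / 2)) t ≤ min (k * (δ / 2)) t + δ / 2 := by
          rw [← min_add_add_right]
          refine min_le_min ?_ ?_
          · push_cast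
            linarith
          · linarith
        linarith [hτ.2]
      have h3 := hδu (τ, y) ⟨⟨ht₀.trans hτ.1, hτt⟩, by rw [mem_sphere_zero_iff_norm]; exact hy⟩
        (min (k * (δ / 2)) t, y) ⟨⟨ht₀, min_le_right _ _⟩, by rw [mem_sphere_zero_iff_norm]; exact hy⟩
        hdist
      have h4 : D (min (k * (δ / 2)) t, y) = 0 := by
        rw [hD]
        exact sub_eq_zero.2 (ih _ ⟨ht₀, le_rfl⟩ y hy)
      rw [h4, dist_zero_right, hD] at h3
      exact h3.le
  obtain ⟨k, hk⟩ := exists_nat_ge (t / (δ / 2))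
  have h5 : t ≤ k * (δ / 2) := (div_le_iff₀ (by positivity)).1 hk
  exact key k t ⟨ht.1, le_min h5 le_rfl⟩

end Pool.Agent.H.MP_4ac55f_gt.RP
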