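import Mathlib

/-!
# Immersions of the unit sphere and their mean curvature flow: definitions

A map `f` of the unit sphere of the euclidean space `V` is replaced by `ext f : V → W`, constant on rays;
`f` is smooth iff `ext f` is smooth off `0`, and tangent vectors at `x` are the `v` with `⟪x, v⟫ = 0`.
-/

set_option autoImplicit false

open scoped InnerProductSpace ContDiff
open Set Metric

namespace Pool.Agent.H.MP_4ac55f_gt.RP

section

variable {V W : Type*} [NormedAddCommGroup V] [InnerProductSpace ℝ V]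
  [NormedAddCommGroup W] [InnerProductSpace ℝ W]

/-- the projection of a nonzero vector to the unit sphere -/
noncomputable def pr (y : V) (h : y ≠ 0) : sphere (0 : V) 1 :=
  ⟨‖y‖⁻¹ • y, by
    rw [mem_sphere_zero_iff_norm, norm_smul, norm_inv, norm_norm,
      inv_mul_cancel₀ (norm_ne_zero_iff.2 h)]⟩

open Classical in
/-- the extension of a map of the unit sphere which is constant on rays -/
noncomputable def ext (f : sphere (0 : V) 1 → W) (y : V) : W :=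
  if h : y = 0 then 0 else f (pr y h)

/-- the differential -/
noncomputable def d (G : V → W) (x v : V) : W := fderiv ℝ G x v

/-- the second derivative -/
noncomputable def d2 (G : V → W) (x v w : V) : W := fderiv ℝ (fderiv ℝ G) x v w

/-- `e` is a basis of the tangent space of the sphere at `x` which is orthonormal for the metric
induced by `G` -/
def IsFrame {n : ℕ} (G : V → W) (x : V) (e : Fin n → V) : Prop :=
  (∀ i, ⟪x, e i⟫_ℝ = 0) ∧ ∀ i j, ⟪d G x (e i), d G x (e j)⟫_ℝ = if i = j then 1 else 0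

/-- the part of `b` normal to the image of the tangent space (`e` is a frame) -/
noncomputable def nor {n : ℕ} (G : V → W) (x : V) (e : Fin n → V) (b : W) : W :=
  b - ∑ j, ⟪d G x (e j), b⟫_ℝ • d G x (e j)

/-- the vector valued second fundamental form -/
noncomputable def sff {n : ℕ} (G : V → W) (x : V) (e : Fin n → V) (v w : V) : W :=
  nor G x e (d2 G x v w)

/-- the mean curvature vector (trace of the second fundamental form) -/
noncomputable def mcv {n : ℕ} (G : V → W) (x : V) (e : Fin n → V) : W :=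
  ∑ i, sff G x e (e i) (e i)

/-- the Ricci curvature `Ric (v, v)` of the induced metric, by the Gauss equation -/
noncomputable def ric {n : ℕ} (G : V → W) (x : V) (e : Fin n → V) (v : V) : ℝ :=
  ∑ i, (⟪sff G x e v v, sff G x e (e i) (e i)⟫_ℝ - ‖sff G x e v (e i)‖ ^ 2)

/-- `G` is an immersion of the unit sphere -/
def Imm (G : V → W) : Prop := ∀ x : V, ‖x‖ = 1 → ∀ v : V, ⟪x, v⟫_ℝ = 0 → d G x v = 0 → v = 0

/-- the time interval `[0, T)` -/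
def I (T : EReal) : Set ℝ := {t | 0 ≤ t ∧ (t : EReal) < T}

/-- smooth solutions on `[0, T)` of the mean curvature flow of immersions of the unit sphere of `V`
(of dimension `n`) in `W` -/
structure IsMCF (n : ℕ) (T : EReal) (F : ℝ → sphere (0 : V) 1 → W) : Prop where
  smooth : ContDiffOn ℝ ∞ (fun p : ℝ × V => ext (F p.1) p.2) (I T ×ˢ {0}ᶜ)
  imm : ∀ t ∈ I T, Imm (ext (F t))
  eq : ∀ t ∈ I T, ∀ x : sphere (0 : V) 1, ∀ e : Fin n → V, IsFrame (ext (F t)) (x : V) e →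
    HasDerivWithinAt (fun s => F s x) (mcv (ext (F t)) (x : V) e) (I T) t

/-- `g` is `C¹`-close to the linear isometry `L` on the unit sphere -/
def Close (g : sphere (0 : V) 1 → W) (L : V →ₗᵢ[ℝ] W) (δ : ℝ) : Prop :=
  DifferentiableOn ℝ (ext g) {0}ᶜ ∧ (∀ x, ‖g x - L x‖ ≤ δ) ∧
    ∀ x : sphere (0 : V) 1, ∀ v : V, ⟪(x : V), v⟫_ℝ = 0 → ‖d (ext g) (x : V) v - L v‖ ≤ δ * ‖v‖

/-- for a sequence of times tending to `T`, translates and multiples of reparametrisations of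
`F t` converge in `C¹` to a round sphere (a linear isometry `L` restricted to the unit sphere) -/
def RoundLimit (T : ℝ) (F : ℝ → sphere (0 : V) 1 → W) : Prop :=
  ∃ L : V →ₗᵢ[ℝ] W, ∀ δ : ℝ, 0 < δ → ∀ t₀ : ℝ, t₀ < T → ∃ t : ℝ, t₀ < t ∧ 0 ≤ t ∧ t < T ∧
    ∃ (a : ℝ) (p : W) (φ : sphere (0 : V) 1 → sphere (0 : V) 1), 0 < a ∧ Function.Bijective φ ∧
      Close (fun x => a • (F t (φ x) - p)) L δ

/-! ### solutions as families of maps constant on rays -/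

/-- classical solutions, as families of maps of `V` constant on rays -/
structure Flow (n : ℕ) (T : ℝ) (G : ℝ → V → W) : Prop where
  hom : ∀ t ∈ Ico 0 T, ∀ r : ℝ, 0 < r → ∀ x : V, x ≠ 0 → G t (r • x) = G t x
  c2 : ∀ t ∈ Ico 0 T, ContDiffOn ℝ 2 (G t) {0}ᶜ
  k0 : ContinuousOn (fun p : ℝ × V => G p.1 p.2) (Ico 0 T ×ˢ {0}ᶜ)
  k1 : ContinuousOn (fun p : ℝ × V => fderiv ℝ (G p.1) p.2) (Ico 0 T ×ˢ {0}ᶜ)
  k2 : ContinuousOn (fun p : ℝ × V => fderiv ℝ (fderiv ℝ (G p.1)) p.2) (Ico 0 T ×ˢ {0}ᶜ)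
  imm : ∀ t ∈ Ico 0 T, Imm (G t)
  eq : ∀ t ∈ Ico 0 T, ∀ x : V, ‖x‖ = 1 → ∀ e : Fin n → V, IsFrame (G t) x e →
    HasDerivWithinAt (fun s => G s x) (mcv (G t) x e) (Ico 0 T) t

/-- uniform constants on `[0, T₁]` -/
structure Cst (T₁ : ℝ) (G : ℝ → V → W) (c₀ c₁ r C : ℝ) : Prop where
  hc₀ : 0 < c₀
  hc₁ : 0 < c₁
  hr : 0 < r
  hr' : r ≤ 1 / 4
  hC : 0 < C
  lo : ∀ t ∈ Icc 0 T₁, ∀ y : V, ‖y‖ = 1 → ∀ w : V, ⟪y, w⟫_ℝ = 0 → c₀ * ‖w‖ ≤ ‖d (G t) y w‖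
  hs : ∀ t ∈ Icc 0 T₁, ∀ y : V, ‖y‖ = 1 → ∀ a b : V, ‖d2 (G t) y a b‖ ≤ C * ‖a‖ * ‖b‖
  inj : ∀ t ∈ Icc 0 T₁, ∀ y y' : V, ‖y‖ = 1 → ‖y'‖ = 1 → ‖y - y'‖ ≤ 2 * r →
    c₁ * ‖y - y'‖ ≤ ‖G t y - G t y'‖
  tay : ∀ t ∈ Icc 0 T₁, ∀ y y' : V, ‖y‖ = 1 → ‖y'‖ = 1 → ‖y - y'‖ ≤ 2 * r →
    ‖G t y' - G t y - d (G t) y (y' - y)‖ ≤ C * ‖y' - y‖ ^ 2
  lip : ∀ t ∈ Icc 0 T₁, ∀ y y' : V, ‖y‖ = 1 → ‖y'‖ = 1 → ‖y - y'‖ ≤ 2 * r →
    ‖G t y - G t y'‖ ≤ C * ‖y - y'‖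

/-- `y` minimizes the distance of `g y` to `p` on the part of the sphere within distance `r` of
`x` -/
def IsMin (g : V → W) (p : W) (x : V) (r : ℝ) (y : V) : Prop :=
  ‖y‖ = 1 ∧ ‖y - x‖ ≤ r ∧ ∀ y' : V, ‖y'‖ = 1 → ‖y' - x‖ ≤ r → ‖p - g y‖ ≤ ‖p - g y'‖

/-- `x` maximizes the minimal distance, `y` is the minimizer -/
def MaxMin (g g' : V → W) (r : ℝ) (x y : V) : Prop :=
  ‖x‖ = 1 ∧ IsMin g' (g x) x r y ∧ ∀ x' : V, ‖x'‖ = 1 → ∀ y' : V, IsMin g' (g x') x' r y' →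
    ‖g x' - g' y'‖ ≤ ‖g x - g' y‖

end

/-! ### the example -/

/-- `(x', x₄) ↦ (cos x₄ x', sin x₄ x', x₄² / 2)` -/
noncomputable def G0 (x : EuclideanSpace ℝ (Fin 4)) : EuclideanSpace ℝ (Fin 7) :=
  WithLp.toLp 2 ![Real.cos (x 3) * x 0, Real.cos (x 3) * x 1, Real.cos (x 3) * x 2,
    Real.sin (x 3) * x 0, Real.sin (x 3) * x 1, Real.sin (x 3) * x 2, x 3 ^ 2 / 2]

/-- the immersion of the unit sphere `S³` in `ℝ⁷` -/
noncomputable def F0 (x : sphere (0 : EuclideanSpace ℝ (Fin 4)) 1) : EuclideanSpace ℝ (Fin 7) :=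
  G0 x

/-- the pole `(0, 0, 0, 1)` -/
noncomputable def N : sphere (0 : EuclideanSpace ℝ (Fin 4)) 1 :=
  ⟨EuclideanSpace.single 3 1, by simp⟩

end Pool.Agent.H.MP_4ac55f_gt.RP
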