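import Pool.Agent.H.MP_4ac55f_gt.RP.Def

/-!
# Second derivatives of the extension constant on rays  (module ExtH)

`ext f y = G (‖y‖⁻¹ • y)` for `y ≠ 0`. `P y = ‖y‖⁻¹ • y` has at `y ≠ 0` the derivative `u ↦ ‖y‖⁻¹ • u - (‖y‖⁻¹ ^ 3 * ⟪y, u⟫) • y`. So for `y ≠ 0`
`fderiv (ext f) y w = fderiv G (P y) (‖y‖⁻¹ • w - (‖y‖⁻¹ ^ 3 * ⟪y, w⟫) • y)`; differentiate at the unit vector `x` in the direction `v`, with `⟪x, v⟫ = ⟪x, w⟫ = 0`:
`D²G (v, w) + DG (- ⟪v, w⟫ x)`.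
-/

set_option autoImplicit false

open scoped InnerProductSpace ContDiff Topology
open Set Metric Filter

namespace Pool.Agent.H.MP_4ac55f_gt.RP

variable {V W : Type*} [NormedAddCommGroup V] [InnerProductSpace ℝ V]
  [NormedAddCommGroup W] [InnerProductSpace ℝ W]

theorem ExtH_eq {f : sphere (0 : V) 1 → W} {G : V → W}
    (hf : ∀ x : sphere (0 : V) 1, f x = G x) {y : V} (hy : y ≠ 0) :
    ext f y = G (‖y‖⁻¹ • y) := by
  unfold ext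
  rw [dif_neg hy, hf]
  rfl

theorem ExtH_inv {y : V} (hy : y ≠ 0) :
    HasFDerivAt (fun y : V => ‖y‖⁻¹) (-(‖y‖ ^ 2)⁻¹ • (‖y‖⁻¹ • innerSL ℝ y)) y := by
  have hn : ‖y‖ ≠ 0 := norm_ne_zero_iff.2 hy
  have h1 : HasFDerivAt (fun y : V => ‖y‖ ^ 2) (2 • innerSL ℝ y) y :=
    (hasStrictFDerivAt_norm_sq y).hasFDerivAt
  have h2 := h1.sqrt (pow_ne_zero 2 hn)
  have h3 : HasFDerivAt (fun y : V => ‖y‖) (‖y‖⁻¹ • innerSL ℝ y) y := by
    have e : (fun y : V => √(‖y‖ ^ 2)) = fun y : V => ‖y‖ := by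
      funext z
      exact Real.sqrt_sq (norm_nonneg z)
    rw [e, Real.sqrt_sq (norm_nonneg y)] at h2
    convert h2 using 1
    ext v
    simp only [ContinuousLinearMap.smul_apply, smul_eq_mul, nsmul_eq_mul]
    field_simp
    norm_num
  exact (hasDerivAt_inv hn).comp_hasFDerivAt y h3

theorem ExtH_pr {y : V} (hy : y ≠ 0) :
    HasFDerivAt (fun y : V => ‖y‖⁻¹ • y)
      (‖y‖⁻¹ • ContinuousLinearMap.id ℝ V +
        (-(‖y‖ ^ 2)⁻¹ • (‖y‖⁻¹ • innerSL ℝ y)).smulRight y) y :=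
  (ExtH_inv hy).smul (hasFDerivAt_id y)

theorem ExtH_fderiv {f : sphere (0 : V) 1 → W} {G : V → W} (hG : ContDiff ℝ ∞ G)
    (hf : ∀ x : sphere (0 : V) 1, f x = G x) {y : V} (hy : y ≠ 0) (w : V) :
    fderiv ℝ (ext f) y w =
      fderiv ℝ G (‖y‖⁻¹ • y) (‖y‖⁻¹ • w - (‖y‖⁻¹ ^ 3 * ⟪y, w⟫_ℝ) • y) := by
  have hd : DifferentiableAt ℝ G (‖y‖⁻¹ • y) := (hG.differentiable (by norm_num)) _
  have h1 : HasFDerivAt (G ∘ fun y : V => ‖y‖⁻¹ • y) _ y :=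
    HasFDerivAt.comp (f := fun y : V => ‖y‖⁻¹ • y) y hd.hasFDerivAt (ExtH_pr hy)
  have h2 : ext f =ᶠ[𝓝 y] (G ∘ fun y : V => ‖y‖⁻¹ • y) := by
    filter_upwards [isOpen_ne.mem_nhds hy] with z hz
    exact ExtH_eq hf hz
  have h3 := h1.congr_of_eventuallyEq h2
  rw [h3.fderiv]
  have e : (‖y‖⁻¹ • ContinuousLinearMap.id ℝ V +
        (-(‖y‖ ^ 2)⁻¹ • (‖y‖⁻¹ • innerSL ℝ y)).smulRight y) w =
      ‖y‖⁻¹ • w - (‖y‖⁻¹ ^ 3 * ⟪y, w⟫_ℝ) • y := by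
    simp only [ContinuousLinearMap.add_apply, ContinuousLinearMap.smul_apply,
      ContinuousLinearMap.id_apply, ContinuousLinearMap.smulRight_apply, innerSL_apply_apply,
      smul_eq_mul, sub_eq_add_neg, ← neg_smul]
    congr 2
    simp only [← inv_pow]
    ring
  rw [← e]
  rfl

theorem ext_smooth {f : sphere (0 : V) 1 → W} {G : V → W} (hG : ContDiff ℝ ∞ G)
    (hf : ∀ x : sphere (0 : V) 1, f x = G x) : ContDiffOn ℝ ∞ (ext f) {0}ᶜ := by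
  have h : ∀ y ∈ ({0}ᶜ : Set V), ext f y = (G ∘ fun y : V => ‖y‖⁻¹ • y) y :=
    fun y hy => ExtH_eq hf hy
  refine ContDiffOn.congr ?_ h
  refine hG.comp_contDiffOn ?_
  intro y hy
  have h1 : ContDiffAt ℝ ∞ (fun y : V => ‖y‖) y := contDiffAt_norm ℝ hy
  exact ((h1.inv (norm_ne_zero_iff.2 hy)).smul contDiffAt_id).contDiffWithinAt

theorem ext_d {f : sphere (0 : V) 1 → W} {G : V → W} (hG : ContDiff ℝ ∞ G)
    (hf : ∀ x : sphere (0 : V) 1, f x = G x) {x : V} (hx : ‖x‖ = 1) {v : V} (hv : ⟪x, v⟫_ℝ = 0) :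
    d (ext f) x v = d G x v := by
  have hx0 : x ≠ 0 := by
    intro h
    rw [h, norm_zero] at hx
    exact zero_ne_one hx
  unfold d
  rw [ExtH_fderiv hG hf hx0, hv, hx]
  simp

theorem ext_d2 {f : sphere (0 : V) 1 → W} {G : V → W} (hG : ContDiff ℝ ∞ G)
    (hf : ∀ x : sphere (0 : V) 1, f x = G x) {x : V} (hx : ‖x‖ = 1) {v w : V}
    (hv : ⟪x, v⟫_ℝ = 0) (hw : ⟪x, w⟫_ℝ = 0) :
    d2 (ext f) x v w = d2 G x v w - ⟪v, w⟫_ℝ • d G x x := by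
  have hx0 : x ≠ 0 := by
    intro h
    rw [h, norm_zero] at hx
    exact zero_ne_one hx
  unfold d2 d
  have hl : HasDerivAt (fun t : ℝ => x + t • v) v 0 := by
    have := ((hasDerivAt_id (0 : ℝ)).smul_const v).const_add x
    simpa using this
  have hx00 : x + (0 : ℝ) • v = x := by simp
  -- the derivative of the extension is differentiable
  have hsm : ContDiffAt ℝ ∞ (ext f) x := (ext_smooth hG hf).contDiffAt (isOpen_ne.mem_nhds hx0)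
  have hd1 : DifferentiableAt ℝ (fderiv ℝ (ext f)) x := by
    have h1 : ContDiffAt ℝ 1 (fderiv ℝ (ext f)) x := hsm.fderiv_right (by norm_cast)
    exact h1.differentiableAt (by norm_num)
  have h1 : HasDerivAt (fun t : ℝ => fderiv ℝ (ext f) (x + t • v) w)
      (fderiv ℝ (fderiv ℝ (ext f)) x v w) 0 := by
    have hd2 : HasFDerivAt (fderiv ℝ (ext f)) (fderiv ℝ (fderiv ℝ (ext f)) x) (x + (0 : ℝ) • v) := by
      rw [hx00]; exact hd1.hasFDerivAt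
    have h2 := (hd2.comp_hasDerivAt (0 : ℝ) hl).clm_apply (hasDerivAt_const (0 : ℝ) w)
    simpa using h2
  -- the formula
  have hr : HasDerivAt (fun t : ℝ => ‖x + t • v‖⁻¹) 0 0 := by
    have h2 : HasFDerivAt (fun y : V => ‖y‖⁻¹) (-(‖x‖ ^ 2)⁻¹ • (‖x‖⁻¹ • innerSL ℝ x))
        (x + (0 : ℝ) • v) := by rw [hx00]; exact ExtH_inv hx0
    have h3 := h2.comp_hasDerivAt (0 : ℝ) hl
    have e : (-(‖x‖ ^ 2)⁻¹ • (‖x‖⁻¹ • innerSL ℝ x)) v = 0 := by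
      simp [hv]
    rw [e] at h3
    exact h3
  have hP : HasDerivAt (fun t : ℝ => ‖x + t • v‖⁻¹ • (x + t • v)) v 0 := by
    have h2 := hr.smul hl
    have e : (‖x + (0 : ℝ) • v‖⁻¹ • v + (0 : ℝ) • (x + (0 : ℝ) • v)) = v := by
      rw [hx00, hx]; simp
    rw [e] at h2
    exact h2
  have hi : HasDerivAt (fun t : ℝ => ⟪x + t • v, w⟫_ℝ) ⟪v, w⟫_ℝ 0 := by
    have h2 := hl.inner ℝ (hasDerivAt_const (0 : ℝ) w)
    simpa using h2
  have hb : HasDerivAt (fun t : ℝ => ‖x + t • v‖⁻¹ • w -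
      (‖x + t • v‖⁻¹ ^ 3 * ⟪x + t • v, w⟫_ℝ) • (x + t • v)) (-(⟪v, w⟫_ℝ • x)) 0 := by
    have h2 := (hr.smul_const w).sub (((hr.pow 3).mul hi).smul hl)
    refine HasDerivAt.congr_deriv (f := fun t : ℝ => ‖x + t • v‖⁻¹ • w -
      (‖x + t • v‖⁻¹ ^ 3 * ⟪x + t • v, w⟫_ℝ) • (x + t • v)) h2 ?_
    simp [hx, hw]
  have hA : HasDerivAt (fun t : ℝ => fderiv ℝ G (‖x + t • v‖⁻¹ • (x + t • v)))
      (fderiv ℝ (fderiv ℝ G) x v) 0 := by
    have h2 : DifferentiableAt ℝ (fderiv ℝ G) x := by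
      have h3 : ContDiff ℝ 1 (fderiv ℝ G) := hG.fderiv_right (by norm_cast)
      exact (h3.differentiable (by norm_num)) x
    have h3 : HasFDerivAt (fderiv ℝ G) (fderiv ℝ (fderiv ℝ G) x)
        ((fun t : ℝ => ‖x + t • v‖⁻¹ • (x + t • v)) 0) := by
      simp only [zero_smul, add_zero, hx, inv_one, one_smul]
      exact h2.hasFDerivAt
    exact h3.comp_hasDerivAt (0 : ℝ) hP
  have h2 := hA.clm_apply hb
  have h3 : HasDerivAt (fun t : ℝ => fderiv ℝ (ext f) (x + t • v) w)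
      (fderiv ℝ (fderiv ℝ G) x v w - ⟪v, w⟫_ℝ • fderiv ℝ G x x) 0 := by
    have h4 : (fun t : ℝ => fderiv ℝ (ext f) (x + t • v) w) =ᶠ[𝓝 0]
        fun t : ℝ => fderiv ℝ G (‖x + t • v‖⁻¹ • (x + t • v)) (‖x + t • v‖⁻¹ • w -
          (‖x + t • v‖⁻¹ ^ 3 * ⟪x + t • v, w⟫_ℝ) • (x + t • v)) := by
      have h5 : ∀ᶠ t : ℝ in 𝓝 0, x + t • v ≠ 0 := by
        have h6 : ContinuousAt (fun t : ℝ => x + t • v) 0 := hl.continuousAt
        exact h6.eventually_ne (by rw [hx00]; exact hx0)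
      filter_upwards [h5] with t ht
      exact ExtH_fderiv hG hf ht w
    have h5 := h2.congr_of_eventuallyEq h4
    convert h5 using 1
    simp [hx, hw, sub_eq_add_neg]
  exact h1.unique h3

end Pool.Agent.H.MP_4ac55f_gt.RP
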