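import Pool.Agent.H.MP_4ac55f_gt.RP.Def

/-!
# Frames  (module Fr)

`G` injective on `xᗮ` (dimension `n`). `frame_exists`: an orthonormal basis of the image of `xᗮ` under `d G x` (dimension `n`) and its preimages. `frame_span`: the `d G x (e i)` are
orthonormal in this `n`-dimensional space, so `d G x v` is the sum; injectivity. `mcv_frame`: expand one frame in the other (`frame_span`), the matrix is orthogonal;
`nor` does not depend on the frame.
-/

set_option autoImplicit false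

open scoped InnerProductSpace ContDiff Topology
open Set Metric Filter

namespace Pool.Agent.H.MP_4ac55f_gt.RP

variable {V W : Type*} [NormedAddCommGroup V] [InnerProductSpace ℝ V] [FiniteDimensional ℝ V]
  [NormedAddCommGroup W] [InnerProductSpace ℝ W]

/-- the differential on the tangent space -/
private noncomputable def Fr_L (G : V → W) (x : V) : ((ℝ ∙ x)ᗮ : Submodule ℝ V) →ₗ[ℝ] W :=
  (fderiv ℝ G x : V →ₗ[ℝ] W) ∘ₗ ((ℝ ∙ x)ᗮ).subtype

private theorem Fr_mem {x v : V} : v ∈ ((ℝ ∙ x)ᗮ : Submodule ℝ V) ↔ ⟪x, v⟫_ℝ = 0 :=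
  Submodule.mem_orthogonal_singleton_iff_inner_right

private theorem Fr_apply (G : V → W) (x : V) (v : ((ℝ ∙ x)ᗮ : Submodule ℝ V)) :
    Fr_L G x v = d G x (v : V) := rfl

private theorem Fr_inj {G : V → W} (hG : Imm G) {x : V} (hx : ‖x‖ = 1) :
    Function.Injective (Fr_L G x) := by
  rw [← LinearMap.ker_eq_bot, LinearMap.ker_eq_bot']
  intro v hv
  have h1 := hG x hx (v : V) (Fr_mem.1 v.2) hv
  exact Subtype.ext h1

private theorem Fr_fin {n : ℕ} (hV : Module.finrank ℝ V = n + 1) {G : V → W} (hG : Imm G) {x : V}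
    (hx : ‖x‖ = 1) : Module.finrank ℝ (LinearMap.range (Fr_L G x)) = n := by
  have hx0 : x ≠ 0 := by
    intro h
    rw [h, norm_zero] at hx
    exact zero_ne_one hx
  have : Fact (Module.finrank ℝ V = n + 1) := ⟨hV⟩
  rw [LinearMap.finrank_range_of_inj (Fr_inj hG hx)]
  exact Submodule.finrank_orthogonal_span_singleton hx0

theorem frame_exists {n : ℕ} (hV : Module.finrank ℝ V = n + 1) {G : V → W} (hG : Imm G) {x : V}
    (hx : ‖x‖ = 1) : ∃ e : Fin n → V, IsFrame G x e := by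
  have h1 := Fr_fin hV hG hx
  obtain ⟨b⟩ : Nonempty (OrthonormalBasis (Fin n) ℝ (LinearMap.range (Fr_L G x))) :=
    ⟨(stdOrthonormalBasis ℝ (LinearMap.range (Fr_L G x))).reindex (finCongr h1)⟩
  have h2 : ∀ i, ∃ v : ((ℝ ∙ x)ᗮ : Submodule ℝ V), Fr_L G x v = (b i : W) := fun i =>
    LinearMap.mem_range.1 (b i).2
  choose e he using h2
  refine ⟨fun i => (e i : V), fun i => Fr_mem.1 (e i).2, fun i j => ?_⟩
  rw [← Fr_apply, ← Fr_apply, he, he]
  have h3 := (orthonormal_iff_ite.1 b.orthonormal) i j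
  rwa [Submodule.coe_inner] at h3

/-- the expansion of the image -/
private theorem Fr_exp {n : ℕ} (hV : Module.finrank ℝ V = n + 1) {G : V → W} (hG : Imm G) {x : V}
    (hx : ‖x‖ = 1) {e : Fin n → V} (he : IsFrame G x e) {v : V} (hv : ⟪x, v⟫_ℝ = 0) :
    d G x v = ∑ i, ⟪d G x (e i), d G x v⟫_ℝ • d G x (e i) := by
  have hmem : ∀ w : V, ⟪x, w⟫_ℝ = 0 → d G x w ∈ LinearMap.range (Fr_L G x) := fun w hw =>
    ⟨⟨w, Fr_mem.2 hw⟩, rfl⟩
  obtain ⟨u, hu⟩ : ∃ u : Fin n → LinearMap.range (Fr_L G x), u =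
      fun i => ⟨d G x (e i), hmem (e i) (he.1 i)⟩ := ⟨_, rfl⟩
  have hon : Orthonormal ℝ u := by
    rw [orthonormal_iff_ite]
    intro i j
    rw [Submodule.coe_inner, hu]
    exact he.2 i j
  have hcard : Fintype.card (Fin n) = Module.finrank ℝ (LinearMap.range (Fr_L G x)) := by
    rw [Fr_fin hV hG hx, Fintype.card_fin]
  have hsp : ⊤ ≤ Submodule.span ℝ (Set.range u) := by
    have h1 := hon.linearIndependent.span_eq_top_of_card_eq_finrank' hcard
    rw [h1]
  have h2 := (OrthonormalBasis.mk hon hsp).sum_repr' ⟨d G x v, hmem v hv⟩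
  have h3 := congrArg (Subtype.val) h2
  rw [AddSubmonoidClass.coe_finsetSum] at h3
  simp only [OrthonormalBasis.coe_mk, Submodule.coe_smul, Submodule.coe_inner] at h3
  rw [hu] at h3
  exact h3.symm

private theorem Fr_dsum {n : ℕ} (G : V → W) (x : V) (e : Fin n → V) (c : Fin n → ℝ) :
    d G x (∑ i, c i • e i) = ∑ i, c i • d G x (e i) := by
  unfold d
  rw [map_sum]
  exact Finset.sum_congr rfl fun i _ => map_smul _ _ _

private theorem Fr_isum {n : ℕ} {x : V} {e : Fin n → V} (he : ∀ i, ⟪x, e i⟫_ℝ = 0)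
    (c : Fin n → ℝ) : ⟪x, ∑ i, c i • e i⟫_ℝ = 0 := by
  rw [inner_sum]
  refine Finset.sum_eq_zero fun i _ => ?_
  rw [real_inner_smul_right, he i, mul_zero]

theorem frame_span {n : ℕ} (hV : Module.finrank ℝ V = n + 1) {G : V → W} (hG : Imm G) {x : V}
    (hx : ‖x‖ = 1) {e : Fin n → V} (he : IsFrame G x e) {v : V} (hv : ⟪x, v⟫_ℝ = 0) :
    v = ∑ i, ⟪d G x (e i), d G x v⟫_ℝ • e i := by
  have h1 : ⟪x, v - ∑ i, ⟪d G x (e i), d G x v⟫_ℝ • e i⟫_ℝ = 0 := by
    rw [inner_sub_right, hv, Fr_isum he.1, sub_zero]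
  have h2 : d G x (v - ∑ i, ⟪d G x (e i), d G x v⟫_ℝ • e i) = 0 := by
    have h3 : d G x (v - ∑ i, ⟪d G x (e i), d G x v⟫_ℝ • e i) =
        d G x v - d G x (∑ i, ⟪d G x (e i), d G x v⟫_ℝ • e i) := map_sub _ _ _
    rw [h3, Fr_dsum, ← Fr_exp hV hG hx he hv, sub_self]
  exact sub_eq_zero.1 (hG x hx _ h1 h2)

theorem nor_d {n : ℕ} (hV : Module.finrank ℝ V = n + 1) {G : V → W} (hG : Imm G) {x : V}
    (hx : ‖x‖ = 1) {e : Fin n → V} (he : IsFrame G x e) {v : V} (hv : ⟪x, v⟫_ℝ = 0) :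
    nor G x e (d G x v) = 0 := by
  rw [nor, ← Fr_exp hV hG hx he hv, sub_self]

theorem inner_nor {n : ℕ} {G : V → W} {x : V} {e : Fin n → V} (he : IsFrame G x e) {ξ : W}
    (hξ : ∀ v : V, ⟪x, v⟫_ℝ = 0 → ⟪ξ, d G x v⟫_ℝ = 0) (b : W) :
    ⟪ξ, nor G x e b⟫_ℝ = ⟪ξ, b⟫_ℝ := by
  rw [nor, inner_sub_right, inner_sum, Finset.sum_eq_zero, sub_zero]
  intro i _
  rw [real_inner_smul_right, hξ _ (he.1 i), mul_zero]

private theorem Fr_orth {n : ℕ} {G : V → W} {x : V} {e : Fin n → V} (he : IsFrame G x e) (b : W)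
    (j : Fin n) : ⟪d G x (e j), nor G x e b⟫_ℝ = 0 := by
  rw [nor, inner_sub_right, inner_sum]
  simp only [real_inner_smul_right, he.2, mul_ite, mul_one, mul_zero, Finset.sum_ite_eq,
    Finset.mem_univ, if_true, sub_self]

theorem inner_d_nor {n : ℕ} (hV : Module.finrank ℝ V = n + 1) {G : V → W} (hG : Imm G) {x : V}
    (hx : ‖x‖ = 1) {e : Fin n → V} (he : IsFrame G x e) {v : V} (hv : ⟪x, v⟫_ℝ = 0) (b : W) :
    ⟪d G x v, nor G x e b⟫_ℝ = 0 := by
  rw [Fr_exp hV hG hx he hv, sum_inner]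
  refine Finset.sum_eq_zero fun i _ => ?_
  rw [real_inner_smul_left, Fr_orth he, mul_zero]

theorem norm_nor_le {n : ℕ} {G : V → W} {x : V} {e : Fin n → V} (he : IsFrame G x e) (b : W) :
    ‖nor G x e b‖ ≤ ‖b‖ := by
  have h1 : ⟪nor G x e b, nor G x e b⟫_ℝ = ⟪nor G x e b, b⟫_ℝ := by
    have h2 : nor G x e b = b - ∑ j, ⟪d G x (e j), b⟫_ℝ • d G x (e j) := rfl
    have h3 : ⟪nor G x e b, ∑ j, ⟪d G x (e j), b⟫_ℝ • d G x (e j)⟫_ℝ = 0 := by
      rw [inner_sum]
      refine Finset.sum_eq_zero fun i _ => ?_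
      rw [real_inner_smul_right, real_inner_comm (d G x (e i)) (nor G x e b), Fr_orth he, mul_zero]
    calc ⟪nor G x e b, nor G x e b⟫_ℝ
        = ⟪nor G x e b, b - ∑ j, ⟪d G x (e j), b⟫_ℝ • d G x (e j)⟫_ℝ := by rw [← h2]
      _ = ⟪nor G x e b, b⟫_ℝ := by rw [inner_sub_right, h3, sub_zero]
  rw [real_inner_self_eq_norm_sq] at h1
  have h4 := real_inner_le_norm (nor G x e b) b
  by_contra h5
  rw [not_le] at h5
  have h6 : 0 < ‖nor G x e b‖ := (norm_nonneg _).trans_lt h5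
  nlinarith

private theorem Fr_nadd {n : ℕ} (G : V → W) (x : V) (e : Fin n → V) (a b : W) :
    nor G x e (a + b) = nor G x e a + nor G x e b := by
  simp only [nor, inner_add_right, add_smul, Finset.sum_add_distrib]
  abel

private theorem Fr_nzero {n : ℕ} (G : V → W) (x : V) (e : Fin n → V) :
    nor G x e (0 : W) = 0 := by
  simp only [nor, inner_zero_right, zero_smul, Finset.sum_const_zero, sub_zero]

private theorem Fr_nsum {n : ℕ} (G : V → W) (x : V) (e : Fin n → V) {ι : Type*} (s : Finset ι)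
    (b : ι → W) : nor G x e (∑ i ∈ s, b i) = ∑ i ∈ s, nor G x e (b i) := by
  classical
  induction s using Finset.induction_on with
  | empty => simp only [Finset.sum_empty, Fr_nzero]
  | insert a s ha ih => rw [Finset.sum_insert ha, Finset.sum_insert ha, Fr_nadd, ih]

private theorem Fr_nor {n : ℕ} (hV : Module.finrank ℝ V = n + 1) {G : V → W} (hG : Imm G) {x : V}
    (hx : ‖x‖ = 1) {e e' : Fin n → V} (he : IsFrame G x e) (he' : IsFrame G x e') (b : W) :
    nor G x e b = nor G x e' b := by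
  obtain ⟨v, hv⟩ : ∃ v : V, v = (∑ j, ⟪d G x (e' j), b⟫_ℝ • e' j) -
    ∑ j, ⟪d G x (e j), b⟫_ℝ • e j := ⟨_, rfl⟩
  have h0 : ⟪x, v⟫_ℝ = 0 := by
    rw [hv, inner_sub_right, Fr_isum he.1, Fr_isum he'.1, sub_zero]
  have h1 : d G x v = nor G x e b - nor G x e' b := by
    have h2 : d G x v = d G x (∑ j, ⟪d G x (e' j), b⟫_ℝ • e' j) -
        d G x (∑ j, ⟪d G x (e j), b⟫_ℝ • e j) := by
      rw [hv]
      exact map_sub _ _ _
    rw [h2, Fr_dsum, Fr_dsum, nor, nor]
    abel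
  have h3 : ⟪d G x v, d G x v⟫_ℝ = 0 := by
    calc ⟪d G x v, d G x v⟫_ℝ = ⟪d G x v, nor G x e b - nor G x e' b⟫_ℝ := by rw [← h1]
      _ = 0 := by
        rw [inner_sub_right, inner_d_nor hV hG hx he h0, inner_d_nor hV hG hx he' h0, sub_zero]
  rw [inner_self_eq_zero, h1] at h3
  exact sub_eq_zero.1 h3

theorem mcv_frame {n : ℕ} (hV : Module.finrank ℝ V = n + 1) {G : V → W} (hG : Imm G) {x : V}
    (hx : ‖x‖ = 1) {e e' : Fin n → V} (he : IsFrame G x e) (he' : IsFrame G x e') :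
    mcv G x e = mcv G x e' := by
  obtain ⟨a, ha⟩ : ∃ a : Fin n → Fin n → ℝ, a = fun i j => ⟪d G x (e' j), d G x (e i)⟫_ℝ :=
    ⟨_, rfl⟩
  have ha' : ∀ i j, a i j = ⟪d G x (e' j), d G x (e i)⟫_ℝ := fun i j => by rw [ha]
  have h1 : ∀ i, e i = ∑ j, a i j • e' j := by
    intro i
    rw [ha]
    exact frame_span hV hG hx he' (he.1 i)
  have h2 : ∀ j k, ∑ i, a i j * a i k = if j = k then 1 else 0 := by
    intro j k
    rw [← he'.2 j k]
    have h3 := Fr_exp hV hG hx he (he'.1 k)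
    calc ∑ i, a i j * a i k = ∑ i, ⟪d G x (e' j), ⟪d G x (e i), d G x (e' k)⟫_ℝ • d G x (e i)⟫_ℝ := by
          refine Finset.sum_congr rfl fun i _ => ?_
          rw [real_inner_smul_right, ha', ha', real_inner_comm (d G x (e i)) (d G x (e' k))]
          ring
      _ = ⟪d G x (e' j), d G x (e' k)⟫_ℝ := by rw [← inner_sum, ← h3]
  have h4 : ∀ v w : V, d2 G x v w = fderiv ℝ (fderiv ℝ G) x v w := fun _ _ => rfl
  have h45 : ∀ (B : V →L[ℝ] V →L[ℝ] W) (i : Fin n),
      B (∑ j, a i j • e' j) (∑ k, a i k • e' k) =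
        ∑ j, ∑ k, (a i j * a i k) • B (e' j) (e' k) := by
    intro B i
    rw [map_sum B, ContinuousLinearMap.sum_apply]
    refine Finset.sum_congr rfl fun j _ => ?_
    rw [map_smul, ContinuousLinearMap.smul_apply, map_sum, Finset.smul_sum]
    refine Finset.sum_congr rfl fun k _ => ?_
    rw [map_smul, smul_smul]
  have h5 : ∀ i, d2 G x (e i) (e i) = ∑ j, ∑ k, (a i j * a i k) • d2 G x (e' j) (e' k) := by
    intro i
    have h6 : d2 G x (e i) (e i) = d2 G x (∑ j, a i j • e' j) (∑ k, a i k • e' k) := by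
      rw [← h1 i]
    rw [h6, h4]
    exact h45 _ i
  have h7 : ∑ i, d2 G x (e i) (e i) = ∑ j, d2 G x (e' j) (e' j) := by
    calc ∑ i, d2 G x (e i) (e i) = ∑ i, ∑ j, ∑ k, (a i j * a i k) • d2 G x (e' j) (e' k) :=
          Finset.sum_congr rfl fun i _ => h5 i
      _ = ∑ j, ∑ k, ∑ i, (a i j * a i k) • d2 G x (e' j) (e' k) := by
          rw [Finset.sum_comm]
          refine Finset.sum_congr rfl fun j _ => ?_
          rw [Finset.sum_comm]
      _ = ∑ j, ∑ k, (if j = k then (1 : ℝ) else 0) • d2 G x (e' j) (e' k) := by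
          refine Finset.sum_congr rfl fun j _ => Finset.sum_congr rfl fun k _ => ?_
          rw [← Finset.sum_smul, h2]
      _ = ∑ j, d2 G x (e' j) (e' j) := by
          refine Finset.sum_congr rfl fun j _ => ?_
          simp only [ite_smul, one_smul, zero_smul, Finset.sum_ite_eq, Finset.mem_univ, if_true]
  have h8 : ∀ f : Fin n → V, mcv G x f = nor G x f (∑ i, d2 G x (f i) (f i)) := by
    intro f
    rw [Fr_nsum]
    rfl
  rw [h8, h8, h7]
  exact Fr_nor hV hG hx he he' _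

end Pool.Agent.H.MP_4ac55f_gt.RP
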