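import Pool.Agent.H.MP_4ac55f_gt.RP.Def

/-!
# Uniform constants  (module Un)

Compact sets: `Icc 0 T₁ ×ˢ {y | 1/2 ≤ ‖y‖ ≤ 2}` (finite dimension) and `Icc 0 T₁ × {(y, w) | ‖y‖ = 1, ‖w‖ = 1, ⟪y, w⟫ = 0}`. `hs`, `lip` and `tay` from bounds of `k1`, `k2` on the first
set (for `‖y - y'‖ ≤ 1/2` the segment stays in it; mean value inequality for `z ↦ G z` and `z ↦ G z - d G y z`). `lo`: the continuous positive function `‖d (G t) y w‖` on the second set has a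
positive minimum (if the set is empty any constant will do). `inj`: `d (G t) y y = 0` by `hom`, so `d (G t) y (y' - y) = d (G t) y z` with `z` the part of `y' - y` orthogonal to `y`,
`‖z‖ ≥ ‖y' - y‖ - ‖y' - y‖² / 2 ≥ ‖y' - y‖ / 2`; so `‖G y' - G y‖ ≥ c₀ ‖y' - y‖ / 2 - C ‖y' - y‖² ≥ (c₀ / 4) ‖y' - y‖` for `‖y - y'‖ ≤ 2 r`, `r` small.
`unif2`: apply `unif` twice (or `Cst` is monotone: smaller `c₀, c₁, r`, larger `C`).
-/

set_option autoImplicit false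

open scoped InnerProductSpace ContDiff Topology
open Set Metric Filter

namespace Pool.Agent.H.MP_4ac55f_gt.RP

section

variable {V W : Type*} [NormedAddCommGroup V] [InnerProductSpace ℝ V]
  [NormedAddCommGroup W] [InnerProductSpace ℝ W]

theorem Un_diff {n : ℕ} {T : ℝ} {G : ℝ → V → W} (h : Flow n T G) {t : ℝ} (ht : t ∈ Ico 0 T)
    {y : V} (hy : y ≠ 0) : DifferentiableAt ℝ (G t) y :=
  ((h.c2 t ht).differentiableOn (by norm_num)).differentiableAt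
    (isOpen_compl_singleton.mem_nhds hy)

theorem Un_diff2 {n : ℕ} {T : ℝ} {G : ℝ → V → W} (h : Flow n T G) {t : ℝ} (ht : t ∈ Ico 0 T)
    {y : V} (hy : y ≠ 0) : DifferentiableAt ℝ (fderiv ℝ (G t)) y := by
  have h1 : ContDiffAt ℝ 2 (G t) y :=
    (h.c2 t ht).contDiffAt (isOpen_compl_singleton.mem_nhds hy)
  have h2 : ContDiffAt ℝ 1 (fderiv ℝ (G t)) y := h1.fderiv_right (by norm_num)
  exact h2.differentiableAt (by norm_num)

/-- the constants may be made worse -/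
theorem Un_mono {T₁ : ℝ} {G : ℝ → V → W} {c₀ c₁ r C c₀' c₁' r' C' : ℝ}
    (h : Cst T₁ G c₀ c₁ r C) (h0 : 0 < c₀') (h0' : c₀' ≤ c₀) (h1 : 0 < c₁') (h1' : c₁' ≤ c₁)
    (hr : 0 < r') (hr' : r' ≤ r) (hC : C ≤ C') : Cst T₁ G c₀' c₁' r' C' where
  hc₀ := h0
  hc₁ := h1
  hr := hr
  hr' := hr'.trans h.hr'
  hC := h.hC.trans_le hC
  lo t ht y hy w hw :=
    (mul_le_mul_of_nonneg_right h0' (norm_nonneg w)).trans (h.lo t ht y hy w hw)
  hs t ht y hy a b := by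
    refine (h.hs t ht y hy a b).trans ?_
    gcongr
  inj t ht y y' hy hy' hyy :=
    (mul_le_mul_of_nonneg_right h1' (norm_nonneg _)).trans
      (h.inj t ht y y' hy hy' (hyy.trans (by linarith)))
  tay t ht y y' hy hy' hyy := by
    refine (h.tay t ht y y' hy hy' (hyy.trans (by linarith))).trans ?_
    gcongr
  lip t ht y y' hy hy' hyy := by
    refine (h.lip t ht y y' hy hy' (hyy.trans (by linarith))).trans ?_
    gcongr

/-- the segment between two near points of the sphere stays away from `0` -/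
theorem Un_seg {y y' z : V} (hy : ‖y‖ = 1) (hy' : ‖y'‖ = 1) (hyy : ‖y - y'‖ ≤ 1 / 2)
    (hz : z ∈ segment ℝ y y') : 1 / 2 ≤ ‖z‖ ∧ ‖z‖ ≤ 2 ∧ ‖z - y‖ ≤ ‖y' - y‖ := by
  obtain ⟨a, b, ha, hb, hab, rfl⟩ := hz
  have h1 : a • y + b • y' - y = b • (y' - y) := by
    have : a = 1 - b := by linarith
    rw [this, sub_smul, one_smul, smul_sub]
    abel
  have h2 : ‖a • y + b • y' - y‖ ≤ ‖y' - y‖ := by
    rw [h1, norm_smul, Real.norm_of_nonneg hb]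
    have hb1 : b ≤ 1 := by linarith
    calc b * ‖y' - y‖ ≤ 1 * ‖y' - y‖ := by gcongr
      _ = ‖y' - y‖ := one_mul _
  have h3 : ‖y' - y‖ ≤ 1 / 2 := by rwa [norm_sub_rev]
  have h4 : ‖y‖ - ‖a • y + b • y' - y‖ ≤ ‖a • y + b • y'‖ := by
    have h5 := norm_sub_norm_le y (y - (a • y + b • y'))
    rw [sub_sub_cancel, norm_sub_rev y] at h5
    exact h5
  refine ⟨by linarith, ?_, h2⟩
  calc ‖a • y + b • y'‖ ≤ ‖a • y‖ + ‖b • y'‖ := norm_add_le _ _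
    _ = a + b := by rw [norm_smul, norm_smul, hy, hy', Real.norm_of_nonneg ha,
        Real.norm_of_nonneg hb, mul_one, mul_one]
    _ ≤ 2 := by linarith

end

variable {V W : Type*} [NormedAddCommGroup V] [InnerProductSpace ℝ V] [FiniteDimensional ℝ V]
  [NormedAddCommGroup W] [InnerProductSpace ℝ W]

omit [FiniteDimensional ℝ V] in
theorem hom_d {n : ℕ} {T : ℝ} {G : ℝ → V → W} (h : Flow n T G) {t : ℝ} (ht : t ∈ Ico 0 T) {y : V}
    (hy : y ≠ 0) : d (G t) y y = 0 := by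
  have h1 : HasFDerivAt (G t) (fderiv ℝ (G t) y) ((1 : ℝ) • y) := by
    rw [one_smul]
    exact (Un_diff h ht hy).hasFDerivAt
  have h2 : HasDerivAt (fun r : ℝ => r • y) y 1 := by
    simpa using (hasDerivAt_id (1 : ℝ)).smul_const y
  have h3 : HasDerivAt (fun r : ℝ => G t (r • y)) (fderiv ℝ (G t) y y) 1 :=
    h1.comp_hasDerivAt 1 h2
  have h4 : (fun r : ℝ => G t (r • y)) =ᶠ[𝓝 1] fun _ => G t y := by
    filter_upwards [lt_mem_nhds (zero_lt_one (α := ℝ))] with r hr using h.hom t ht r hr y hy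
  have h5 : HasDerivAt (fun r : ℝ => G t (r • y)) (0 : W) 1 :=
    (hasDerivAt_const (1 : ℝ) (G t y)).congr_of_eventuallyEq h4
  exact h3.unique h5

theorem Un_lo {n : ℕ} {T T₁ : ℝ} {G : ℝ → V → W} (h : Flow n T G) (hT₁ : T₁ < T) :
    ∃ c₀ : ℝ, 0 < c₀ ∧ ∀ t ∈ Icc 0 T₁, ∀ y : V, ‖y‖ = 1 → ∀ w : V, ⟪y, w⟫_ℝ = 0 →
      c₀ * ‖w‖ ≤ ‖d (G t) y w‖ := by
  have hsub : ∀ t ∈ Icc 0 T₁, t ∈ Ico 0 T := fun t ht => ⟨ht.1, ht.2.trans_lt hT₁⟩
  let Q : Set (V × V) := {q | ‖q.1‖ = 1 ∧ ‖q.2‖ = 1 ∧ ⟪q.1, q.2⟫_ℝ = 0}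
  have hQc : IsCompact Q := by
    refine IsCompact.of_isClosed_subset
      ((isCompact_closedBall (0 : V) 1).prod (isCompact_closedBall (0 : V) 1)) ?_ ?_
    · refine ((isClosed_eq (continuous_fst.norm) continuous_const).inter ?_)
      exact (isClosed_eq (continuous_snd.norm) continuous_const).inter
        (isClosed_eq (continuous_fst.inner continuous_snd) continuous_const)
    · rintro ⟨a, b⟩ ⟨h1, h2, -⟩
      exact ⟨by simpa using h1.le, by simpa using h2.le⟩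
  have hSc : IsCompact (Icc (0 : ℝ) T₁ ×ˢ Q) := isCompact_Icc.prod hQc
  have hcont : ContinuousOn (fun p : ℝ × (V × V) => ‖fderiv ℝ (G p.1) p.2.1 p.2.2‖)
      (Icc (0 : ℝ) T₁ ×ˢ Q) := by
    have h1 : ContinuousOn (fun p : ℝ × (V × V) => fderiv ℝ (G p.1) p.2.1)
        (Icc (0 : ℝ) T₁ ×ˢ Q) := by
      refine ContinuousOn.comp (g := fun p : ℝ × V => fderiv ℝ (G p.1) p.2)
        (f := fun p : ℝ × (V × V) => (p.1, p.2.1)) h.k1 (by fun_prop) ?_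
      rintro ⟨t, a, b⟩ ⟨ht, h1, h2, h3⟩
      refine ⟨hsub t ht, ?_⟩
      intro h4
      have h5 : a = 0 := h4
      have h6 : ‖a‖ = 1 := h1
      rw [h5, norm_zero] at h6
      exact zero_ne_one h6
    exact (h1.clm_apply (by fun_prop)).norm
  by_cases hne : (Icc (0 : ℝ) T₁ ×ˢ Q).Nonempty
  · obtain ⟨⟨t0, y0, w0⟩, hmem, hmin⟩ := hSc.exists_isMinOn hne hcont
    obtain ⟨ht0, hy0, hw0, hyw0⟩ := hmem
    have hpos : 0 < ‖fderiv ℝ (G t0) y0 w0‖ := by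
      rw [norm_pos_iff]
      intro h0
      have h1 : w0 = 0 := h.imm t0 (hsub t0 ht0) y0 hy0 w0 hyw0 h0
      have h2 : ‖w0‖ = 1 := hw0
      rw [h1, norm_zero] at h2
      exact zero_ne_one h2
    refine ⟨_, hpos, ?_⟩
    intro t ht y hy w hw
    by_cases hw0' : w = 0
    · rw [hw0', norm_zero, mul_zero]
      exact norm_nonneg _
    have hwn : 0 < ‖w‖ := norm_pos_iff.2 hw0'
    have h1 : (t, y, ‖w‖⁻¹ • w) ∈ Icc (0 : ℝ) T₁ ×ˢ Q := by
      refine ⟨ht, hy, ?_, ?_⟩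
      · show ‖‖w‖⁻¹ • w‖ = 1
        rw [norm_smul, norm_inv, norm_norm, inv_mul_cancel₀ hwn.ne']
      · show ⟪y, ‖w‖⁻¹ • w⟫_ℝ = 0
        rw [inner_smul_right, hw, mul_zero]
    have h2 : ‖fderiv ℝ (G t0) y0 w0‖ ≤ ‖fderiv ℝ (G t) y (‖w‖⁻¹ • w)‖ := hmin h1
    rw [map_smul, norm_smul, norm_inv, norm_norm] at h2
    have h3 : ‖fderiv ℝ (G t0) y0 w0‖ * ‖w‖ ≤ (‖w‖⁻¹ * ‖fderiv ℝ (G t) y w‖) * ‖w‖ := by
      gcongr
    have h4 : (‖w‖⁻¹ * ‖fderiv ℝ (G t) y w‖) * ‖w‖ = ‖fderiv ℝ (G t) y w‖ := by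
      field_simp
    rw [h4] at h3
    exact h3
  · refine ⟨1, one_pos, ?_⟩
    intro t ht y hy w hw
    by_cases hw0' : w = 0
    · rw [hw0', norm_zero, mul_zero]
      exact norm_nonneg _
    exfalso
    apply hne
    have hwn : 0 < ‖w‖ := norm_pos_iff.2 hw0'
    refine ⟨(t, y, ‖w‖⁻¹ • w), ht, hy, ?_, ?_⟩
    · show ‖‖w‖⁻¹ • w‖ = 1
      rw [norm_smul, norm_inv, norm_norm, inv_mul_cancel₀ hwn.ne']
    · show ⟪y, ‖w‖⁻¹ • w⟫_ℝ = 0
      rw [inner_smul_right, hw, mul_zero]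

theorem unif {n : ℕ} {T T₁ : ℝ} {G : ℝ → V → W} (h : Flow n T G) (hT₀ : 0 ≤ T₁) (hT₁ : T₁ < T) :
    ∃ c₀ c₁ r C : ℝ, Cst T₁ G c₀ c₁ r C := by
  have hsub : ∀ t ∈ Icc 0 T₁, t ∈ Ico 0 T := fun t ht => ⟨ht.1, ht.2.trans_lt hT₁⟩
  obtain ⟨c₀, hc₀, hlo⟩ := Un_lo h hT₁
  let K : Set V := {y | 1 / 2 ≤ ‖y‖ ∧ ‖y‖ ≤ 2}
  have hKc : IsCompact K := by
    refine IsCompact.of_isClosed_subset (isCompact_closedBall (0 : V) 2) ?_ ?_
    · exact (isClosed_le continuous_const continuous_norm).inter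
        (isClosed_le continuous_norm continuous_const)
    · rintro a ⟨-, h2⟩
      simpa using h2
  have hK0 : ∀ y ∈ K, y ≠ 0 := by
    rintro y ⟨h1, -⟩ rfl
    rw [norm_zero] at h1
    linarith
  have hSc : IsCompact (Icc (0 : ℝ) T₁ ×ˢ K) := isCompact_Icc.prod hKc
  have hSsub : Icc (0 : ℝ) T₁ ×ˢ K ⊆ Ico 0 T ×ˢ {0}ᶜ := by
    rintro ⟨t, y⟩ ⟨ht, hy⟩
    exact ⟨hsub t ht, hK0 y hy⟩
  obtain ⟨C₁, hC₁⟩ := hSc.exists_bound_of_continuousOn (h.k1.mono hSsub)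
  have hk2 : ContinuousOn (fun p : ℝ × V => ‖fderiv ℝ (fderiv ℝ (G p.1)) p.2‖)
      (Icc (0 : ℝ) T₁ ×ˢ K) :=
    (continuous_norm (E := V →L[ℝ] V →L[ℝ] W)).comp_continuousOn (h.k2.mono hSsub)
  obtain ⟨C₂, hC₂⟩ := hSc.exists_bound_of_continuousOn hk2
  set C : ℝ := |C₁| + |C₂| + 1 with hCdef
  have hCpos : 0 < C := by positivity
  have hb1 : ∀ t ∈ Icc 0 T₁, ∀ z ∈ K, ‖fderiv ℝ (G t) z‖ ≤ C := by
    intro t ht z hz
    have h1 := hC₁ (t, z) ⟨ht, hz⟩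
    have h2 := le_abs_self C₁
    have h3 := abs_nonneg C₂
    have h4 : ‖fderiv ℝ (G t) z‖ ≤ C₁ := h1
    linarith
  have hb2 : ∀ t ∈ Icc 0 T₁, ∀ z ∈ K, ‖fderiv ℝ (fderiv ℝ (G t)) z‖ ≤ C := by
    intro t ht z hz
    have h1 := hC₂ (t, z) ⟨ht, hz⟩
    have h2 := le_abs_self C₂
    have h3 := abs_nonneg C₁
    have h4 : ‖fderiv ℝ (fderiv ℝ (G t)) z‖ ≤ C₂ := by
      exact (Real.le_norm_self _).trans h1
    linarith
  have h1K : ∀ y : V, ‖y‖ = 1 → y ∈ K := by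
    intro y hy
    refine ⟨?_, ?_⟩
    · rw [hy]
      norm_num
    · rw [hy]
      norm_num
  -- the radius
  set r : ℝ := min (1 / 4) (c₀ / (8 * C)) with hrdef
  have hr : 0 < r := lt_min (by norm_num) (by positivity)
  have hr4 : r ≤ 1 / 4 := min_le_left _ _
  have hrC : r * (8 * C) ≤ c₀ := by
    have h1 : r ≤ c₀ / (8 * C) := min_le_right _ _
    rwa [le_div_iff₀ (by positivity)] at h1
  have htay : ∀ t ∈ Icc 0 T₁, ∀ y y' : V, ‖y‖ = 1 → ‖y'‖ = 1 → ‖y - y'‖ ≤ 2 * r →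
      ‖G t y' - G t y - d (G t) y (y' - y)‖ ≤ C * ‖y' - y‖ ^ 2 := by
    intro t ht y y' hy hy' hyy
    have hyy2 : ‖y - y'‖ ≤ 1 / 2 := by linarith
    have hseg := fun z hz => Un_seg (z := z) hy hy' hyy2 hz
    have hzK : ∀ z ∈ segment ℝ y y', z ∈ K := fun z hz => ⟨(hseg z hz).1, (hseg z hz).2.1⟩
    have h2 : ∀ z ∈ segment ℝ y y', ‖fderiv ℝ (G t) z - fderiv ℝ (G t) y‖ ≤ C * ‖y' - y‖ := by
      intro z hz
      have h3 : ‖fderiv ℝ (G t) z - fderiv ℝ (G t) y‖ ≤ C * ‖z - y‖ :=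
        Convex.norm_image_sub_le_of_norm_fderiv_le (s := segment ℝ y y')
          (fun w hw => Un_diff2 h (hsub t ht) (hK0 w (hzK w hw)))
          (fun w hw => hb2 t ht w (hzK w hw)) (convex_segment y y')
          (left_mem_segment ℝ y y') hz
      exact h3.trans (mul_le_mul_of_nonneg_left (hseg z hz).2.2 hCpos.le)
    have h4 : ‖G t y' - G t y - fderiv ℝ (G t) y (y' - y)‖ ≤ (C * ‖y' - y‖) * ‖y' - y‖ :=
      Convex.norm_image_sub_le_of_norm_fderiv_le' (s := segment ℝ y y')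
        (fun w hw => Un_diff h (hsub t ht) (hK0 w (hzK w hw))) h2 (convex_segment y y')
        (left_mem_segment ℝ y y') (right_mem_segment ℝ y y')
    calc ‖G t y' - G t y - d (G t) y (y' - y)‖ ≤ (C * ‖y' - y‖) * ‖y' - y‖ := h4
      _ = C * ‖y' - y‖ ^ 2 := by ring
  refine ⟨c₀, c₀ / 4, r, C, ⟨hc₀, by positivity, hr, hr4, hCpos, hlo, ?_, ?_, htay, ?_⟩⟩
  · intro t ht y hy a b
    have h1 : ‖fderiv ℝ (fderiv ℝ (G t)) y a b‖ ≤ ‖fderiv ℝ (fderiv ℝ (G t)) y‖ * ‖a‖ * ‖b‖ :=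
      ContinuousLinearMap.le_opNorm₂ _ _ _
    refine h1.trans ?_
    have h2 := hb2 t ht y (h1K y hy)
    gcongr
  · intro t ht y y' hy hy' hyy
    have hy0 : y ≠ 0 := hK0 y (h1K y hy)
    set s : ℝ := ‖y' - y‖ with hs
    have hs' : ‖y - y'‖ = s := norm_sub_rev y y'
    have hs0 : 0 ≤ s := norm_nonneg _
    have hs2 : s ≤ 1 / 2 := by
      rw [hs'] at hyy
      linarith
    -- the inner product
    have hin : ⟪y, y' - y⟫_ℝ = - (s ^ 2 / 2) := by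
      have h1 : s ^ 2 = ‖y'‖ ^ 2 - 2 * ⟪y', y⟫_ℝ + ‖y‖ ^ 2 := by
        rw [hs]
        exact norm_sub_sq_real y' y
      rw [inner_sub_right, real_inner_self_eq_norm_sq, hy, real_inner_comm]
      rw [hy, hy'] at h1
      linarith
    set z : V := (y' - y) - ⟪y, y' - y⟫_ℝ • y with hz
    have hyz : ⟪y, z⟫_ℝ = 0 := by
      rw [hz, inner_sub_right, inner_smul_right, real_inner_self_eq_norm_sq, hy]
      ring
    have hdz : d (G t) y (y' - y) = d (G t) y z := by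
      have h1 := hom_d h (hsub t ht) hy0
      unfold d at h1 ⊢
      rw [hz, map_sub (fderiv ℝ (G t) y) (y' - y) (⟪y, y' - y⟫_ℝ • y), map_smul, h1, smul_zero,
        sub_zero]
    have hzn : s / 2 ≤ ‖z‖ := by
      have h1 : ‖y' - y‖ - ‖⟪y, y' - y⟫_ℝ • y‖ ≤ ‖z‖ := norm_sub_norm_le _ _
      have h2 : ‖⟪y, y' - y⟫_ℝ • y‖ = s ^ 2 / 2 := by
        rw [norm_smul, hy, mul_one, hin, norm_neg, Real.norm_of_nonneg (by positivity)]
      rw [h2] at h1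
      nlinarith
    have h1 := hlo t ht y hy z hyz
    rw [← hdz] at h1
    have h2 := htay t ht y y' hy hy' hyy
    rw [← hs] at h2
    have h3 : ‖d (G t) y (y' - y)‖ - ‖G t y' - G t y - d (G t) y (y' - y)‖ ≤
        ‖G t y' - G t y‖ := by
      have h4 := norm_sub_norm_le (d (G t) y (y' - y))
        (-(G t y' - G t y - d (G t) y (y' - y)))
      rw [norm_neg, sub_neg_eq_add, add_sub_cancel] at h4
      exact h4
    have h5 : c₀ * (s / 2) ≤ c₀ * ‖z‖ := mul_le_mul_of_nonneg_left hzn hc₀.le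
    have h6 : C * s ^ 2 ≤ c₀ / 4 * s := by
      have h7 : s ≤ 2 * r := by rwa [hs'] at hyy
      have h8 : C * s ≤ c₀ / 4 := by
        have h9 : C * s ≤ C * (2 * r) := mul_le_mul_of_nonneg_left h7 hCpos.le
        nlinarith
      calc C * s ^ 2 = (C * s) * s := by ring
        _ ≤ c₀ / 4 * s := mul_le_mul_of_nonneg_right h8 hs0
    rw [hs', norm_sub_rev (G t y)]
    linarith
  · intro t ht y y' hy hy' hyy
    have hyy2 : ‖y - y'‖ ≤ 1 / 2 := by linarith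
    have hzK : ∀ z ∈ segment ℝ y y', z ∈ K := fun z hz =>
      ⟨(Un_seg hy hy' hyy2 hz).1, (Un_seg hy hy' hyy2 hz).2.1⟩
    exact Convex.norm_image_sub_le_of_norm_fderiv_le (s := segment ℝ y y')
      (fun w hw => Un_diff h (hsub t ht) (hK0 w (hzK w hw)))
      (fun w hw => hb1 t ht w (hzK w hw)) (convex_segment y y')
      (right_mem_segment ℝ y y') (left_mem_segment ℝ y y')

theorem unif2 {n : ℕ} {T T₁ : ℝ} {G G' : ℝ → V → W} (h : Flow n T G) (h' : Flow n T G')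
    (hT₀ : 0 ≤ T₁) (hT₁ : T₁ < T) : ∃ c₀ c₁ r C : ℝ, Cst T₁ G c₀ c₁ r C ∧ Cst T₁ G' c₀ c₁ r C := by
  obtain ⟨c₀, c₁, r, C, hc⟩ := unif h hT₀ hT₁
  obtain ⟨c₀', c₁', r', C', hc'⟩ := unif h' hT₀ hT₁
  refine ⟨min c₀ c₀', min c₁ c₁', min r r', max C C', ?_, ?_⟩
  · exact Un_mono hc (lt_min hc.hc₀ hc'.hc₀) (min_le_left _ _) (lt_min hc.hc₁ hc'.hc₁)
      (min_le_left _ _) (lt_min hc.hr hc'.hr) (min_le_left _ _) (le_max_left _ _)
  · exact Un_mono hc' (lt_min hc.hc₀ hc'.hc₀) (min_le_right _ _) (lt_min hc.hc₁ hc'.hc₁)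
      (min_le_right _ _) (lt_min hc.hr hc'.hr) (min_le_right _ _) (le_max_right _ _)

end Pool.Agent.H.MP_4ac55f_gt.RP
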