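import Pool.Agent.H.MP_4ac55f_gt.RP.Fr
import Pool.Agent.H.MP_4ac55f_gt.RP.Un

/-!
# Continuity of the mean curvature vector  (module Hc)

`mcv = ∑ i, (b i - ∑ j, ⟪d (G t) x (e j), b i⟫ • d (G t) x (e j))`, `b i = d2 (G t) x (e i) (e i)`, is a continuous function of `(t, x, e)` (`k1`, `k2`). Every subsequence has a further
subsequence along which the frames `ek k` converge (they are bounded: `‖e i‖ ≤ 1 / c₀` by `unif` on `[0, T₁]`, `t < T₁ < T`, `tk k ≤ T₁` for large `k`), the limit is a frame of `G t` at `x`, and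
`mcv_frame`. (`tendsto_of_subseq_tendsto`.)
-/

set_option autoImplicit false
set_option linter.unusedSectionVars false

open scoped InnerProductSpace ContDiff Topology
open Set Metric Filter

namespace Pool.Agent.H.MP_4ac55f_gt.RP

variable {V W : Type*} [NormedAddCommGroup V] [InnerProductSpace ℝ V] [FiniteDimensional ℝ V]
  [NormedAddCommGroup W] [InnerProductSpace ℝ W]

/-- evaluation of continuous linear maps is continuous -/
theorem Hc_app {E F : Type*} [NormedAddCommGroup E] [NormedSpace ℝ E] [NormedAddCommGroup F]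
    [NormedSpace ℝ F] {f : ℕ → E →L[ℝ] F} {f₀ : E →L[ℝ] F} {w : ℕ → E} {w₀ : E}
    (h1 : Tendsto f atTop (𝓝 f₀)) (h2 : Tendsto w atTop (𝓝 w₀)) :
    Tendsto (fun k => f k (w k)) atTop (𝓝 (f₀ w₀)) :=
  (isBoundedBilinearMap_apply.continuous.tendsto (f₀, w₀)).comp (h1.prodMk_nhds h2)

/-- the point `(t, x)` is approached within the domain -/
theorem Hc_within {T t : ℝ} {x : V} {tk : ℕ → ℝ} {xk : ℕ → V}
    (htk : ∀ k, tk k ∈ Ico 0 T) (hxk1 : ∀ k, ‖xk k‖ = 1)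
    (htt : Tendsto tk atTop (𝓝 t)) (hxk : Tendsto xk atTop (𝓝 x)) :
    Tendsto (fun k => (tk k, xk k)) atTop (𝓝[Ico 0 T ×ˢ {0}ᶜ] (t, x)) := by
  refine tendsto_nhdsWithin_of_tendsto_nhds_of_eventually_within _ (htt.prodMk_nhds hxk)
    (Eventually.of_forall fun k => ⟨htk k, ?_⟩)
  have h1 : xk k ≠ 0 := by
    rw [← norm_ne_zero_iff, hxk1 k]
    exact one_ne_zero
  exact h1

/-- the differentials converge -/
theorem Hc_d {n : ℕ} {T : ℝ} {G : ℝ → V → W} (h : Flow n T G) {t : ℝ} (ht : t ∈ Ico 0 T) {x : V}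
    (hx : ‖x‖ = 1) {tk : ℕ → ℝ} {xk : ℕ → V} {wk : ℕ → V} {w : V}
    (htk : ∀ k, tk k ∈ Ico 0 T) (hxk1 : ∀ k, ‖xk k‖ = 1)
    (htt : Tendsto tk atTop (𝓝 t)) (hxk : Tendsto xk atTop (𝓝 x)) (hw : Tendsto wk atTop (𝓝 w)) :
    Tendsto (fun k => d (G (tk k)) (xk k) (wk k)) atTop (𝓝 (d (G t) x w)) := by
  have hx0 : x ≠ 0 := by
    rw [← norm_ne_zero_iff, hx]
    exact one_ne_zero
  have h1 : Tendsto (fun k => fderiv ℝ (G (tk k)) (xk k)) atTop (𝓝 (fderiv ℝ (G t) x)) :=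
    (h.k1 (t, x) ⟨ht, hx0⟩).tendsto.comp (Hc_within htk hxk1 htt hxk)
  exact Hc_app h1 hw

/-- the second derivatives converge -/
theorem Hc_d2 {n : ℕ} {T : ℝ} {G : ℝ → V → W} (h : Flow n T G) {t : ℝ} (ht : t ∈ Ico 0 T) {x : V}
    (hx : ‖x‖ = 1) {tk : ℕ → ℝ} {xk : ℕ → V} {wk : ℕ → V} {w : V}
    (htk : ∀ k, tk k ∈ Ico 0 T) (hxk1 : ∀ k, ‖xk k‖ = 1)
    (htt : Tendsto tk atTop (𝓝 t)) (hxk : Tendsto xk atTop (𝓝 x)) (hw : Tendsto wk atTop (𝓝 w)) :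
    Tendsto (fun k => d2 (G (tk k)) (xk k) (wk k) (wk k)) atTop (𝓝 (d2 (G t) x w w)) := by
  have hx0 : x ≠ 0 := by
    rw [← norm_ne_zero_iff, hx]
    exact one_ne_zero
  have h1 : Tendsto (fun k => fderiv ℝ (fderiv ℝ (G (tk k))) (xk k)) atTop
      (𝓝 (fderiv ℝ (fderiv ℝ (G t)) x)) :=
    (h.k2 (t, x) ⟨ht, hx0⟩).tendsto.comp (Hc_within htk hxk1 htt hxk)
  exact Hc_app (Hc_app h1 hw) hw

/-- the mean curvature vectors converge if the frames converge -/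
theorem Hc_mcv {n : ℕ} {T : ℝ} {G : ℝ → V → W} (h : Flow n T G) {t : ℝ} (ht : t ∈ Ico 0 T) {x : V}
    (hx : ‖x‖ = 1) {tk : ℕ → ℝ} {xk : ℕ → V} {ek : ℕ → Fin n → V} {e : Fin n → V}
    (htk : ∀ k, tk k ∈ Ico 0 T) (hxk1 : ∀ k, ‖xk k‖ = 1)
    (htt : Tendsto tk atTop (𝓝 t)) (hxk : Tendsto xk atTop (𝓝 x))
    (hek : Tendsto ek atTop (𝓝 e)) :
    Tendsto (fun k => mcv (G (tk k)) (xk k) (ek k)) atTop (𝓝 (mcv (G t) x e)) := by
  have he : ∀ i, Tendsto (fun k => ek k i) atTop (𝓝 (e i)) := fun i => (tendsto_pi_nhds.1 hek) i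
  unfold mcv sff nor
  refine tendsto_finsetSum _ fun i _ => ?_
  have hb := Hc_d2 h ht hx htk hxk1 htt hxk (he i)
  refine hb.sub (tendsto_finsetSum _ fun j _ => ?_)
  have hd := Hc_d h ht hx htk hxk1 htt hxk (he j)
  exact (hd.inner hb).smul hd

/-- the limit of frames is a frame -/
theorem Hc_frame {n : ℕ} {T : ℝ} {G : ℝ → V → W} (h : Flow n T G) {t : ℝ} (ht : t ∈ Ico 0 T) {x : V}
    (hx : ‖x‖ = 1) {tk : ℕ → ℝ} {xk : ℕ → V} {ek : ℕ → Fin n → V} {e : Fin n → V}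
    (htk : ∀ k, tk k ∈ Ico 0 T) (hxk1 : ∀ k, ‖xk k‖ = 1) (hfr : ∀ k, IsFrame (G (tk k)) (xk k) (ek k))
    (htt : Tendsto tk atTop (𝓝 t)) (hxk : Tendsto xk atTop (𝓝 x))
    (hek : Tendsto ek atTop (𝓝 e)) : IsFrame (G t) x e := by
  have he : ∀ i, Tendsto (fun k => ek k i) atTop (𝓝 (e i)) := fun i => (tendsto_pi_nhds.1 hek) i
  refine ⟨fun i => ?_, fun i j => ?_⟩
  · have h1 : Tendsto (fun k => ⟪xk k, ek k i⟫_ℝ) atTop (𝓝 ⟪x, e i⟫_ℝ) := hxk.inner (he i)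
    have h2 : (fun k => ⟪xk k, ek k i⟫_ℝ) = fun _ => (0 : ℝ) := funext fun k => (hfr k).1 i
    rw [h2] at h1
    exact (tendsto_nhds_unique h1 tendsto_const_nhds)
  · have h1 := (Hc_d h ht hx htk hxk1 htt hxk (he i)).inner (𝕜 := ℝ)
      (Hc_d h ht hx htk hxk1 htt hxk (he j))
    have h2 : (fun k => ⟪d (G (tk k)) (xk k) (ek k i), d (G (tk k)) (xk k) (ek k j)⟫_ℝ) =
        fun _ => if i = j then (1 : ℝ) else 0 := funext fun k => (hfr k).2 i j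
    rw [h2] at h1
    exact (tendsto_nhds_unique h1 tendsto_const_nhds)

theorem mcv_tendsto {n : ℕ} (hV : Module.finrank ℝ V = n + 1) {T : ℝ} {G : ℝ → V → W}
    (h : Flow n T G) {t : ℝ} (ht : t ∈ Ico 0 T) {x : V} (hx : ‖x‖ = 1) {e : Fin n → V}
    (he : IsFrame (G t) x e) {tk : ℕ → ℝ} {xk : ℕ → V} {ek : ℕ → Fin n → V}
    (htk : ∀ k, tk k ∈ Ico 0 T) (hxk1 : ∀ k, ‖xk k‖ = 1) (hek : ∀ k, IsFrame (G (tk k)) (xk k) (ek k))
    (htt : Tendsto tk atTop (𝓝 t)) (hxk : Tendsto xk atTop (𝓝 x)) :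
    Tendsto (fun k => mcv (G (tk k)) (xk k) (ek k)) atTop (𝓝 (mcv (G t) x e)) := by
  obtain ⟨T₁, h1, h2⟩ := exists_between ht.2
  obtain ⟨c₀, c₁, r, C, hc⟩ := unif h (ht.1.trans h1.le) h2
  have hlate : ∀ᶠ k in atTop, tk k ≤ T₁ := (htt.eventually (gt_mem_nhds h1)).mono fun k hk => hk.le
  have hbd : ∀ᶠ k in atTop, ek k ∈ closedBall (0 : Fin n → V) (1 / c₀) := by
    filter_upwards [hlate] with k hk
    rw [mem_closedBall, dist_zero_right]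
    refine (pi_norm_le_iff_of_nonneg (one_div_pos.2 hc.hc₀).le).2 fun i => ?_
    have h3 := hc.lo (tk k) ⟨(htk k).1, hk⟩ (xk k) (hxk1 k) (ek k i) ((hek k).1 i)
    have h4 := (hek k).2 i i
    rw [if_pos rfl, real_inner_self_eq_norm_sq] at h4
    have h5 : ‖d (G (tk k)) (xk k) (ek k i)‖ = 1 := by
      have h6 := norm_nonneg (d (G (tk k)) (xk k) (ek k i))
      nlinarith
    rw [h5] at h3
    rw [le_div_iff₀ hc.hc₀, mul_comm]
    exact h3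
  refine tendsto_of_subseq_tendsto fun ns hns => ?_
  have hbd' : ∀ᶠ k in atTop, ek (ns k) ∈ closedBall (0 : Fin n → V) (1 / c₀) := hns.eventually hbd
  obtain ⟨e', -, φ, hφ, hlim⟩ := (isCompact_closedBall (0 : Fin n → V) (1 / c₀)).tendsto_subseq'
    hbd'.frequently
  refine ⟨φ, ?_⟩
  have hsub : Tendsto (fun k => ns (φ k)) atTop atTop := hns.comp hφ.tendsto_atTop
  have htt' : Tendsto (fun k => tk (ns (φ k))) atTop (𝓝 t) := htt.comp hsub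
  have hxk' : Tendsto (fun k => xk (ns (φ k))) atTop (𝓝 x) := hxk.comp hsub
  have hlim' : Tendsto (fun k => ek (ns (φ k))) atTop (𝓝 e') := hlim
  have hfr := Hc_frame h ht hx (fun k => htk (ns (φ k))) (fun k => hxk1 (ns (φ k)))
    (fun k => hek (ns (φ k))) htt' hxk' hlim'
  rw [mcv_frame hV (h.imm t ht) hx he hfr]
  exact Hc_mcv h ht hx (fun k => htk (ns (φ k))) (fun k => hxk1 (ns (φ k))) htt' hxk' hlim'

end Pool.Agent.H.MP_4ac55f_gt.RP
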