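import Pool.Agent.H.MP_4ac55f_gt.RP.Ki
import Pool.Agent.H.MP_4ac55f_gt.RP.Hc

/-!
# Hamilton's trick: the minimal distance stays zero  (module Ht)

`u t x = ‖G t x - G' t y‖²` for the unique minimizer `y = y t x` (`min_exists`, `min_unique`); continuous on `[t₀, t₁] × S` (`min_tendsto`; sequences). Suppose `u t' x' > 0`. `Φ t x = exp (-2 L t) u t x - κ (t - t₀)` with
`κ > 0` so small that `Φ t' x' > 0`; let `(t₂, x₂)` be a maximum of `Φ` on `[t₀, t'] × S`; `u t₀ = 0`, so `t₂ > t₀`, and `(x₂, y₂)`, `y₂ = y t₂ x₂`, is a max-min point at `t₂`. For `s k → t₂` from the left and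
`y k = y (s k) x₂ → y₂`: `u t₂ x₂ ≤ ‖G t₂ x₂ - G' t₂ (y k)‖²`, so with `ζ τ = ‖G τ x₂ - G' τ (y k)‖²`: `exp (-2 L t₂) ζ t₂ - exp (-2 L s) ζ s ≥ κ (t₂ - s)`, so by the mean value theorem there is `τ k` between with
`exp (-2 L τ) (2 ⟪G τ x₂ - G' τ (y k), mcv (G τ) x₂ - mcv (G' τ) (y k)⟫ - 2 L ζ τ) ≥ κ` (`Flow.eq` in the interior of `Ico 0 T`). Let `k → ∞` (`mcv_tendsto`, `frame_exists`): contradiction to `key`.
-/

set_option autoImplicit false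

open scoped InnerProductSpace ContDiff Topology
open Set Metric Filter

namespace Pool.Agent.H.MP_4ac55f_gt.RP

variable {V W : Type*} [NormedAddCommGroup V] [InnerProductSpace ℝ V] [FiniteDimensional ℝ V]
  [NormedAddCommGroup W] [InnerProductSpace ℝ W]

omit [FiniteDimensional ℝ V] in
/-- Joint continuity along sequences. -/
theorem Ht_seq {n : ℕ} {T : ℝ} {G : ℝ → V → W} (h : Flow n T G) {t : ℝ} (ht : t ∈ Ico 0 T) {x : V}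
    (hx : ‖x‖ = 1) {tk : ℕ → ℝ} {xk : ℕ → V} (htk : ∀ k, tk k ∈ Ico 0 T) (hxk1 : ∀ k, ‖xk k‖ = 1)
    (htt : Tendsto tk atTop (𝓝 t)) (hxk : Tendsto xk atTop (𝓝 x)) :
    Tendsto (fun k => G (tk k) (xk k)) atTop (𝓝 (G t x)) := by
  have hne : ∀ z : V, ‖z‖ = 1 → z ∈ ({0}ᶜ : Set V) := by
    intro z hz hz0
    rw [mem_singleton_iff] at hz0
    rw [hz0, norm_zero] at hz
    exact zero_ne_one hz
  have h1 : ContinuousWithinAt (fun p : ℝ × V => G p.1 p.2) (Ico 0 T ×ˢ {0}ᶜ) (t, x) :=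
    h.k0 (t, x) ⟨ht, hne x hx⟩
  have h2 : Tendsto (fun k => (tk k, xk k)) atTop (𝓝[Ico 0 T ×ˢ {0}ᶜ] (t, x)) := by
    rw [tendsto_nhdsWithin_iff]
    exact ⟨htt.prodMk_nhds hxk, Eventually.of_forall fun k => ⟨htk k, hne _ (hxk1 k)⟩⟩
  exact h1.tendsto.comp h2

theorem dist_zero {n : ℕ} (hV : Module.finrank ℝ V = n + 1) {T T₁ : ℝ} {G G' : ℝ → V → W}
    (h : Flow n T G) (h' : Flow n T G') (hT₁ : T₁ < T) {c₀ c₁ r C : ℝ}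
    (hc' : Cst T₁ G' c₀ c₁ r C) : ∃ ε : ℝ, 0 < ε ∧ 2 * ε < c₁ * r ∧ 2 * C * ε < c₁ ^ 2 ∧
    ∀ t₀ t₁ : ℝ, 0 ≤ t₀ → t₀ ≤ t₁ → t₁ ≤ T₁ → (∀ x : V, ‖x‖ = 1 → G t₀ x = G' t₀ x) →
    (∀ t ∈ Icc t₀ t₁, ∀ x : V, ‖x‖ = 1 → ‖G t x - G' t x‖ ≤ ε) →
    ∀ t ∈ Icc t₀ t₁, ∀ x : V, ‖x‖ = 1 → ∃ y, IsMin (G' t) (G t x) x r y ∧ G t x = G' t y := by
  obtain ⟨L, ε, hL, hε, hε1, hε2, hkey⟩ := key hV h h' hT₁ hc'
  refine ⟨ε, hε, hε1, hε2, ?_⟩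
  intro t₀ t₁ ht₀ ht₀₁ ht₁ h0 hcl
  have hIco : ∀ t ∈ Icc t₀ t₁, t ∈ Ico 0 T := fun t ht =>
    ⟨ht₀.trans ht.1, (ht.2.trans ht₁).trans_lt hT₁⟩
  have hIcc : ∀ t ∈ Icc t₀ t₁, t ∈ Icc 0 T₁ := fun t ht => ⟨ht₀.trans ht.1, ht.2.trans ht₁⟩
  have hex : ∀ t ∈ Icc t₀ t₁, ∀ x : V, ‖x‖ = 1 → ∃ y, IsMin (G' t) (G t x) x r y :=
    fun t ht x hx => min_exists (T₁ := T₁) h' (hIco t ht) (G t x) hx hc'.hr
  choose! Y hY using hex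
  have huniq : ∀ t ∈ Icc t₀ t₁, ∀ x : V, ‖x‖ = 1 → ∀ y, IsMin (G' t) (G t x) x r y →
      y = Y t x := fun t ht x hx y hy =>
    min_unique h' hT₁ hc' (hIcc t ht) hx (hcl t ht x hx) hε1 hε2 hy (hY t ht x hx)
  have hYc : ∀ t ∈ Icc t₀ t₁, ∀ x : V, ‖x‖ = 1 → ‖Y t x - x‖ < r := by
    intro t ht x hx
    have h1 := min_close hc' (hIcc t ht) hx (hcl t ht x hx) (hY t ht x hx)
    have h2 : c₁ * ‖Y t x - x‖ < c₁ * r := h1.trans_lt hε1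
    exact lt_of_mul_lt_mul_left h2 hc'.hc₁.le
  have hseq : ∀ t ∈ Icc t₀ t₁, ∀ x : V, ‖x‖ = 1 → ∀ (tk : ℕ → ℝ) (xk : ℕ → V),
      (∀ k, tk k ∈ Icc t₀ t₁) → (∀ k, ‖xk k‖ = 1) → Tendsto tk atTop (𝓝 t) →
      Tendsto xk atTop (𝓝 x) → Tendsto (fun k => Y (tk k) (xk k)) atTop (𝓝 (Y t x)) := by
    intro t ht x hx tk xk htk hxk htt hxx
    exact min_tendsto h' (hIco t ht) (hY t ht x hx) (hYc t ht x hx) (huniq t ht x hx)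
      (fun k => hIco _ (htk k)) htt
      (Ht_seq h (hIco t ht) hx (fun k => hIco _ (htk k)) hxk htt hxx) hxx
      (fun k => hY _ (htk k) _ (hxk k))
  -- the function `u`
  obtain ⟨u, hu⟩ : ∃ u : ℝ → V → ℝ, u = fun t x => ‖G t x - G' t (Y t x)‖ ^ 2 := ⟨_, rfl⟩
  have hu0 : ∀ t x, 0 ≤ u t x := by
    intro t x
    rw [hu]
    positivity
  have huseq : ∀ t ∈ Icc t₀ t₁, ∀ x : V, ‖x‖ = 1 → ∀ (tk : ℕ → ℝ) (xk : ℕ → V),
      (∀ k, tk k ∈ Icc t₀ t₁) → (∀ k, ‖xk k‖ = 1) → Tendsto tk atTop (𝓝 t) →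
      Tendsto xk atTop (𝓝 x) → Tendsto (fun k => u (tk k) (xk k)) atTop (𝓝 (u t x)) := by
    intro t ht x hx tk xk htk hxk htt hxx
    have h1 := Ht_seq h (hIco t ht) hx (fun k => hIco _ (htk k)) hxk htt hxx
    have h2 := Ht_seq h' (hIco t ht) (hY t ht x hx).1 (fun k => hIco _ (htk k))
      (fun k => (hY _ (htk k) _ (hxk k)).1) htt (hseq t ht x hx tk xk htk hxk htt hxx)
    rw [hu]
    exact ((h1.sub h2).norm).pow 2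
  -- it is enough that `u` vanishes
  suffices hz : ∀ t ∈ Icc t₀ t₁, ∀ x : V, ‖x‖ = 1 → u t x ≤ 0 by
    intro t ht x hx
    refine ⟨Y t x, hY t ht x hx, ?_⟩
    have h1 : u t x = 0 := le_antisymm (hz t ht x hx) (hu0 t x)
    rw [hu] at h1
    have h2 : ‖G t x - G' t (Y t x)‖ = 0 := by
      simpa using h1
    exact sub_eq_zero.1 (norm_eq_zero.1 h2)
  intro t' ht' x' hx'
  by_contra hcon
  rw [not_le] at hcon
  obtain ⟨A, hA⟩ : ∃ A, A = Real.exp (-(2 * L) * t') * u t' x' := ⟨_, rfl⟩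
  have hA0 : 0 < A := by
    rw [hA]
    positivity
  have htt0 : 0 ≤ t' - t₀ := by linarith [ht'.1]
  obtain ⟨κ, hκ⟩ : ∃ κ, κ = A / (2 * (t' - t₀ + 1)) := ⟨_, rfl⟩
  have hκ0 : 0 < κ := by
    rw [hκ]
    positivity
  have hκ1 : κ * (t' - t₀) < A := by
    rw [hκ, div_mul_eq_mul_div, div_lt_iff₀ (by positivity)]
    nlinarith
  obtain ⟨Φ, hΦ⟩ : ∃ Φ : ℝ × V → ℝ, Φ = fun p => Real.exp (-(2 * L) * p.1) * u p.1 p.2 -
    κ * (p.1 - t₀) := ⟨_, rfl⟩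
  have hsub : Icc t₀ t' ⊆ Icc t₀ t₁ := Icc_subset_Icc_right ht'.2
  have hΦc : ContinuousOn Φ (Icc t₀ t' ×ˢ sphere (0 : V) 1) := by
    rintro ⟨t, x⟩ ⟨ht, hx⟩
    rw [mem_sphere_zero_iff_norm] at hx
    have hx1 : ‖x‖ = 1 := hx
    have ht1 : t ∈ Icc t₀ t₁ := hsub ht
    rw [ContinuousWithinAt, tendsto_iff_seq_tendsto]
    intro z hz
    rw [tendsto_nhdsWithin_iff] at hz
    obtain ⟨hz1, hz2⟩ := hz
    obtain ⟨N, hN⟩ := eventually_atTop.1 hz2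
    rw [← tendsto_add_atTop_iff_nat N]
    have hz3 : Tendsto (fun k => z (k + N)) atTop (𝓝 (t, x)) :=
      hz1.comp (tendsto_add_atTop_nat N)
    have ha : Tendsto (fun k => (z (k + N)).1) atTop (𝓝 t) := (continuous_fst.tendsto _).comp hz3
    have hb : Tendsto (fun k => (z (k + N)).2) atTop (𝓝 x) := (continuous_snd.tendsto _).comp hz3
    have hm : ∀ k, z (k + N) ∈ Icc t₀ t' ×ˢ sphere (0 : V) 1 := fun k => hN _ (Nat.le_add_left _ _)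
    have hc := huseq t ht1 x hx1 _ _ (fun k => hsub (hm k).1)
      (fun k => mem_sphere_zero_iff_norm.1 (hm k).2) ha hb
    rw [hΦ]
    show Tendsto (fun k => Real.exp (-(2 * L) * (z (k + N)).1) * u (z (k + N)).1 (z (k + N)).2 -
      κ * ((z (k + N)).1 - t₀)) atTop (𝓝 (Real.exp (-(2 * L) * t) * u t x - κ * (t - t₀)))
    refine Tendsto.sub (Tendsto.mul ?_ hc) ?_
    · exact (Real.continuous_exp.tendsto _).comp (ha.const_mul _)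
    · exact (ha.sub_const _).const_mul _
  obtain ⟨⟨t₂, x₂⟩, ⟨ht₂, hx₂⟩, hmax⟩ := (isCompact_Icc.prod (isCompact_sphere (0 : V) 1)).exists_isMaxOn
    ⟨(t', x'), ⟨right_mem_Icc.2 ht'.1, mem_sphere_zero_iff_norm.2 hx'⟩⟩ hΦc
  rw [mem_sphere_zero_iff_norm] at hx₂
  have hx₂' : ‖x₂‖ = 1 := hx₂
  have ht₂c : t₂ ∈ Icc t₀ t' := ht₂
  have ht₂₁ : t₂ ∈ Icc t₀ t₁ := hsub ht₂c
  have hmx : ∀ t ∈ Icc t₀ t', ∀ x : V, ‖x‖ = 1 → Real.exp (-(2 * L) * t) * u t x - κ * (t - t₀) ≤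
      Real.exp (-(2 * L) * t₂) * u t₂ x₂ - κ * (t₂ - t₀) := by
    intro t ht x hx
    have h1 := hmax (show (t, x) ∈ Icc t₀ t' ×ˢ sphere (0 : V) 1 from
      ⟨ht, mem_sphere_zero_iff_norm.2 hx⟩)
    rw [hΦ] at h1
    exact h1
  have hpos : 0 < Real.exp (-(2 * L) * t₂) * u t₂ x₂ - κ * (t₂ - t₀) := by
    refine lt_of_lt_of_le ?_ (hmx t' (right_mem_Icc.2 ht'.1) x' hx')
    rw [← hA]
    linarith
  have ht₂0 : t₀ < t₂ := by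
    rcases lt_or_eq_of_le ht₂c.1 with h1 | h1
    · exact h1
    · exfalso
      rw [← h1] at hpos
      have h2 : IsMin (G' t₀) (G t₀ x₂) x₂ r x₂ := by
        refine ⟨hx₂', by rw [sub_self, norm_zero]; exact hc'.hr.le, fun y' _ _ => ?_⟩
        rw [h0 x₂ hx₂', sub_self, norm_zero]
        exact norm_nonneg _
      have h3 := huniq t₀ (left_mem_Icc.2 ht₀₁) x₂ hx₂' x₂ h2
      have h4 : u t₀ x₂ = 0 := by
        rw [hu]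
        show ‖G t₀ x₂ - G' t₀ (Y t₀ x₂)‖ ^ 2 = 0
        rw [← h3, h0 x₂ hx₂', sub_self, norm_zero]
        norm_num
      rw [h4] at hpos
      simp at hpos
  obtain ⟨y₂, hy₂⟩ : ∃ y₂, y₂ = Y t₂ x₂ := ⟨_, rfl⟩
  have hmm : MaxMin (G t₂) (G' t₂) r x₂ y₂ := by
    refine ⟨hx₂', hy₂ ▸ hY t₂ ht₂₁ x₂ hx₂', fun x hx y hy => ?_⟩
    have h1 := hmx t₂ ht₂c x hx
    have h2 := huniq t₂ ht₂₁ x hx y hy
    have h3 : u t₂ x ≤ u t₂ x₂ := by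
      have h4 : 0 < Real.exp (-(2 * L) * t₂) := Real.exp_pos _
      have h5 : Real.exp (-(2 * L) * t₂) * u t₂ x ≤ Real.exp (-(2 * L) * t₂) * u t₂ x₂ := by
        linarith
      exact le_of_mul_le_mul_left h5 h4
    rw [hu] at h3
    rw [h2, hy₂]
    exact (sq_le_sq₀ (norm_nonneg _) (norm_nonneg _)).1 h3
  -- frames
  have hfe : ∀ τ ∈ Ico 0 T, ∃ e : Fin n → V, IsFrame (G τ) x₂ e := fun τ hτ =>
    frame_exists hV (h.imm τ hτ) hx₂'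
  choose! e he using hfe
  have hfe' : ∀ τ ∈ Ico 0 T, ∀ y : V, ‖y‖ = 1 → ∃ e : Fin n → V, IsFrame (G' τ) y e :=
    fun τ hτ y hy => frame_exists hV (h'.imm τ hτ) hy
  choose! e' he' using hfe'
  have hy₂1 : ‖y₂‖ = 1 := by
    rw [hy₂]
    exact (hY t₂ ht₂₁ x₂ hx₂').1
  have hk := hkey t₂ (hIcc t₂ ht₂₁) (hcl t₂ ht₂₁) x₂ y₂ hmm (e t₂) (e' t₂ y₂)
    (he t₂ (hIco t₂ ht₂₁)) (he' t₂ (hIco t₂ ht₂₁) y₂ hy₂1)
  -- times before `t₂`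
  obtain ⟨s, hs⟩ : ∃ s : ℕ → ℝ, s = fun k : ℕ => t₂ - (t₂ - t₀) / ((k : ℝ) + 2) := ⟨_, rfl⟩
  have hs1 : ∀ k, t₀ < s k ∧ s k < t₂ := by
    intro k
    have h1 : (0 : ℝ) ≤ k := Nat.cast_nonneg k
    have h2 : 0 < (t₂ - t₀) / ((k : ℝ) + 2) := div_pos (by linarith) (by linarith)
    have h3 : (t₂ - t₀) / ((k : ℝ) + 2) < t₂ - t₀ := by
      rw [div_lt_iff₀ (by linarith)]
      nlinarith
    rw [hs]
    constructor
    · show t₀ < t₂ - (t₂ - t₀) / ((k : ℝ) + 2)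
      linarith
    · show t₂ - (t₂ - t₀) / ((k : ℝ) + 2) < t₂
      linarith
  have hst : Tendsto s atTop (𝓝 t₂) := by
    have h1 : Tendsto (fun k : ℕ => (k : ℝ) + 2) atTop atTop :=
      tendsto_atTop_add_const_right _ _ tendsto_natCast_atTop_atTop
    have h2 : Tendsto (fun k : ℕ => (t₂ - t₀) / ((k : ℝ) + 2)) atTop (𝓝 0) :=
      h1.const_div_atTop _
    have h3 := (tendsto_const_nhds (x := t₂)).sub h2
    rw [sub_zero] at h3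
    rw [hs]
    exact h3
  have hsI : ∀ k, s k ∈ Icc t₀ t₁ := fun k => ⟨(hs1 k).1.le, (hs1 k).2.le.trans ht₂₁.2⟩
  have hsI' : ∀ k, s k ∈ Icc t₀ t' := fun k => ⟨(hs1 k).1.le, (hs1 k).2.le.trans ht₂c.2⟩
  have hym : ∀ k, IsMin (G' (s k)) (G (s k) x₂) x₂ r (Y (s k) x₂) := fun k =>
    hY (s k) (hsI k) x₂ hx₂'
  have hyt : Tendsto (fun k => Y (s k) x₂) atTop (𝓝 y₂) := by
    rw [hy₂]
    exact hseq t₂ ht₂₁ x₂ hx₂' s (fun _ => x₂) hsI (fun _ => hx₂') hst tendsto_const_nhds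
  -- the mean value theorem
  have hmv : ∀ k, ∃ τ ∈ Ioo (s k) t₂, κ ≤ Real.exp (-(2 * L) * τ) *
      (2 * ⟪G τ x₂ - G' τ (Y (s k) x₂), mcv (G τ) x₂ (e τ) -
        mcv (G' τ) (Y (s k) x₂) (e' τ (Y (s k) x₂))⟫_ℝ -
        2 * L * ‖G τ x₂ - G' τ (Y (s k) x₂)‖ ^ 2) := by
    intro k
    obtain ⟨y, hy⟩ : ∃ y, y = Y (s k) x₂ := ⟨_, rfl⟩
    have hy1 : ‖y‖ = 1 := by rw [hy]; exact (hym k).1
    rw [← hy]
    have hI : ∀ τ ∈ Icc (s k) t₂, τ ∈ Ico 0 T := fun τ hτ =>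
      hIco τ ⟨(hs1 k).1.le.trans hτ.1, hτ.2.trans ht₂₁.2⟩
    have hI' : ∀ τ ∈ Ioo (s k) t₂, Ico 0 T ∈ 𝓝 τ := by
      intro τ hτ
      have h1 : 0 < τ := (ht₀.trans_lt (hs1 k).1).trans hτ.1
      have h2 : τ < T := (hI τ (Ioo_subset_Icc_self hτ)).2
      exact Ico_mem_nhds h1 h2
    have hne : ∀ z : V, ‖z‖ = 1 → z ∈ ({0}ᶜ : Set V) := by
      intro z hz hz0
      rw [mem_singleton_iff] at hz0
      rw [hz0, norm_zero] at hz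
      exact zero_ne_one hz
    have hcG : ContinuousOn (fun τ => G τ x₂) (Icc (s k) t₂) :=
      h.k0.comp (f := fun τ : ℝ => (τ, x₂)) (by fun_prop) fun τ hτ => ⟨hI τ hτ, hne _ hx₂'⟩
    have hcG' : ContinuousOn (fun τ => G' τ y) (Icc (s k) t₂) :=
      h'.k0.comp (f := fun τ : ℝ => (τ, y)) (by fun_prop) fun τ hτ => ⟨hI τ hτ, hne _ hy1⟩
    have hd : ∀ τ ∈ Ioo (s k) t₂, HasDerivAt (fun τ => Real.exp (-(2 * L) * τ) *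
        ‖G τ x₂ - G' τ y‖ ^ 2) (Real.exp (-(2 * L) * τ) *
        (2 * ⟪G τ x₂ - G' τ y, mcv (G τ) x₂ (e τ) - mcv (G' τ) y (e' τ y)⟫_ℝ -
        2 * L * ‖G τ x₂ - G' τ y‖ ^ 2)) τ := by
      intro τ hτ
      have hτI := hI τ (Ioo_subset_Icc_self hτ)
      have h1 : HasDerivAt (fun τ => G τ x₂) (mcv (G τ) x₂ (e τ)) τ :=
        (h.eq τ hτI x₂ hx₂' (e τ) (he τ hτI)).hasDerivAt (hI' τ hτ)
      have h2 : HasDerivAt (fun τ => G' τ y) (mcv (G' τ) y (e' τ y)) τ :=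
        (h'.eq τ hτI y hy1 (e' τ y) (he' τ hτI y hy1)).hasDerivAt (hI' τ hτ)
      have h3 := (h1.sub h2).norm_sq
      have h4 : HasDerivAt (fun τ => Real.exp (-(2 * L) * τ))
          (Real.exp (-(2 * L) * τ) * (-(2 * L))) τ := by
        have h5 : HasDerivAt (fun τ : ℝ => -(2 * L) * τ) (-(2 * L)) τ := by
          simpa using (hasDerivAt_id τ).const_mul (-(2 * L))
        exact h5.exp
      have h6 : HasDerivAt (fun τ => Real.exp (-(2 * L) * τ) * ‖G τ x₂ - G' τ y‖ ^ 2)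
          (Real.exp (-(2 * L) * τ) * (-(2 * L)) * ‖G τ x₂ - G' τ y‖ ^ 2 +
            Real.exp (-(2 * L) * τ) * (2 * ⟪G τ x₂ - G' τ y,
              mcv (G τ) x₂ (e τ) - mcv (G' τ) y (e' τ y)⟫_ℝ)) τ := h4.mul h3
      exact h6.congr_deriv (by ring)
    obtain ⟨τ, hτ, hslope⟩ := exists_hasDerivAt_eq_slope (fun τ => Real.exp (-(2 * L) * τ) *
        ‖G τ x₂ - G' τ y‖ ^ 2) (fun τ => Real.exp (-(2 * L) * τ) *
        (2 * ⟪G τ x₂ - G' τ y, mcv (G τ) x₂ (e τ) - mcv (G' τ) y (e' τ y)⟫_ℝ -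
        2 * L * ‖G τ x₂ - G' τ y‖ ^ 2)) (hs1 k).2
      ((by fun_prop : Continuous fun τ : ℝ => Real.exp (-(2 * L) * τ)).continuousOn.mul
        ((hcG.sub hcG').norm.pow 2)) hd
    refine ⟨τ, hτ, ?_⟩
    have hslope' : Real.exp (-(2 * L) * τ) *
        (2 * ⟪G τ x₂ - G' τ y, mcv (G τ) x₂ (e τ) - mcv (G' τ) y (e' τ y)⟫_ℝ -
        2 * L * ‖G τ x₂ - G' τ y‖ ^ 2) = (Real.exp (-(2 * L) * t₂) * ‖G t₂ x₂ - G' t₂ y‖ ^ 2 -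
        Real.exp (-(2 * L) * s k) * ‖G (s k) x₂ - G' (s k) y‖ ^ 2) / (t₂ - s k) := hslope
    rw [hslope', le_div_iff₀ (by linarith [(hs1 k).2])]
    have h1 : ‖G t₂ x₂ - G' t₂ y₂‖ ≤ ‖G t₂ x₂ - G' t₂ y‖ := by
      refine hmm.2.1.2.2 y hy1 ?_
      rw [hy]
      exact (hym k).2.1
    have h2 : u t₂ x₂ ≤ ‖G t₂ x₂ - G' t₂ y‖ ^ 2 := by
      rw [hu]
      show ‖G t₂ x₂ - G' t₂ (Y t₂ x₂)‖ ^ 2 ≤ _
      rw [← hy₂]
      exact pow_le_pow_left₀ (norm_nonneg _) h1 2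
    have h3 : u (s k) x₂ = ‖G (s k) x₂ - G' (s k) y‖ ^ 2 := by
      rw [hu, hy]
    have h4 := hmx (s k) (hsI' k) x₂ hx₂'
    rw [h3] at h4
    have h5 : Real.exp (-(2 * L) * t₂) * u t₂ x₂ ≤
        Real.exp (-(2 * L) * t₂) * ‖G t₂ x₂ - G' t₂ y‖ ^ 2 :=
      mul_le_mul_of_nonneg_left h2 (Real.exp_pos _).le
    nlinarith
  choose τ hτ hτk using hmv
  have hτt : Tendsto τ atTop (𝓝 t₂) :=
    tendsto_of_tendsto_of_tendsto_of_le_of_le hst tendsto_const_nhds (fun k => (hτ k).1.le)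
      (fun k => (hτ k).2.le)
  have hτI : ∀ k, τ k ∈ Ico 0 T := fun k =>
    hIco _ ⟨(hs1 k).1.le.trans (hτ k).1.le, (hτ k).2.le.trans ht₂₁.2⟩
  have hY1 : ∀ k, ‖Y (s k) x₂‖ = 1 := fun k => (hym k).1
  have l1 := Ht_seq h (hIco t₂ ht₂₁) hx₂' hτI (fun _ => hx₂') hτt tendsto_const_nhds
  have l2 := Ht_seq h' (hIco t₂ ht₂₁) hy₂1 hτI hY1 hτt hyt
  have l3 := mcv_tendsto hV h (hIco t₂ ht₂₁) hx₂' (he t₂ (hIco t₂ ht₂₁)) hτI (fun _ => hx₂')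
    (fun k => he (τ k) (hτI k)) hτt tendsto_const_nhds
  have l4 := mcv_tendsto hV h' (hIco t₂ ht₂₁) hy₂1 (he' t₂ (hIco t₂ ht₂₁) y₂ hy₂1) hτI hY1
    (fun k => he' (τ k) (hτI k) _ (hY1 k)) hτt hyt
  have l5 : Tendsto (fun k => Real.exp (-(2 * L) * τ k)) atTop (𝓝 (Real.exp (-(2 * L) * t₂))) :=
    (Real.continuous_exp.tendsto _).comp (hτt.const_mul _)
  have l6 := l5.mul ((((l1.sub l2).inner (l3.sub l4)).const_mul 2).sub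
    (((l1.sub l2).norm.pow 2).const_mul (2 * L)))
  have h7 := ge_of_tendsto' l6 hτk
  have h8 : Real.exp (-(2 * L) * t₂) * (2 * ⟪G t₂ x₂ - G' t₂ y₂, mcv (G t₂) x₂ (e t₂) -
      mcv (G' t₂) y₂ (e' t₂ y₂)⟫_ℝ - 2 * L * ‖G t₂ x₂ - G' t₂ y₂‖ ^ 2) ≤ 0 :=
    mul_nonpos_of_nonneg_of_nonpos (Real.exp_pos _).le (by linarith)
  linarith

end Pool.Agent.H.MP_4ac55f_gt.RP
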