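import Pool.Agent.H.MP_4ac55f_gt.RP.Un

/-!
# Minimizers  (module Mi)

`min_exists`: compactness. `min_close`: `‖p - g y‖ ≤ ‖p - g x‖ ≤ ε`, so `c₁ ‖y - x‖ ≤ ‖g y - g x‖ ≤ 2 ε < c₁ r`. `min_normal`: `y` is an interior point: for `u : V` the function
`s ↦ ‖p - g (y + s u)‖²` is minimal at `0` near `0` (`g (y + s u) = g (‖y + s u‖⁻¹ • (y + s u))`). `min_unique`: `ξ = p - g y`, `ξ' = p - g y'`:
`‖ξ - ξ'‖² = ⟪ξ - ξ', g y' - g y⟫`, `|⟪ξ, g y' - g y⟫| ≤ C ‖ξ‖ ‖y' - y‖²` (`tay`, `min_normal`), the same for `ξ'`, and `c₁ ‖y - y'‖ ≤ ‖g y - g y'‖ = ‖ξ - ξ'‖`; so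
`‖ξ - ξ'‖² ≤ 2 C ε c₁⁻² ‖ξ - ξ'‖²`, `ξ = ξ'`, `y = y'`. `min_tendsto`: every subsequence of `y k` has a subsequence tending to some `y₁` with `‖y₁‖ = 1`, `‖y₁ - x‖ ≤ r`; as `y` is interior,
`‖y - x k‖ ≤ r` for large `k`, so `‖p k - G (t k) (y k)‖ ≤ ‖p k - G (t k) y‖`, in the limit `‖p - G t y₁‖ ≤ ‖p - G t y‖`: `y₁` is a minimizer, `y₁ = y`.
-/

set_option autoImplicit false

open scoped InnerProductSpace ContDiff Topology
open Set Metric Filter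

namespace Pool.Agent.H.MP_4ac55f_gt.RP

variable {V W : Type*} [NormedAddCommGroup V] [InnerProductSpace ℝ V] [FiniteDimensional ℝ V]
  [NormedAddCommGroup W] [InnerProductSpace ℝ W]

private theorem Mi_ne {y : V} (hy : ‖y‖ = 1) : y ≠ 0 := by
  rintro rfl
  rw [norm_zero] at hy
  exact zero_ne_one hy

theorem min_exists {n : ℕ} {T T₁ : ℝ} {G : ℝ → V → W} (h : Flow n T G) {t : ℝ}
    (ht : t ∈ Ico 0 T) (p : W) {x : V} (hx : ‖x‖ = 1) {r : ℝ} (hr : 0 < r) :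
    ∃ y, IsMin (G t) p x r y := by
  have hK : IsCompact (sphere (0 : V) 1 ∩ closedBall x r) :=
    (isCompact_sphere 0 1).inter_right isClosed_closedBall
  have hne : (sphere (0 : V) 1 ∩ closedBall x r).Nonempty :=
    ⟨x, by rw [mem_sphere_zero_iff_norm]; exact hx, mem_closedBall_self hr.le⟩
  have hc : ContinuousOn (fun y => ‖p - G t y‖) (sphere (0 : V) 1 ∩ closedBall x r) := by
    refine (continuousOn_const.sub (((h.c2 t ht).continuousOn).mono ?_)).norm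
    rintro y ⟨hy, -⟩
    exact Mi_ne (mem_sphere_zero_iff_norm.1 hy)
  obtain ⟨y, hy, hmin⟩ := hK.exists_isMinOn hne hc
  refine ⟨y, mem_sphere_zero_iff_norm.1 hy.1, ?_, fun y' h1 h2 => ?_⟩
  · rw [← dist_eq_norm]; exact hy.2
  · exact hmin ⟨mem_sphere_zero_iff_norm.2 h1, by rw [mem_closedBall, dist_eq_norm]; exact h2⟩

theorem min_close {T₁ : ℝ} {G : ℝ → V → W} {c₀ c₁ r C : ℝ} (hc : Cst T₁ G c₀ c₁ r C) {t : ℝ}
    (ht : t ∈ Icc 0 T₁) {p : W} {x y : V} (hx : ‖x‖ = 1) {ε : ℝ} (hε : ‖p - G t x‖ ≤ ε)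
    (hy : IsMin (G t) p x r y) : c₁ * ‖y - x‖ ≤ 2 * ε := by
  obtain ⟨h1, h2, h3⟩ := hy
  have hr := hc.hr
  have h4 : ‖p - G t y‖ ≤ ‖p - G t x‖ := h3 x hx (by rw [sub_self, norm_zero]; exact hr.le)
  have h5 := hc.inj t ht y x h1 hx (by linarith)
  have h6 : ‖G t y - G t x‖ ≤ ‖p - G t y‖ + ‖p - G t x‖ := by
    have h7 : G t y - G t x = (p - G t x) - (p - G t y) := by abel
    rw [h7, add_comm]
    exact norm_sub_le _ _
  linarith

theorem min_normal {n : ℕ} {T : ℝ} {G : ℝ → V → W} (h : Flow n T G) {t : ℝ} (ht : t ∈ Ico 0 T)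
    {p : W} {x y : V} {r : ℝ} (hy : IsMin (G t) p x r y) (hyx : ‖y - x‖ < r) (u : V) :
    ⟪p - G t y, d (G t) y u⟫_ℝ = 0 := by
  obtain ⟨h1, h2, h3⟩ := hy
  have hy0 : y ≠ 0 := Mi_ne h1
  have hd : DifferentiableAt ℝ (G t) y :=
    ((h.c2 t ht).differentiableOn (by norm_num)).differentiableAt
      (isOpen_compl_singleton.mem_nhds hy0)
  have hline : HasDerivAt (fun s : ℝ => y + s • u) u 0 := by
    simpa using ((hasDerivAt_id (0 : ℝ)).smul_const u).const_add y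
  have hd' : HasFDerivAt (G t) (fderiv ℝ (G t) y) (y + (0 : ℝ) • u) := by
    rw [zero_smul, add_zero]; exact hd.hasFDerivAt
  have hG : HasDerivAt (fun s : ℝ => G t (y + s • u)) (fderiv ℝ (G t) y u) 0 :=
    hd'.comp_hasDerivAt 0 hline
  have hφ : HasDerivAt (fun s : ℝ => ‖p - G t (y + s • u)‖ ^ 2)
      (2 * ⟪p - G t (y + (0 : ℝ) • u), - fderiv ℝ (G t) y u⟫_ℝ) 0 :=
    (hG.const_sub p).norm_sq
  have hcont : Tendsto (fun s : ℝ => y + s • u) (𝓝 0) (𝓝 y) := by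
    have := hline.continuousAt.tendsto
    simpa using this
  have hz : Tendsto (fun s : ℝ => ‖y + s • u‖⁻¹ • (y + s • u)) (𝓝 0) (𝓝 y) := by
    have h4 : Tendsto (fun s : ℝ => ‖y + s • u‖⁻¹ • (y + s • u)) (𝓝 0) (𝓝 (‖y‖⁻¹ • y)) :=
      ((hcont.norm).inv₀ (by rw [h1]; exact one_ne_zero)).smul hcont
    rwa [h1, inv_one, one_smul] at h4
  have hmin : IsLocalMin (fun s : ℝ => ‖p - G t (y + s • u)‖ ^ 2) 0 := by
    have e1 : ∀ᶠ s : ℝ in 𝓝 0, y + s • u ≠ 0 := hcont.eventually_ne hy0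
    have e2 : ∀ᶠ s : ℝ in 𝓝 0, ‖‖y + s • u‖⁻¹ • (y + s • u) - x‖ < r :=
      ((hz.sub_const x).norm).eventually_lt_const hyx
    filter_upwards [e1, e2] with s h5 h6
    have h7 : 0 < ‖y + s • u‖⁻¹ := inv_pos.2 (norm_pos_iff.2 h5)
    have h8 := h.hom t ht _ h7 _ h5
    have h9 := h3 (‖y + s • u‖⁻¹ • (y + s • u)) (by
      rw [norm_smul, norm_inv, norm_norm, inv_mul_cancel₀ (norm_ne_zero_iff.2 h5)]) h6.le
    rw [h8] at h9
    rw [zero_smul, add_zero]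
    exact pow_le_pow_left₀ (norm_nonneg _) h9 2
  have h10 := hmin.hasDerivAt_eq_zero hφ
  rw [zero_smul, add_zero, inner_neg_right] at h10
  unfold d
  linarith

theorem min_unique {n : ℕ} {T T₁ : ℝ} {G : ℝ → V → W} (h : Flow n T G) (hT₁ : T₁ < T)
    {c₀ c₁ r C : ℝ} (hc : Cst T₁ G c₀ c₁ r C) {t : ℝ} (ht : t ∈ Icc 0 T₁) {p : W} {x y y' : V}
    (hx : ‖x‖ = 1) {ε : ℝ} (hε : ‖p - G t x‖ ≤ ε) (hε1 : 2 * ε < c₁ * r)
    (hε2 : 2 * C * ε < c₁ ^ 2) (hy : IsMin (G t) p x r y) (hy' : IsMin (G t) p x r y') :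
    y = y' := by
  have ht' : t ∈ Ico 0 T := ⟨ht.1, ht.2.trans_lt hT₁⟩
  have hc1 := hc.hc₁
  have hclose : ∀ z, IsMin (G t) p x r z → ‖z - x‖ < r := by
    intro z hz
    have h1 := min_close hc ht hx hε hz
    by_contra hcon
    have := mul_le_mul_of_nonneg_left (not_lt.1 hcon) hc1.le
    linarith
  have hsmall : ∀ z, IsMin (G t) p x r z → ‖p - G t z‖ ≤ ε := fun z hz =>
    (hz.2.2 x hx (by rw [sub_self, norm_zero]; exact hc.hr.le)).trans hε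
  have hyy : ‖y - y'‖ ≤ 2 * r := by
    have h1 : y - y' = (y - x) - (y' - x) := by abel
    rw [h1]
    have := norm_sub_le (y - x) (y' - x)
    have := hclose y hy
    have := hclose y' hy'
    linarith
  have hyy' : ‖y' - y‖ ≤ 2 * r := by rw [norm_sub_rev]; exact hyy
  have n1 := min_normal h ht' hy (hclose y hy) (y' - y)
  have n2 := min_normal h ht' hy' (hclose y' hy') (y - y')
  have t1 := hc.tay t ht y y' hy.1 hy'.1 hyy
  have t2 := hc.tay t ht y' y hy'.1 hy.1 hyy'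
  have i1 := hc.inj t ht y y' hy.1 hy'.1 hyy
  have s1 := hsmall y hy
  have s2 := hsmall y' hy'
  have hC := hc.hC
  -- the two inner products
  have a1 : ⟪p - G t y, G t y' - G t y⟫_ℝ ≤ ε * (C * ‖y - y'‖ ^ 2) := by
    have h1 : ⟪p - G t y, G t y' - G t y⟫_ℝ =
        ⟪p - G t y, G t y' - G t y - d (G t) y (y' - y)⟫_ℝ := by
      rw [inner_sub_right _ (G t y' - G t y), n1, sub_zero]
    rw [h1]
    refine (real_inner_le_norm _ _).trans ?_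
    rw [norm_sub_rev y' y] at t1
    exact mul_le_mul s1 t1 (norm_nonneg _) ((norm_nonneg _).trans s1)
  have a2 : ⟪p - G t y', G t y - G t y'⟫_ℝ ≤ ε * (C * ‖y - y'‖ ^ 2) := by
    have h1 : ⟪p - G t y', G t y - G t y'⟫_ℝ =
        ⟪p - G t y', G t y - G t y' - d (G t) y' (y - y')⟫_ℝ := by
      rw [inner_sub_right _ (G t y - G t y'), n2, sub_zero]
    rw [h1]
    refine (real_inner_le_norm _ _).trans ?_
    exact mul_le_mul s2 t2 (norm_nonneg _) ((norm_nonneg _).trans s2)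
  have a3 : ‖G t y - G t y'‖ ^ 2 =
      ⟪p - G t y, G t y' - G t y⟫_ℝ + ⟪p - G t y', G t y - G t y'⟫_ℝ := by
    have h1 : ⟪p - G t y, G t y' - G t y⟫_ℝ = - ⟪p - G t y, G t y - G t y'⟫_ℝ := by
      rw [← inner_neg_right, neg_sub]
    rw [h1, neg_add_eq_sub, ← inner_sub_left, ← real_inner_self_eq_norm_sq]
    congr 1
    abel
  have a4 : (c₁ * ‖y - y'‖) ^ 2 ≤ ‖G t y - G t y'‖ ^ 2 :=
    pow_le_pow_left₀ (by positivity) i1 2
  have a5 : c₁ ^ 2 * ‖y - y'‖ ^ 2 ≤ 2 * C * ε * ‖y - y'‖ ^ 2 := by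
    nlinarith
  by_contra hne
  have h1 : 0 < ‖y - y'‖ := norm_pos_iff.2 (sub_ne_zero.2 hne)
  have h2 : 0 < ‖y - y'‖ ^ 2 := by positivity
  have := mul_lt_mul_of_pos_right hε2 h2
  linarith

theorem min_tendsto {n : ℕ} {T : ℝ} {G : ℝ → V → W} (h : Flow n T G) {r : ℝ} {t : ℝ}
    (ht : t ∈ Ico 0 T) {p : W} {x y : V} (hy : IsMin (G t) p x r y) (hyx : ‖y - x‖ < r)
    (huniq : ∀ y', IsMin (G t) p x r y' → y' = y) {tk : ℕ → ℝ} {pk : ℕ → W} {xk yk : ℕ → V}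
    (htk : ∀ k, tk k ∈ Ico 0 T) (htt : Tendsto tk atTop (𝓝 t)) (hpk : Tendsto pk atTop (𝓝 p))
    (hxk : Tendsto xk atTop (𝓝 x)) (hyk : ∀ k, IsMin (G (tk k)) (pk k) (xk k) r (yk k)) :
    Tendsto yk atTop (𝓝 y) := by
  have hlim : ∀ (zk : ℕ → V) (z : V) (ns : ℕ → ℕ), Tendsto ns atTop atTop → (∀ k, ‖zk k‖ = 1) →
      ‖z‖ = 1 → Tendsto zk atTop (𝓝 z) →
      Tendsto (fun k => G (tk (ns k)) (zk k)) atTop (𝓝 (G t z)) := by
    intro zk z ns hns h1 h2 h3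
    have h4 : ContinuousWithinAt (fun q : ℝ × V => G q.1 q.2) (Ico 0 T ×ˢ {0}ᶜ) (t, z) :=
      h.k0 (t, z) ⟨ht, Mi_ne h2⟩
    have h5 : Tendsto (fun k => (tk (ns k), zk k)) atTop (𝓝[Ico 0 T ×ˢ {0}ᶜ] (t, z)) := by
      refine tendsto_nhdsWithin_iff.2 ⟨(htt.comp hns).prodMk_nhds h3, Eventually.of_forall fun k => ?_⟩
      exact ⟨htk _, Mi_ne (h1 k)⟩
    exact h4.tendsto.comp h5
  refine tendsto_of_subseq_tendsto fun ns hns => ?_
  obtain ⟨y₁, hy₁, φ, hφ, hconv⟩ := (isCompact_sphere (0 : V) 1).tendsto_subseq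
    (x := fun k => yk (ns k)) (fun k => mem_sphere_zero_iff_norm.2 (hyk _).1)
  have hy₁' : ‖y₁‖ = 1 := mem_sphere_zero_iff_norm.1 hy₁
  have hns' : Tendsto (fun k => ns (φ k)) atTop atTop := hns.comp hφ.tendsto_atTop
  refine ⟨φ, ?_⟩
  have hmin : IsMin (G t) p x r y₁ := by
    refine ⟨hy₁', ?_, fun y' h1 h2 => ?_⟩
    · have h3 : Tendsto (fun k => ‖yk (ns (φ k)) - xk (ns (φ k))‖) atTop (𝓝 ‖y₁ - x‖) :=
        (hconv.sub (hxk.comp hns')).norm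
      exact le_of_tendsto' h3 fun k => (hyk _).2.1
    · have h3 : ‖p - G t y₁‖ ≤ ‖p - G t y‖ := by
        have h4 : Tendsto (fun k => ‖pk (ns (φ k)) - G (tk (ns (φ k))) (yk (ns (φ k)))‖) atTop
            (𝓝 ‖p - G t y₁‖) :=
          ((hpk.comp hns').sub (hlim (fun k => yk (ns (φ k))) y₁ (fun k => ns (φ k)) hns'
            (fun k => (hyk _).1) hy₁' hconv)).norm
        have h5 : Tendsto (fun k => ‖pk (ns (φ k)) - G (tk (ns (φ k))) y‖) atTop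
            (𝓝 ‖p - G t y‖) :=
          ((hpk.comp hns').sub (hlim (fun _ => y) y (fun k => ns (φ k)) hns'
            (fun _ => hy.1) hy.1 tendsto_const_nhds)).norm
        have h6 : ∀ᶠ k in atTop, ‖y - xk (ns (φ k))‖ < r :=
          ((tendsto_const_nhds.sub (hxk.comp hns')).norm).eventually_lt_const hyx
        refine le_of_tendsto_of_tendsto h4 h5 ?_
        filter_upwards [h6] with k hk
        exact (hyk _).2.2 y hy.1 hk.le
      exact h3.trans (hy.2.2 y' h1 h2)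
  rw [← huniq y₁ hmin]
  exact hconv

end Pool.Agent.H.MP_4ac55f_gt.RP
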