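import Pool.Agent.H.MP_4ac55f_gt.RP.Def

/-!
# Second order condition at a max-min point  (module Mm)

`first_le`: strict differentiability of `f` at `0`, at the pairs `(s k • v, w k)`, `(0, w k)`.
`maxmin`: with `p k = (s k • v, w k)`: Taylor of order two at `0`, `D f 0 (p k) = 0`. Normalize `q k = p k / ‖p k‖` (`p k ≠ 0` as
`v ≠ 0`), a subsequence tends to a unit vector `(α v, w')` with `α ≥ 0`, `w' ∈ TY` (closed), `D²f 0 (q, q) ≤ 0`; `α = 0`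
contradicts `hpos`; take `w = α⁻¹ • w'`. `v = 0`: `w = 0`.
-/

set_option autoImplicit false

open scoped InnerProductSpace ContDiff Topology
open Set Metric Filter

namespace Pool.Agent.H.MP_4ac55f_gt.RP

variable {E : Type*} [NormedAddCommGroup E] [NormedSpace ℝ E] [FiniteDimensional ℝ E]

omit [FiniteDimensional ℝ E] in
theorem first_le {f : E × E → ℝ} (hf : ContDiffAt ℝ 2 f 0) {v : E} {s : ℕ → ℝ} {w : ℕ → E}
    (hs : ∀ k, 0 < s k) (hs0 : Tendsto s atTop (𝓝 0)) (hw0 : Tendsto w atTop (𝓝 0))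
    (hle : ∀ k, f (s k • v, w k) ≤ f (0, w k)) : fderiv ℝ f 0 (v, 0) ≤ 0 := by
  have h1 : HasStrictFDerivAt f (fderiv ℝ f 0) 0 := hf.hasStrictFDerivAt (by norm_num)
  have h2 : Tendsto (fun k => ((s k • v, w k), ((0 : E), w k))) atTop (𝓝 ((0 : E × E), (0 : E × E))) := by
    have h3 : Tendsto (fun k => s k • v) atTop (𝓝 0) := by
      have := hs0.smul_const v
      rwa [zero_smul] at this
    exact (h3.prodMk_nhds hw0).prodMk_nhds (tendsto_const_nhds.prodMk_nhds hw0)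
  by_contra hc
  push Not at hc
  obtain ⟨c, hcdef⟩ : ∃ c, c = fderiv ℝ f 0 (v, 0) := ⟨_, rfl⟩
  rw [← hcdef] at hc
  have hv : 0 < ‖v‖ + 1 := by positivity
  have h4 := (h1.isLittleO.comp_tendsto h2).def (show 0 < c / 2 / (‖v‖ + 1) by positivity)
  obtain ⟨k, hk⟩ := h4.exists
  have h5 : (s k • v, w k) - ((0 : E), w k) = s k • (v, (0 : E)) := by
    rw [Prod.mk_sub_mk, sub_zero, sub_self, Prod.smul_mk, smul_zero]
  simp only [Function.comp] at hk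
  rw [h5, map_smul, smul_eq_mul, ← hcdef, norm_smul, Real.norm_of_nonneg (hs k).le, Prod.norm_mk,
    norm_zero, max_eq_left (norm_nonneg v), Real.norm_eq_abs] at hk
  have h6 := (abs_le.1 hk).1
  have h7 := hle k
  have h8 : c / 2 / (‖v‖ + 1) * (s k * ‖v‖) ≤ c / 2 * s k := by
    rw [div_mul_eq_mul_div, div_le_iff₀ hv]
    have := mul_pos (half_pos hc) (hs k)
    nlinarith
  have h9 := mul_pos (hs k) hc
  nlinarith

/-- Taylor of order two. -/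
private theorem Mm_tay {F : Type*} [NormedAddCommGroup F] [NormedSpace ℝ F] {f : F → ℝ}
    (hf : ContDiffAt ℝ 2 f 0) {ε : ℝ} (hε : 0 < ε) :
    ∀ᶠ p in 𝓝 (0 : F), |f p - f 0 - fderiv ℝ f 0 p - 1 / 2 * fderiv ℝ (fderiv ℝ f) 0 p p| ≤
      ε * ‖p‖ ^ 2 := by
  have h1 : ∀ᶠ p in 𝓝 (0 : F), DifferentiableAt ℝ f p := by
    filter_upwards [hf.eventually (by simp)] with p hp
    exact hp.differentiableAt (by norm_num)
  have h2 : DifferentiableAt ℝ (fderiv ℝ f) 0 :=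
    (hf.fderiv_right (m := 1) (by norm_num)).differentiableAt (by norm_num)
  have h3 := h2.hasFDerivAt.isLittleO.def hε
  obtain ⟨δ, hδ, h4⟩ := Metric.eventually_nhds_iff_ball.1 (h1.and h3)
  filter_upwards [ball_mem_nhds (0 : F) hδ] with p hp
  have hp' : ∀ τ ∈ Icc (0 : ℝ) 1, τ • p ∈ ball (0 : F) δ := by
    intro τ hτ
    rw [mem_ball_zero_iff] at hp ⊢
    rw [norm_smul, Real.norm_of_nonneg hτ.1]
    nlinarith [norm_nonneg p, hτ.2]
  obtain ⟨φ, hφ⟩ : ∃ φ : ℝ → ℝ, φ = fun τ => f (τ • p) - τ * fderiv ℝ f 0 p -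
      1 / 2 * τ ^ 2 * fderiv ℝ (fderiv ℝ f) 0 p p := ⟨_, rfl⟩
  have h5 : ∀ τ ∈ Icc (0 : ℝ) 1, HasDerivWithinAt φ
      (fderiv ℝ f (τ • p) p - fderiv ℝ f 0 p - τ * fderiv ℝ (fderiv ℝ f) 0 p p) (Icc 0 1) τ := by
    intro τ hτ
    have h6 : HasDerivAt (fun τ : ℝ => τ • p) p τ := by
      simpa using (hasDerivAt_id τ).smul_const p
    have h7 := ((h4 _ (hp' τ hτ)).1.hasFDerivAt.comp_hasDerivAt τ h6)
    have h8 : HasDerivAt (fun τ : ℝ => τ * fderiv ℝ f 0 p) (fderiv ℝ f 0 p) τ := by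
      simpa using (hasDerivAt_id τ).mul_const (fderiv ℝ f 0 p)
    have h9 : HasDerivAt (fun τ : ℝ => 1 / 2 * τ ^ 2 * fderiv ℝ (fderiv ℝ f) 0 p p)
        (τ * fderiv ℝ (fderiv ℝ f) 0 p p) τ := by
      have h10 := ((hasDerivAt_pow 2 τ).const_mul (1 / 2 : ℝ)).mul_const
        (fderiv ℝ (fderiv ℝ f) 0 p p)
      refine h10.congr_deriv ?_
      simp
    rw [hφ]
    exact ((h7.sub h8).sub h9).hasDerivWithinAt
  have h6 : ∀ τ ∈ Icc (0 : ℝ) 1,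
      ‖fderiv ℝ f (τ • p) p - fderiv ℝ f 0 p - τ * fderiv ℝ (fderiv ℝ f) 0 p p‖ ≤ ε * ‖p‖ ^ 2 := by
    intro τ hτ
    have h7 := (h4 _ (hp' τ hτ)).2
    rw [sub_zero] at h7
    have h8 : fderiv ℝ f (τ • p) p - fderiv ℝ f 0 p - τ * fderiv ℝ (fderiv ℝ f) 0 p p =
        (fderiv ℝ f (τ • p) - fderiv ℝ f 0 - fderiv ℝ (fderiv ℝ f) 0 (τ • p)) p := by
      rw [map_smul]
      rfl
    rw [h8]
    refine (ContinuousLinearMap.le_opNorm _ p).trans ?_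
    have h9 : ‖τ • p‖ ≤ ‖p‖ := by
      rw [norm_smul, Real.norm_of_nonneg hτ.1]
      nlinarith [norm_nonneg p, hτ.2]
    calc _ ≤ (ε * ‖τ • p‖) * ‖p‖ := by gcongr
      _ ≤ (ε * ‖p‖) * ‖p‖ := by gcongr
      _ = ε * ‖p‖ ^ 2 := by ring
  have h7 := Convex.norm_image_sub_le_of_norm_hasDerivWithin_le h5 h6 (convex_Icc 0 1)
    (left_mem_Icc.2 zero_le_one) (right_mem_Icc.2 zero_le_one)
  rw [hφ, Real.norm_eq_abs] at h7
  simp only [one_smul, one_mul, zero_smul, zero_mul, one_pow, mul_one, sub_zero, norm_one] at h7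
  have h8 : f p - f 0 - fderiv ℝ f 0 p - 1 / 2 * fderiv ℝ (fderiv ℝ f) 0 p p =
      f p - fderiv ℝ f 0 p - 1 / 2 * fderiv ℝ (fderiv ℝ f) 0 p p -
        (f 0 - 1 / 2 * 0 ^ 2 * fderiv ℝ (fderiv ℝ f) 0 p p) := by ring
  rw [h8]
  exact h7

theorem maxmin {f : E × E → ℝ} (hf : ContDiffAt ℝ 2 f 0) {TY : Submodule ℝ E} {v : E}
    {s : ℕ → ℝ} {w : ℕ → E} (hs : ∀ k, 0 < s k) (hs0 : Tendsto s atTop (𝓝 0))
    (hw : ∀ k, w k ∈ TY) (hw0 : Tendsto w atTop (𝓝 0)) (hle : ∀ k, f (s k • v, w k) ≤ f 0)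
    (h1 : fderiv ℝ f 0 (v, 0) = 0) (h2 : ∀ w ∈ TY, fderiv ℝ f 0 (0, w) = 0)
    (hpos : ∀ w ∈ TY, w ≠ 0 → 0 < fderiv ℝ (fderiv ℝ f) 0 (0, w) (0, w)) :
    ∃ w ∈ TY, fderiv ℝ (fderiv ℝ f) 0 (v, w) (v, w) ≤ 0 := by
  by_cases hv : v = 0
  · refine ⟨0, TY.zero_mem, ?_⟩
    rw [hv, Prod.mk_zero_zero, map_zero]
  have hvn : 0 < ‖v‖ := norm_pos_iff.2 hv
  obtain ⟨B, hB⟩ : ∃ B, B = fderiv ℝ (fderiv ℝ f) 0 := ⟨_, rfl⟩
  rw [← hB] at hpos ⊢
  obtain ⟨p, hp⟩ : ∃ p : ℕ → E × E, p = fun k => (s k • v, w k) := ⟨_, rfl⟩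
  have hp0 : Tendsto p atTop (𝓝 0) := by
    have h3 : Tendsto (fun k => s k • v) atTop (𝓝 0) := by
      have := hs0.smul_const v
      rwa [zero_smul] at this
    rw [hp]
    exact h3.prodMk_nhds hw0
  have hpn : ∀ k, 0 < ‖p k‖ := by
    intro k
    rw [hp, norm_pos_iff]
    intro h
    have h3 : s k • v = 0 := (Prod.ext_iff.1 h).1
    rcases smul_eq_zero.1 h3 with h4 | h4
    · exact (hs k).ne' h4
    · exact hv h4
  have hD : ∀ k, fderiv ℝ f 0 (p k) = 0 := by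
    intro k
    have h3 : p k = s k • (v, (0 : E)) + (0, w k) := by
      rw [hp]
      simp
    rw [h3, map_add, map_smul, h1, h2 _ (hw k), smul_zero, add_zero]
  have hq : ∀ ε : ℝ, 0 < ε → ∀ᶠ k in atTop, B (‖p k‖⁻¹ • p k) (‖p k‖⁻¹ • p k) ≤ ε := by
    intro ε hε
    filter_upwards [hp0.eventually (Mm_tay hf (half_pos hε))] with k hk
    rw [hD k, ← hB] at hk
    have h3 := (abs_le.1 hk).1
    have h4 : f (p k) ≤ f 0 := by rw [hp]; exact hle k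
    have h5 : B (p k) (p k) ≤ ε * ‖p k‖ ^ 2 := by linarith
    rw [map_smul, map_smul, FunLike.coe_smul, Pi.smul_apply, smul_eq_mul, smul_eq_mul,
      ← mul_assoc, ← sq, inv_pow, inv_mul_le_iff₀ (by have := hpn k; positivity)]
    linarith
  obtain ⟨q, hqm, φ, hφ, hqt⟩ := (isCompact_sphere (0 : E × E) 1).tendsto_subseq
    (x := fun k => ‖p k‖⁻¹ • p k) (fun k => by
      rw [mem_sphere_zero_iff_norm, norm_smul, norm_inv, norm_norm, inv_mul_cancel₀ (hpn k).ne'])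
  have hqn : ‖q‖ = 1 := mem_sphere_zero_iff_norm.1 hqm
  have hBq : B q q ≤ 0 := by
    refine le_of_forall_pos_le_add fun ε hε => ?_
    rw [zero_add]
    have h3 : Tendsto (fun k => B (‖p (φ k)‖⁻¹ • p (φ k)) (‖p (φ k)‖⁻¹ • p (φ k))) atTop
        (𝓝 (B q q)) := by
      have h4 : Continuous fun z : E × E => B z z := by fun_prop
      exact (h4.tendsto q).comp hqt
    exact le_of_tendsto h3 (hφ.tendsto_atTop.eventually (hq ε hε))
  have hq2 : q.2 ∈ TY := by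
    have h3 : IsClosed (TY : Set E) := TY.closed_of_finiteDimensional
    refine h3.mem_of_tendsto ((continuous_snd.tendsto q).comp hqt) (Eventually.of_forall fun k => ?_)
    show (‖p (φ k)‖⁻¹ • p (φ k)).2 ∈ TY
    rw [Prod.smul_snd, hp]
    exact TY.smul_mem _ (hw _)
  have hq1 : q.1 = (‖q.1‖ / ‖v‖) • v := by
    have h3 : Tendsto (fun k => (‖p (φ k)‖⁻¹ • p (φ k)).1) atTop (𝓝 q.1) :=
      (continuous_fst.tendsto q).comp hqt
    have h4 : Tendsto (fun k => (‖(‖p (φ k)‖⁻¹ • p (φ k)).1‖ / ‖v‖) • v) atTop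
        (𝓝 ((‖q.1‖ / ‖v‖) • v)) := (h3.norm.div_const _).smul_const v
    refine tendsto_nhds_unique h3 (h4.congr fun k => ?_)
    have h5 : (‖p (φ k)‖⁻¹ • p (φ k)).1 = (‖p (φ k)‖⁻¹ * s (φ k)) • v := by
      rw [Prod.smul_fst, hp, smul_smul]
    rw [h5, norm_smul, mul_div_assoc, div_self hvn.ne', mul_one, Real.norm_of_nonneg]
    have := hs (φ k)
    positivity
  have hα : 0 ≤ ‖q.1‖ / ‖v‖ := by positivity
  rcases hα.eq_or_lt with h3 | h3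
  · rw [← h3, zero_smul] at hq1
    have h4 : q.2 ≠ 0 := by
      intro h5
      have h6 : q = 0 := Prod.ext hq1 h5
      rw [h6, norm_zero] at hqn
      exact zero_ne_one hqn
    have h5 := hpos q.2 hq2 h4
    have h6 : q = (0, q.2) := Prod.ext hq1 rfl
    rw [← h6] at h5
    exact absurd hBq (not_le.2 h5)
  · refine ⟨(‖q.1‖ / ‖v‖)⁻¹ • q.2, TY.smul_mem _ hq2, ?_⟩
    have h4 : (v, (‖q.1‖ / ‖v‖)⁻¹ • q.2) = (‖q.1‖ / ‖v‖)⁻¹ • q := by
      refine Prod.ext ?_ rfl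
      show v = (‖q.1‖ / ‖v‖)⁻¹ • q.1
      calc v = ((‖q.1‖ / ‖v‖)⁻¹ * (‖q.1‖ / ‖v‖)) • v := by
            rw [inv_mul_cancel₀ h3.ne', one_smul]
        _ = (‖q.1‖ / ‖v‖)⁻¹ • ((‖q.1‖ / ‖v‖) • v) := (smul_smul _ _ _).symm
        _ = (‖q.1‖ / ‖v‖)⁻¹ • q.1 := by rw [← hq1]
    rw [h4, map_smul, map_smul, FunLike.coe_smul, Pi.smul_apply, smul_eq_mul, smul_eq_mul,
      ← mul_assoc]
    exact mul_nonpos_of_nonneg_of_nonpos (by positivity) hBq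

end Pool.Agent.H.MP_4ac55f_gt.RP
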