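import Pool.Agent.H.MP_4ac55f_gt.RP.Def

/-!
# The squared distance of two maps  (module Zf)

`f p = ‖G (x + p.1) - G' (y + p.2)‖² / 2`. Derivative at `p`: `q ↦ ⟪G (x + p.1) - G' (y + p.2), d G (x + p.1) q.1 - d G' (y + p.2) q.2⟫` near `0`; differentiate once more.
-/

set_option autoImplicit false

open scoped InnerProductSpace ContDiff Topology
open Set Metric Filter

namespace Pool.Agent.H.MP_4ac55f_gt.RP

variable {V W : Type*} [NormedAddCommGroup V] [InnerProductSpace ℝ V]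
  [NormedAddCommGroup W] [InnerProductSpace ℝ W]

/-- half the squared distance of `G (x + p.1)` and `G' (y + p.2)` -/
noncomputable def Z (G G' : V → W) (x y : V) (p : V × V) : ℝ :=
  ‖G (x + p.1) - G' (y + p.2)‖ ^ 2 / 2

theorem Zf_cdu {G G' : V → W} {x y : V} (hG : ContDiffAt ℝ 2 G x) (hG' : ContDiffAt ℝ 2 G' y) :
    ContDiffAt ℝ 2 (fun p : V × V => G (x + p.1) - G' (y + p.2)) 0 := by
  have h1 : ContDiffAt ℝ 2 (fun p : V × V => G (x + p.1)) 0 := by
    have h2 : ContDiffAt ℝ 2 (fun p : V × V => x + p.1) 0 := contDiffAt_const.add contDiffAt_fst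
    have h3 : ContDiffAt ℝ 2 G (x + (0 : V × V).1) := by simpa using hG
    exact ContDiffAt.comp (f := fun p : V × V => x + p.1) (0 : V × V) h3 h2
  have h1' : ContDiffAt ℝ 2 (fun p : V × V => G' (y + p.2)) 0 := by
    have h2 : ContDiffAt ℝ 2 (fun p : V × V => y + p.2) 0 := contDiffAt_const.add contDiffAt_snd
    have h3 : ContDiffAt ℝ 2 G' (y + (0 : V × V).2) := by simpa using hG'
    exact ContDiffAt.comp (f := fun p : V × V => y + p.2) (0 : V × V) h3 h2
  exact h1.sub h1'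

theorem Z_smooth {G G' : V → W} {x y : V} (hG : ContDiffAt ℝ 2 G x) (hG' : ContDiffAt ℝ 2 G' y) :
    ContDiffAt ℝ 2 (Z G G' x y) 0 := by
  have h1 := (Zf_cdu hG hG').norm_sq ℝ
  exact h1.div_const 2

theorem Zf_hasU {G G' : V → W} {x y : V} {p : V × V} (h : DifferentiableAt ℝ G (x + p.1))
    (h' : DifferentiableAt ℝ G' (y + p.2)) :
    HasFDerivAt (fun p : V × V => G (x + p.1) - G' (y + p.2))
      ((fderiv ℝ G (x + p.1)).comp (ContinuousLinearMap.fst ℝ V V) -
        (fderiv ℝ G' (y + p.2)).comp (ContinuousLinearMap.snd ℝ V V)) p := by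
  have h1 : HasFDerivAt (fun p : V × V => x + p.1) (ContinuousLinearMap.fst ℝ V V) p :=
    hasFDerivAt_fst.const_add x
  have h2 : HasFDerivAt (fun p : V × V => y + p.2) (ContinuousLinearMap.snd ℝ V V) p :=
    hasFDerivAt_snd.const_add y
  exact (h.hasFDerivAt.comp p h1).sub (h'.hasFDerivAt.comp p h2)

theorem Zf_hasZ {G G' : V → W} {x y : V} {p : V × V} (h : DifferentiableAt ℝ G (x + p.1))
    (h' : DifferentiableAt ℝ G' (y + p.2)) (q : V × V) :
    fderiv ℝ (Z G G' x y) p q =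
      ⟪G (x + p.1) - G' (y + p.2), d G (x + p.1) q.1 - d G' (y + p.2) q.2⟫_ℝ := by
  have h3 := (Zf_hasU h h').norm_sq
  have h4 := h3.mul_const (2⁻¹ : ℝ)
  have h5 : Z G G' x y = fun p : V × V => ‖G (x + p.1) - G' (y + p.2)‖ ^ 2 * 2⁻¹ := by
    funext p
    rw [Z, div_eq_mul_inv]
  rw [h5, h4.fderiv]
  simp only [d, inner_sub_left, inner_sub_right]
  simp

theorem Zf_near {G : V → W} {x : V} (hG : ContDiffAt ℝ 2 G x) :
    ∀ᶠ z in 𝓝 x, DifferentiableAt ℝ G z := by
  filter_upwards [hG.eventually (by simp)] with z hz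
  exact hz.differentiableAt (by simp)

theorem Z_d {G G' : V → W} {x y : V} (hG : ContDiffAt ℝ 2 G x) (hG' : ContDiffAt ℝ 2 G' y)
    (v w : V) : fderiv ℝ (Z G G' x y) 0 (v, w) = ⟪G x - G' y, d G x v - d G' y w⟫_ℝ := by
  have h : DifferentiableAt ℝ G (x + (0 : V × V).1) := by
    simpa using hG.differentiableAt (by simp)
  have h' : DifferentiableAt ℝ G' (y + (0 : V × V).2) := by
    simpa using hG'.differentiableAt (by simp)
  simpa using Zf_hasZ h h' (v, w)

theorem Zf_hasD {G : V → W} {x : V} (hG : ContDiffAt ℝ 2 G x) (v : V) :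
    HasFDerivAt (fun z => d G z v)
      ((ContinuousLinearMap.apply ℝ W v).comp (fderiv ℝ (fderiv ℝ G) x)) x := by
  have h1 : ContDiffAt ℝ 1 (fderiv ℝ G) x := hG.fderiv_right (by norm_num)
  have h2 : HasFDerivAt (fderiv ℝ G) (fderiv ℝ (fderiv ℝ G) x) x :=
    (h1.differentiableAt (by simp)).hasFDerivAt
  exact (ContinuousLinearMap.apply ℝ W v).hasFDerivAt.comp x h2

theorem Z_d2 {G G' : V → W} {x y : V} (hG : ContDiffAt ℝ 2 G x) (hG' : ContDiffAt ℝ 2 G' y)
    (v w : V) : fderiv ℝ (fderiv ℝ (Z G G' x y)) 0 (v, w) (v, w) =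
      ‖d G x v - d G' y w‖ ^ 2 + ⟪G x - G' y, d2 G x v v - d2 G' y w w⟫_ℝ := by
  have hZ : ContDiffAt ℝ 1 (fderiv ℝ (Z G G' x y)) 0 :=
    (Z_smooth hG hG').fderiv_right (by norm_num)
  have hZ2 : HasFDerivAt (fderiv ℝ (Z G G' x y)) (fderiv ℝ (fderiv ℝ (Z G G' x y)) 0) 0 :=
    (hZ.differentiableAt (by simp)).hasFDerivAt
  have hZ3 : HasFDerivAt (fun p => fderiv ℝ (Z G G' x y) p (v, w))
      ((ContinuousLinearMap.apply ℝ ℝ (v, w)).comp (fderiv ℝ (fderiv ℝ (Z G G' x y)) 0)) 0 :=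
    (ContinuousLinearMap.apply ℝ ℝ (v, w)).hasFDerivAt.comp 0 hZ2
  -- near zero
  have hc : Tendsto (fun p : V × V => x + p.1) (𝓝 0) (𝓝 x) := by
    have h1 : Continuous (fun p : V × V => x + p.1) := by fun_prop
    simpa using h1.tendsto 0
  have hc' : Tendsto (fun p : V × V => y + p.2) (𝓝 0) (𝓝 y) := by
    have h1 : Continuous (fun p : V × V => y + p.2) := by fun_prop
    simpa using h1.tendsto 0
  have hE : (fun p => fderiv ℝ (Z G G' x y) p (v, w)) =ᶠ[𝓝 0]
      fun p => ⟪G (x + p.1) - G' (y + p.2), d G (x + p.1) v - d G' (y + p.2) w⟫_ℝ := by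
    filter_upwards [hc.eventually (Zf_near hG), hc'.eventually (Zf_near hG')] with p h h'
    exact Zf_hasZ h h' (v, w)
  -- the derivative of the inner product
  have hU : HasFDerivAt (fun p : V × V => G (x + p.1) - G' (y + p.2))
      ((fderiv ℝ G x).comp (ContinuousLinearMap.fst ℝ V V) -
        (fderiv ℝ G' y).comp (ContinuousLinearMap.snd ℝ V V)) 0 := by
    have h : DifferentiableAt ℝ G (x + (0 : V × V).1) := by
      simpa using hG.differentiableAt (by simp)
    have h' : DifferentiableAt ℝ G' (y + (0 : V × V).2) := by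
      simpa using hG'.differentiableAt (by simp)
    simpa using Zf_hasU h h'
  have hD : HasFDerivAt (fun p : V × V => d G (x + p.1) v - d G' (y + p.2) w)
      (((ContinuousLinearMap.apply ℝ W v).comp (fderiv ℝ (fderiv ℝ G) x)).comp
          (ContinuousLinearMap.fst ℝ V V) -
        ((ContinuousLinearMap.apply ℝ W w).comp (fderiv ℝ (fderiv ℝ G') y)).comp
          (ContinuousLinearMap.snd ℝ V V)) 0 := by
    have h1 : HasFDerivAt (fun p : V × V => x + p.1) (ContinuousLinearMap.fst ℝ V V) 0 :=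
      hasFDerivAt_fst.const_add x
    have h2 : HasFDerivAt (fun p : V × V => y + p.2) (ContinuousLinearMap.snd ℝ V V) 0 :=
      hasFDerivAt_snd.const_add y
    have h3 : HasFDerivAt (fun z => d G z v)
        ((ContinuousLinearMap.apply ℝ W v).comp (fderiv ℝ (fderiv ℝ G) x))
        (x + (0 : V × V).1) := by simpa using Zf_hasD hG v
    have h4 : HasFDerivAt (fun z => d G' z w)
        ((ContinuousLinearMap.apply ℝ W w).comp (fderiv ℝ (fderiv ℝ G') y))
        (y + (0 : V × V).2) := by simpa using Zf_hasD hG' w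
    exact (HasFDerivAt.comp (f := fun p : V × V => x + p.1) (0 : V × V) h3 h1).sub
      (HasFDerivAt.comp (f := fun p : V × V => y + p.2) (0 : V × V) h4 h2)
  have hI := hU.inner ℝ hD
  have h6 := (hZ3.congr_of_eventuallyEq hE.symm).unique hI
  have h7 := congrArg (fun L : V × V →L[ℝ] ℝ => L (v, w)) h6
  simp only [ContinuousLinearMap.comp_apply, ContinuousLinearMap.apply_apply] at h7
  rw [h7]
  simp [d, d2, add_comm]

end Pool.Agent.H.MP_4ac55f_gt.RP
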