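import Pool.Agent.H.MP_4ac55f_gt.RP.Tr
import Pool.Agent.H.MP_4ac55f_gt.RP.Mm
import Pool.Agent.H.MP_4ac55f_gt.RP.Zf
import Pool.Agent.H.MP_4ac55f_gt.RP.Mi

/-!
# The key inequality at a max-min point  (module Ki)

`(x, y)` is a max-min point at the time `t`, `ξ = G t x - G' t y`, `‖ξ‖ ≤ ε`. `y` is interior (`min_close`), unique (`min_unique`), `ξ ⊥ d (G' t) y u` (`min_normal`).
Let `v ⊥ x`. `s k = 1 / (k + K)`, `x k = ‖x + s k v‖⁻¹ • (x + s k v)`, `y k` a minimizer for `x k` (`min_exists`), `y k → y` (`min_tendsto` with `pk k = G t (x k)`), `w k = ⟪y, y k⟫⁻¹ • y k - y ∈ yᗮ`, `w k → 0`,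
`G' t (y + w k) = G' t (y k)` (`hom`). For `f = Z (G t) (G' t) x y`: `f (s k v, w k) = ‖G t (x k) - G' t (y k)‖² / 2 ≤ f 0` (MaxMin) `≤ f (0, w k)` for large `k` (`y k` is in the `r`-ball of `x`, `IsMin`).
`first_le` for `v` and `-v`: `fderiv f 0 (v, 0) = 0`: `⟪ξ, d (G t) x v⟫ = 0` (`Z_d`). `h2`: `Z_d`, `min_normal`. `hpos`: `Z_d2`: `‖d G' w‖² - ⟪ξ, d2 G' w w⟫ ≥ (c₀² - C ε) ‖w‖² > 0`.
`maxmin` with `TY = yᗮ` gives `w i` for `v = e i`, then `trace_ineq` (constants `L, d₀` from it; `ε ≤ d₀`, `C ε < c₀²`, `2 ε < c₁ r`, `2 C ε < c₁²`).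
-/

set_option autoImplicit false

open scoped InnerProductSpace ContDiff Topology
open Set Metric Filter

namespace Pool.Agent.H.MP_4ac55f_gt.RP

variable {V W : Type*} [NormedAddCommGroup V] [InnerProductSpace ℝ V] [FiniteDimensional ℝ V]
  [NormedAddCommGroup W] [InnerProductSpace ℝ W]

/-- sequences which approach the max-min point -/
private theorem Ki_seq {n : ℕ} {T T₁ : ℝ} {G G' : ℝ → V → W}
    (h : Flow n T G) (h' : Flow n T G') (hT₁ : T₁ < T) {c₀ c₁ r C : ℝ}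
    (hc' : Cst T₁ G' c₀ c₁ r C) {ε : ℝ} (hε1 : 2 * ε < c₁ * r) (hε2 : 2 * C * ε < c₁ ^ 2) {t : ℝ}
    (ht : t ∈ Icc 0 T₁) {x y : V} (hcl : ‖G t x - G' t x‖ ≤ ε)
    (hm : MaxMin (G t) (G' t) r x y) {v : V} (hv : ⟪x, v⟫_ℝ = 0) :
    ∃ (s : ℕ → ℝ) (w : ℕ → V), (∀ k, 0 < s k) ∧ Tendsto s atTop (𝓝 0) ∧ (∀ k, ⟪y, w k⟫_ℝ = 0) ∧
      Tendsto w atTop (𝓝 0) ∧ (∀ k, Z (G t) (G' t) x y (s k • v, w k) ≤ Z (G t) (G' t) x y 0) ∧
      ∀ k, Z (G t) (G' t) x y 0 ≤ Z (G t) (G' t) x y (0, w k) := by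
  obtain ⟨hx, hy, hmax⟩ := hm
  have htT : t ∈ Ico 0 T := ⟨ht.1, ht.2.trans_lt hT₁⟩
  have hx0 : x ≠ 0 := fun h0 => by rw [h0, norm_zero] at hx; exact zero_ne_one hx
  have hc1 := hc'.hc₁
  have hyx : ‖y - x‖ < r := by
    have h1 := min_close hc' ht hx hcl hy
    by_contra hcon
    rw [not_lt] at hcon
    have h2 : c₁ * r ≤ c₁ * ‖y - x‖ := mul_le_mul_of_nonneg_left hcon hc1.le
    linarith
  have huniq : ∀ y', IsMin (G' t) (G t x) x r y' → y' = y := fun y' hy' =>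
    (min_unique h' hT₁ hc' ht hx hcl hε1 hε2 hy hy').symm
  have hy1 : ‖y‖ = 1 := hy.1
  -- the sequences
  have hs0 : ∀ k : ℕ, (0:ℝ) < 1 / ((k : ℝ) + 1) := fun k => by positivity
  have hst : Tendsto (fun k : ℕ => 1 / ((k : ℝ) + 1)) atTop (𝓝 0) :=
    tendsto_one_div_add_atTop_nhds_zero_nat
  have hzn : ∀ a : ℝ, x + a • v ≠ 0 := by
    intro a h0
    have h1 : ⟪x, x + a • v⟫_ℝ = 1 := by
      rw [inner_add_right, real_inner_self_eq_norm_sq, hx, inner_smul_right, hv]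
      norm_num
    rw [h0, inner_zero_right] at h1
    exact zero_ne_one h1
  obtain ⟨xk, hxk⟩ : ∃ xk : ℕ → V, ∀ k, xk k =
      ‖x + (1 / ((k : ℝ) + 1)) • v‖⁻¹ • (x + (1 / ((k : ℝ) + 1)) • v) := ⟨_, fun k => rfl⟩
  have hxk1 : ∀ k, ‖xk k‖ = 1 := by
    intro k
    rw [hxk, norm_smul, norm_inv, norm_norm, inv_mul_cancel₀ (norm_ne_zero_iff.2 (hzn _))]
  have hGx : ∀ k, G t (xk k) = G t (x + (1 / ((k : ℝ) + 1)) • v) := by
    intro k
    rw [hxk]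
    exact h.hom t htT _ (inv_pos.2 (norm_pos_iff.2 (hzn _))) _ (hzn _)
  have hzt : Tendsto (fun k : ℕ => x + (1 / ((k : ℝ) + 1)) • v) atTop (𝓝 x) := by
    have h1 : Tendsto (fun k : ℕ => x + (1 / ((k : ℝ) + 1)) • v) atTop (𝓝 (x + (0:ℝ) • v)) :=
      (hst.smul_const v).const_add x
    rwa [zero_smul, add_zero] at h1
  have hxt : Tendsto xk atTop (𝓝 x) := by
    have h1 : Tendsto (fun k : ℕ => ‖x + (1 / ((k : ℝ) + 1)) • v‖⁻¹ •
        (x + (1 / ((k : ℝ) + 1)) • v)) atTop (𝓝 (‖x‖⁻¹ • x)) :=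
      (hzt.norm.inv₀ (by rw [hx]; exact one_ne_zero)).smul hzt
    rw [hx, inv_one, one_smul] at h1
    exact h1.congr fun k => (hxk k).symm
  have hGc : ContinuousAt (G t) x :=
    ((h.c2 t htT).continuousOn).continuousAt (isOpen_compl_singleton.mem_nhds hx0)
  have hye : ∀ k, ∃ y', IsMin (G' t) (G t (xk k)) (xk k) r y' := fun k => by
    first
      | exact min_exists (T₁ := T₁) h' htT (G t (xk k)) (hxk1 k) hc'.hr
      | exact min_exists h' htT (G t (xk k)) (hxk1 k) hc'.hr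
  choose yk hyk using hye
  have hyt : Tendsto yk atTop (𝓝 y) :=
    min_tendsto h' htT hy hyx huniq (tk := fun _ => t) (fun _ => htT) tendsto_const_nhds
      (hGc.tendsto.comp hxt) hxt hyk
  have hit : Tendsto (fun k => ⟪y, yk k⟫_ℝ) atTop (𝓝 1) := by
    have h1 : Tendsto (fun k => ⟪y, yk k⟫_ℝ) atTop (𝓝 ⟪y, y⟫_ℝ) :=
      tendsto_const_nhds.inner hyt
    rwa [real_inner_self_eq_norm_sq, hy1, one_pow] at h1
  have hev : ∀ᶠ k in atTop, 0 < ⟪y, yk k⟫_ℝ ∧ ‖yk k - x‖ ≤ r := by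
    have h1 : Tendsto (fun k => ‖yk k - x‖) atTop (𝓝 ‖y - x‖) := (hyt.sub_const x).norm
    filter_upwards [hit.eventually (lt_mem_nhds one_pos), h1.eventually (gt_mem_nhds hyx)]
      with k h2 h3
    exact ⟨h2, h3.le⟩
  obtain ⟨K, hK⟩ := eventually_atTop.1 hev
  have hwt : Tendsto (fun k => (⟪y, yk k⟫_ℝ)⁻¹ • yk k - y) atTop (𝓝 0) := by
    have h1 : Tendsto (fun k => (⟪y, yk k⟫_ℝ)⁻¹ • yk k - y) atTop (𝓝 ((1:ℝ)⁻¹ • y - y)) :=
      ((hit.inv₀ one_ne_zero).smul hyt).sub_const y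
    rwa [inv_one, one_smul, sub_self] at h1
  have hy'0 : ∀ k, yk k ≠ 0 := fun k h0 => by
    have h1 := (hyk k).1
    rw [h0, norm_zero] at h1
    exact zero_ne_one h1
  have hGy : ∀ k, K ≤ k → G' t (y + ((⟪y, yk k⟫_ℝ)⁻¹ • yk k - y)) = G' t (yk k) := by
    intro k hk
    rw [add_sub_cancel]
    exact h'.hom t htT _ (inv_pos.2 (hK k hk).1) _ (hy'0 k)
  have hZ0 : Z (G t) (G' t) x y 0 = ‖G t x - G' t y‖ ^ 2 / 2 := by
    simp [Z]
  refine ⟨fun k => 1 / (((k + K : ℕ) : ℝ) + 1), fun k => (⟪y, yk (k + K)⟫_ℝ)⁻¹ • yk (k + K) - y,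
    fun k => hs0 _, (tendsto_add_atTop_iff_nat K).2 hst, fun k => ?_,
    (tendsto_add_atTop_iff_nat K).2 hwt, fun k => ?_, fun k => ?_⟩
  · have h1 := (hK (k + K) (Nat.le_add_left K k)).1
    rw [inner_sub_right, inner_smul_right, inv_mul_cancel₀ h1.ne', real_inner_self_eq_norm_sq, hy1]
    norm_num
  · rw [hZ0]
    show ‖G t (x + (1 / (((k + K : ℕ) : ℝ) + 1)) • v) -
      G' t (y + ((⟪y, yk (k + K)⟫_ℝ)⁻¹ • yk (k + K) - y))‖ ^ 2 / 2 ≤ _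
    rw [← hGx, hGy _ (Nat.le_add_left K k)]
    have h1 := hmax (xk (k + K)) (hxk1 _) (yk (k + K)) (hyk _)
    have h2 := pow_le_pow_left₀ (norm_nonneg _) h1 2
    linarith
  · rw [hZ0]
    show _ ≤ ‖G t (x + 0) - G' t (y + ((⟪y, yk (k + K)⟫_ℝ)⁻¹ • yk (k + K) - y))‖ ^ 2 / 2
    rw [add_zero, hGy _ (Nat.le_add_left K k)]
    have h1 := hy.2.2 (yk (k + K)) (hyk _).1 (hK _ (Nat.le_add_left K k)).2
    have h2 := pow_le_pow_left₀ (norm_nonneg _) h1 2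
    linarith

theorem key {n : ℕ} (hV : Module.finrank ℝ V = n + 1) {T T₁ : ℝ} {G G' : ℝ → V → W}
    (h : Flow n T G) (h' : Flow n T G') (hT₁ : T₁ < T) {c₀ c₁ r C : ℝ}
    (hc' : Cst T₁ G' c₀ c₁ r C) : ∃ L ε : ℝ, 0 < L ∧ 0 < ε ∧ 2 * ε < c₁ * r ∧
    2 * C * ε < c₁ ^ 2 ∧ ∀ t ∈ Icc 0 T₁, (∀ x : V, ‖x‖ = 1 → ‖G t x - G' t x‖ ≤ ε) →
    ∀ x y : V, MaxMin (G t) (G' t) r x y → ∀ e e' : Fin n → V, IsFrame (G t) x e →
    IsFrame (G' t) y e' →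
    ⟪G t x - G' t y, mcv (G t) x e - mcv (G' t) y e'⟫_ℝ ≤ L * ‖G t x - G' t y‖ ^ 2 := by
  have hC := hc'.hC
  have hc0 := hc'.hc₀
  have hc1 := hc'.hc₁
  have hr := hc'.hr
  obtain ⟨L, d₀, hL, hd0, htr⟩ := trace_ineq (W := W) n hV hC hc0
  obtain ⟨ε, hεe⟩ : ∃ ε, ε = min d₀ (min (c₁ * r / 4) (min (c₁ ^ 2 / (4 * C)) (c₀ ^ 2 / (2 * C)))) :=
    ⟨_, rfl⟩
  have hε0 : 0 < ε := by
    rw [hεe]
    exact lt_min hd0 (lt_min (by positivity) (lt_min (by positivity) (by positivity)))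
  have hεd : ε ≤ d₀ := hεe ▸ min_le_left _ _
  have hε1 : 2 * ε < c₁ * r := by
    have h1 : ε ≤ c₁ * r / 4 := hεe ▸ (min_le_right _ _).trans (min_le_left _ _)
    have h2 : 0 < c₁ * r := mul_pos hc1 hr
    linarith
  have hε2 : 2 * C * ε < c₁ ^ 2 := by
    have h1 : ε ≤ c₁ ^ 2 / (4 * C) :=
      hεe ▸ (min_le_right _ _).trans ((min_le_right _ _).trans (min_le_left _ _))
    rw [le_div_iff₀ (by positivity)] at h1
    have h2 : 0 < c₁ ^ 2 := by positivity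
    linarith
  have hε3 : C * ε < c₀ ^ 2 := by
    have h1 : ε ≤ c₀ ^ 2 / (2 * C) :=
      hεe ▸ (min_le_right _ _).trans ((min_le_right _ _).trans (min_le_right _ _))
    rw [le_div_iff₀ (by positivity)] at h1
    have h2 : 0 < c₀ ^ 2 := by positivity
    linarith
  refine ⟨L, ε, hL, hε0, hε1, hε2, ?_⟩
  intro t ht hclose x y hm e e' he he'
  have htT : t ∈ Ico 0 T := ⟨ht.1, ht.2.trans_lt hT₁⟩
  obtain ⟨hx, hy, -⟩ := id hm
  have hy1 : ‖y‖ = 1 := hy.1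
  have hcl := hclose x hx
  have hx0 : x ≠ 0 := fun h0 => by rw [h0, norm_zero] at hx; exact zero_ne_one hx
  have hy0 : y ≠ 0 := fun h0 => by rw [h0, norm_zero] at hy1; exact zero_ne_one hy1
  have hyx : ‖y - x‖ < r := by
    have h1 := min_close hc' ht hx hcl hy
    by_contra hcon
    rw [not_lt] at hcon
    have h2 : c₁ * r ≤ c₁ * ‖y - x‖ := mul_le_mul_of_nonneg_left hcon hc1.le
    linarith
  have hξ : ‖G t x - G' t y‖ ≤ ε := by
    refine (hy.2.2 x hx ?_).trans hcl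
    rw [sub_self, norm_zero]
    exact hr.le
  have hsG : ContDiffAt ℝ 2 (G t) x := (h.c2 t htT).contDiffAt (isOpen_compl_singleton.mem_nhds hx0)
  have hsG' : ContDiffAt ℝ 2 (G' t) y :=
    (h'.c2 t htT).contDiffAt (isOpen_compl_singleton.mem_nhds hy0)
  have hZs := Z_smooth hsG hsG'
  have hny : ∀ w : V, ⟪G t x - G' t y, d (G' t) y w⟫_ℝ = 0 := min_normal h' htT hy hyx
  have hd0' : ∀ (F : V → W) (z : V), d F z 0 = 0 := fun F z => by simp [d]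
  have hnx1 : ∀ v : V, ⟪x, v⟫_ℝ = 0 → ⟪G t x - G' t y, d (G t) x v⟫_ℝ ≤ 0 := by
    intro v hv
    obtain ⟨s, w, h1, h2, h3, h4, h5, h6⟩ := Ki_seq h h' hT₁ hc' hε1 hε2 ht hcl hm hv
    have h7 := first_le hZs h1 h2 h4 fun k => (h5 k).trans (h6 k)
    rwa [Z_d hsG hsG', hd0', sub_zero] at h7
  have hnx : ∀ v : V, ⟪x, v⟫_ℝ = 0 → ⟪G t x - G' t y, d (G t) x v⟫_ℝ = 0 := by
    intro v hv
    have h1 := hnx1 v hv
    have h2 := hnx1 (-v) (by rw [inner_neg_right, hv, neg_zero])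
    have h3 : d (G t) x (-v) = - d (G t) x v := by simp [d]
    rw [h3, inner_neg_right] at h2
    linarith
  have hw : ∀ i, ∃ w : V, ⟪y, w⟫_ℝ = 0 ∧ ‖d (G t) x (e i) - d (G' t) y w‖ ^ 2 +
      ⟪G t x - G' t y, d2 (G t) x (e i) (e i)⟫_ℝ -
      ⟪G t x - G' t y, d2 (G' t) y w w⟫_ℝ ≤ 0 := by
    intro i
    obtain ⟨s, w, h1, h2, h3, h4, h5, -⟩ := Ki_seq h h' hT₁ hc' hε1 hε2 ht hcl hm (he.1 i)
    obtain ⟨u, hu, h6⟩ := maxmin (TY := (ℝ ∙ y)ᗮ) hZs (v := e i) h1 h2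
      (fun k => Submodule.mem_orthogonal_singleton_iff_inner_right.2 (h3 k)) h4 h5
      (by rw [Z_d hsG hsG', hd0', sub_zero]; exact hnx _ (he.1 i))
      (fun w _ => by
        rw [Z_d hsG hsG', hd0', zero_sub, inner_neg_right, hny w, neg_zero])
      (fun w hw hw0 => by
        have hyw : ⟪y, w⟫_ℝ = 0 := Submodule.mem_orthogonal_singleton_iff_inner_right.1 hw
        rw [Z_d2 hsG hsG', hd0', zero_sub, norm_neg]
        have h7 : d2 (G t) x 0 0 = 0 := by simp [d2]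
        rw [h7, zero_sub, inner_neg_right]
        have h8 := hc'.lo t ht y hy1 w hyw
        have h9 := hc'.hs t ht y hy1 w w
        have h10 : ⟪G t x - G' t y, d2 (G' t) y w w⟫_ℝ ≤ ε * (C * ‖w‖ * ‖w‖) := by
          refine (real_inner_le_norm _ _).trans ?_
          exact mul_le_mul hξ h9 (norm_nonneg _) hε0.le
        have h11 : (c₀ * ‖w‖) ^ 2 ≤ ‖d (G' t) y w‖ ^ 2 :=
          pow_le_pow_left₀ (by positivity) h8 2
        have h12 : 0 < ‖w‖ := norm_pos_iff.2 hw0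
        have h13 : 0 < (c₀ ^ 2 - C * ε) * ‖w‖ ^ 2 := by
          have : 0 < c₀ ^ 2 - C * ε := by linarith
          positivity
        nlinarith)
    refine ⟨u, Submodule.mem_orthogonal_singleton_iff_inner_right.1 hu, ?_⟩
    rw [Z_d2 hsG hsG', inner_sub_right] at h6
    linarith
  choose w hw1 hw2 using hw
  exact htr (G t) (G' t) x y e e' w (G t x - G' t y) hx hy1 (h.imm t htT) (h'.imm t htT) he he'
    (hc'.lo t ht y hy1) (hc'.hs t ht y hy1) hw1 hnx (fun v _ => hny v) (hξ.trans hεd) hw2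

end Pool.Agent.H.MP_4ac55f_gt.RP
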