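import Pool.Agent.H.MP_4ac55f_gt.RP.Sy
import Pool.Agent.H.MP_4ac55f_gt.RP.AlgB
import Pool.Agent.H.MP_4ac55f_gt.RP.Cl
import Pool.Agent.H.MP_4ac55f_gt.RP.Co

/-!
# Every solution starting at `F0` has a double point  (module Main)

`T' : ℝ` with `t < T' ≤ T`; `flow_of`. `R₁ = diag (-1, -1, -1, 1)`, `A₁ = diag (-1, .., -1, 1)`; `R₂ = diag (1, 1, 1, -1)`, `A₂ = diag (1, 1, 1, -1, -1, -1, 1)`: `A G0 (R x) = G0 x`. `flow_sym` and `uniq`:
`ext (F t) x = A (ext (F t) (R x))` for unit `x`. `x = N`, `R₁ N = N`: the first six components of `F t N` vanish; `R₂`, `x = -N`: `F t (-N) = A₂ (F t N) = F t N`.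
-/

set_option autoImplicit false

open scoped InnerProductSpace ContDiff Topology
open Set Metric Filter

namespace Pool.Agent.H.MP_4ac55f_gt.RP

/-- diagonal matrix with entries `1` and `-1` -/
noncomputable def Main_dg {n : ℕ} (s : Fin n → Bool) :
    EuclideanSpace ℝ (Fin n) ≃ₗᵢ[ℝ] EuclideanSpace ℝ (Fin n) :=
  LinearIsometryEquiv.piLpCongrRight 2 fun i =>
    if s i then LinearIsometryEquiv.neg ℝ else LinearIsometryEquiv.refl ℝ ℝ

theorem Main_dg_apply {n : ℕ} (s : Fin n → Bool) (x : EuclideanSpace ℝ (Fin n)) (i : Fin n) :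
    Main_dg s x i = if s i then - x i else x i := by
  unfold Main_dg
  rw [LinearIsometryEquiv.piLpCongrRight_apply]
  by_cases h : s i
  · simp [h]
  · simp [h]

theorem Main_sym {T : EReal} {F : ℝ → sphere (0 : EuclideanSpace ℝ (Fin 4)) 1 →
    EuclideanSpace ℝ (Fin 7)} (hF : IsMCF 3 T F) (h0 : F 0 = F0) {t : ℝ} (ht : t ∈ I T)
    (s : Fin 4 → Bool) (s' : Fin 7 → Bool)
    (hs : ∀ x : EuclideanSpace ℝ (Fin 4), Main_dg s' (G0 (Main_dg s x)) = G0 x)
    (x : sphere (0 : EuclideanSpace ℝ (Fin 4)) 1) :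
    F t x = Main_dg s' (ext (F t) (Main_dg s x)) := by
  obtain ⟨T', hT1, hT2⟩ := EReal.lt_iff_exists_real_btwn.1 ht.2
  have hfl := flow_of hF hT2.le
  have hfl' := flow_sym hfl (Main_dg s) (Main_dg s')
  have hV : Module.finrank ℝ (EuclideanSpace ℝ (Fin 4)) = 3 + 1 := by simp
  have h1 := uniq hV hfl hfl' (fun y hy => ?_) t ⟨ht.1, EReal.coe_lt_coe_iff.1 hT1⟩ (x : _)
    (mem_sphere_zero_iff_norm.1 x.2)
  · rw [ext_coe] at h1
    exact h1
  · have e1 : ∀ z : EuclideanSpace ℝ (Fin 4), ‖z‖ = 1 → ext (F 0) z = G0 z := by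
      intro z hz
      have h2 := ext_coe (F 0) ⟨z, mem_sphere_zero_iff_norm.2 hz⟩
      rw [h0] at h2 ⊢
      exact h2
    show ext (F 0) y = Main_dg s' (ext (F 0) (Main_dg s y))
    rw [e1 y hy, e1 _ (by rw [LinearIsometryEquiv.norm_map]; exact hy), hs]

theorem poles {T : EReal} {F : ℝ → sphere (0 : EuclideanSpace ℝ (Fin 4)) 1 →
    EuclideanSpace ℝ (Fin 7)} (hF : IsMCF 3 T F) (h0 : F 0 = F0) {t : ℝ} (ht : t ∈ I T) :
    F t N = F t (-N) := by
  have hN : ∀ i : Fin 4, (N : EuclideanSpace ℝ (Fin 4)) i = if i = 3 then 1 else 0 := by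
    intro i
    show (EuclideanSpace.single (3 : Fin 4) (1 : ℝ)) i = _
    rw [PiLp.single_apply]
  -- the first symmetry
  have h1 := Main_sym hF h0 ht ![true, true, true, false]
    ![true, true, true, true, true, true, false] (by
      intro x
      ext i
      rw [Main_dg_apply]
      fin_cases i <;> simp [G0, Main_dg_apply]) N
  have h2 : Main_dg ![true, true, true, false] (N : EuclideanSpace ℝ (Fin 4)) = N := by
    ext i
    rw [Main_dg_apply, hN]
    fin_cases i <;> simp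
  rw [h2, ext_coe] at h1
  have h3 : ∀ i : Fin 7, i ≠ 6 → F t N i = 0 := by
    intro i hi
    have h4 := congrArg (fun v : EuclideanSpace ℝ (Fin 7) => v i) h1
    simp only [Main_dg_apply] at h4
    have h5 : (![true, true, true, true, true, true, false] : Fin 7 → Bool) i = true := by
      fin_cases i <;> simp at hi ⊢
    rw [h5, if_pos rfl] at h4
    linarith
  -- the second symmetry
  have h6 := Main_sym hF h0 ht ![false, false, false, true]
    ![false, false, false, true, true, true, false] (by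
      intro x
      ext i
      rw [Main_dg_apply]
      fin_cases i <;> simp [G0, Main_dg_apply]) (-N)
  have h7 : Main_dg ![false, false, false, true] ((-N : sphere (0 : EuclideanSpace ℝ (Fin 4)) 1) :
      EuclideanSpace ℝ (Fin 4)) = N := by
    ext i
    rw [Main_dg_apply]
    have h8 : ((-N : sphere (0 : EuclideanSpace ℝ (Fin 4)) 1) : EuclideanSpace ℝ (Fin 4)) i =
        - (N : EuclideanSpace ℝ (Fin 4)) i := rfl
    rw [h8, hN]
    fin_cases i <;> simp
  rw [h7, ext_coe] at h6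
  rw [h6]
  ext i
  rw [Main_dg_apply]
  by_cases hi : i = 6
  · subst hi
    simp
  · rw [h3 i hi]
    simp

theorem not_round {T : ℝ} {F : ℝ → sphere (0 : EuclideanSpace ℝ (Fin 4)) 1 →
    EuclideanSpace ℝ (Fin 7)} (hF : IsMCF 3 (T : EReal) F) (h0 : F 0 = F0) :
    ¬ RoundLimit T F := by
  rintro ⟨L, hL⟩
  obtain ⟨t, -, ht0, htT, a, p, φ, ha, hφ, hc⟩ := hL (1 / 2) one_half_pos (T - 1) (by linarith)
  have hinj := close_inj hc
  have hp := poles hF h0 (t := t) ⟨ht0, EReal.coe_lt_coe_iff.2 htT⟩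
  obtain ⟨x, hx⟩ := hφ.2 N
  obtain ⟨y, hy⟩ := hφ.2 (-N)
  have hxy : x = y := by
    apply hinj
    show a • (F t (φ x) - p) = a • (F t (φ y) - p)
    rw [hx, hy, hp]
  have h1 : N = -N := hx.symm.trans ((congrArg φ hxy).trans hy)
  have h2 := congrArg (fun v : sphere (0 : EuclideanSpace ℝ (Fin 4)) 1 =>
    (v : EuclideanSpace ℝ (Fin 4)) 3) h1
  have h3 : (N : EuclideanSpace ℝ (Fin 4)) 3 = - (N : EuclideanSpace ℝ (Fin 4)) 3 := h2
  have h4 : (N : EuclideanSpace ℝ (Fin 4)) 3 = 1 := by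
    show (EuclideanSpace.single (3 : Fin 4) (1 : ℝ)) 3 = _
    rw [PiLp.single_apply, if_pos rfl]
  rw [h4] at h3
  norm_num at h3

end Pool.Agent.H.MP_4ac55f_gt.RP
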