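import Pool.Agent.H.MP_4ac55f_gt.RP.Ht

/-!
# The reparametrisation is trivial  (module Rp)

Fix `ε` of `dist_zero`. For `t ∈ [t₀, t₁]` and unit `x` let `y t x` be the minimizer: `G t x = G' t (y t x)`, `c₁ ‖y t x - x‖ ≤ 2 ε`, so `‖y t x - x‖ < r`. (1) For unit `x, x'` near each other and `s, t` near each other
`‖y s x' - y t x‖ ≤ 2 r`, so `c₁ ‖y t x' - y t x‖ ≤ ‖G t x' - G t x‖ ≤ C ‖x' - x‖`. (2) `d (G t) x v` (`v ⊥ x`) is the limit of `(G t (x + s v) - G t x) / s = (G' t (y t x_s) - G' t (y t x)) / s`, at distance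
`≤ C ‖y t x_s - y t x‖² / s → 0` from the range of `d (G' t) (y t x)` (`tay`), closed: so `d (G t) x v ∈ range (d (G' t) (y t x))` on `yᗮ`; equal dimensions (`Imm`): the two ranges agree. (3) Fixed `x`, `y s = y s x`:
`c₁ ‖y s - y t‖ ≤ ‖G' s (y s) - G' s (y t)‖ ≤ ‖G s x - G t x‖ + ‖G' s (y t) - G' t (y t)‖ ≤ K_t |s - t|` for `s` near `t` (`Flow.eq`). (4) `(G' s (y s) - G' s (y t)) / (s - t) = (G s x - G t x) / (s - t) - (G' s (y t) - G' t (y t)) / (s - t) → mcv (G t) x - mcv (G' t) (y t)`,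
which is normal to the common range (`inner_d_nor`), while the left side is within `o(1)` of `d (G' t) (y t) ((y s - y t) / (s - t))` (`tay`, `k1`), in the range: so the limit is `0` and `(y s - y t) / (s - t) → 0`
(`inj` again: `c₁ ‖y s - y t‖ ≤ ‖G' s (y s) - G' s (y t)‖`). So `y` has derivative `0` on `[t₀, t₁]` (within), `y t = y t₀ = x` (`constant_of_has_deriv_right_zero`; `y t₀ = x` by `inj`).
-/

set_option autoImplicit false

open scoped InnerProductSpace ContDiff Topology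
open Set Metric Filter

namespace Pool.Agent.H.MP_4ac55f_gt.RP

variable {V W : Type*} [NormedAddCommGroup V] [InnerProductSpace ℝ V] [FiniteDimensional ℝ V]
  [NormedAddCommGroup W] [InnerProductSpace ℝ W]

omit [FiniteDimensional ℝ V] in
/-- normalising `x + s v` moves it little -/
theorem Rp_norm {x v : V} (hx : ‖x‖ = 1) (s : ℝ) (hs : x + s • v ≠ 0) :
    ‖‖x + s • v‖⁻¹ • (x + s • v) - x‖ ≤ 2 * (|s| * ‖v‖) := by
  set z := x + s • v with hz
  have hz0 : 0 < ‖z‖ := norm_pos_iff.2 hs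
  have h1 : ‖z - x‖ = |s| * ‖v‖ := by
    rw [hz, add_sub_cancel_left, norm_smul, Real.norm_eq_abs]
  have h2 : ‖‖z‖⁻¹ • z - z‖ = |1 - ‖z‖| := by
    have : ‖z‖⁻¹ • z - z = (‖z‖⁻¹ - 1) • z := by rw [sub_smul, one_smul]
    rw [this, norm_smul, Real.norm_eq_abs]
    rw [← abs_of_pos hz0, ← abs_mul, abs_of_pos hz0, sub_mul, inv_mul_cancel₀ hz0.ne', one_mul]
  have h3 : |1 - ‖z‖| ≤ ‖z - x‖ := by
    rw [← hx, norm_sub_rev]
    exact abs_norm_sub_norm_le x z
  calc ‖‖z‖⁻¹ • z - x‖ = ‖(‖z‖⁻¹ • z - z) + (z - x)‖ := by congr 1; abel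
    _ ≤ ‖‖z‖⁻¹ • z - z‖ + ‖z - x‖ := norm_add_le _ _
    _ ≤ ‖z - x‖ + ‖z - x‖ := by rw [h2]; linarith
    _ = 2 * (|s| * ‖v‖) := by rw [h1]; ring

/-- tangent vectors of `g` are in the range of the differential of `g'` -/
theorem Rp_mem {g g' : V → W} {x y₀ : V} (v : V) (hx : ‖x‖ = 1) (hg : DifferentiableAt ℝ g x)
    (hom : ∀ r : ℝ, 0 < r → ∀ z : V, z ≠ 0 → g (r • z) = g z)
    {y : V → V} {C ρ : ℝ} (hC : 0 ≤ C) (hρ : 0 < ρ)
    (hy : ∀ x' : V, ‖x'‖ = 1 → ‖x' - x‖ ≤ ρ →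
      ‖g x' - g x - d g' y₀ (y x' - y₀)‖ ≤ C * ‖x' - x‖ ^ 2) :
    d g x v ∈ LinearMap.range (fderiv ℝ g' y₀ : V →ₗ[ℝ] W) := by
  have hD : HasDerivAt (fun s : ℝ => g (x + s • v)) (d g x v) 0 := by
    have h1 : HasDerivAt (fun s : ℝ => x + s • v) v 0 := by
      simpa using ((hasDerivAt_id (0 : ℝ)).smul_const v).const_add x
    have h2 : HasFDerivAt g (fderiv ℝ g x) (x + (0 : ℝ) • v) := by
      simpa using hg.hasFDerivAt
    exact h2.comp_hasDerivAt (0 : ℝ) h1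
  rw [hasDerivAt_iff_tendsto_slope_zero] at hD
  simp only [zero_add, zero_smul, add_zero] at hD
  have hx0 : x ≠ 0 := by
    intro h0
    rw [h0, norm_zero] at hx
    exact zero_ne_one hx
  have hcont : Tendsto (fun s : ℝ => x + s • v) (𝓝[≠] 0) (𝓝 x) := by
    have : Continuous fun s : ℝ => x + s • v := by fun_prop
    have h2 := this.tendsto 0
    simp only [zero_smul, add_zero] at h2
    exact h2.mono_left nhdsWithin_le_nhds
  have hne : ∀ᶠ s : ℝ in 𝓝[≠] 0, x + s • v ≠ 0 := hcont.eventually_ne hx0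
  have hsm : ∀ᶠ s : ℝ in 𝓝[≠] 0, 2 * (|s| * ‖v‖) ≤ ρ := by
    have : Tendsto (fun s : ℝ => 2 * (|s| * ‖v‖)) (𝓝[≠] 0) (𝓝 (2 * (|0| * ‖v‖))) := by
      have hc : Continuous fun s : ℝ => 2 * (|s| * ‖v‖) := by fun_prop
      exact (hc.tendsto 0).mono_left nhdsWithin_le_nhds
    simp only [abs_zero, zero_mul, mul_zero] at this
    exact (this.eventually (gt_mem_nhds hρ)).mono fun s hs => hs.le
  let q : ℝ → W := fun s => d g' y₀ (s⁻¹ • (y (‖x + s • v‖⁻¹ • (x + s • v)) - y₀))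
  have hq : ∀ᶠ s : ℝ in 𝓝[≠] 0, ‖s⁻¹ • (g (x + s • v) - g x) - q s‖ ≤ 4 * C * ‖v‖ ^ 2 * |s| := by
    filter_upwards [hne, hsm, self_mem_nhdsWithin] with s h1 h2 h3
    have h3' : s ≠ 0 := h3
    have hz : 0 < ‖x + s • v‖ := norm_pos_iff.2 h1
    set x' := ‖x + s • v‖⁻¹ • (x + s • v) with hx'
    have hx'1 : ‖x'‖ = 1 := by
      rw [hx', norm_smul, norm_inv, norm_norm, inv_mul_cancel₀ hz.ne']
    have hn := Rp_norm (v := v) hx s h1
    have hg' : g (x + s • v) = g x' := (hom _ (inv_pos.2 hz) _ h1).symm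
    have hb := hy x' hx'1 (hn.trans h2)
    have hqs : q s = s⁻¹ • d g' y₀ (y x' - y₀) := by
      simp only [q]
      rw [← hx']
      exact map_smul (fderiv ℝ g' y₀) _ _
    have he : s⁻¹ • (g (x + s • v) - g x) - q s = s⁻¹ • (g x' - g x - d g' y₀ (y x' - y₀)) := by
      rw [hqs, hg', ← smul_sub]
    rw [he, norm_smul, norm_inv, Real.norm_eq_abs]
    have hs0 : 0 < |s| := abs_pos.2 h3'
    calc |s|⁻¹ * ‖g x' - g x - d g' y₀ (y x' - y₀)‖ ≤ |s|⁻¹ * (C * (2 * (|s| * ‖v‖)) ^ 2) := by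
          refine mul_le_mul_of_nonneg_left (hb.trans ?_) (inv_nonneg.2 hs0.le)
          exact mul_le_mul_of_nonneg_left (pow_le_pow_left₀ (norm_nonneg _) hn 2) hC
      _ = 4 * C * ‖v‖ ^ 2 * |s| := by
          field_simp
          ring
  have hq0 : Tendsto (fun s : ℝ => s⁻¹ • (g (x + s • v) - g x) - q s) (𝓝[≠] 0) (𝓝 0) := by
    refine squeeze_zero_norm' hq ?_
    have hc : Continuous fun s : ℝ => 4 * C * ‖v‖ ^ 2 * |s| := by fun_prop
    have h2 := (hc.tendsto 0).mono_left (nhdsWithin_le_nhds (s := {0}ᶜ))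
    simpa using h2
  have hlim : Tendsto q (𝓝[≠] 0) (𝓝 (d g x v)) := by
    have := hD.sub hq0
    simpa using this
  have hcl : IsClosed (LinearMap.range (fderiv ℝ g' y₀ : V →ₗ[ℝ] W) : Set W) :=
    Submodule.closed_of_finiteDimensional _
  refine hcl.mem_of_tendsto hlim (Eventually.of_forall fun s => ?_)
  exact ⟨_, rfl⟩

theorem Rp_inner_mcv {n : ℕ} (hV : Module.finrank ℝ V = n + 1) {G : V → W} (hG : Imm G) {x : V}
    (hx : ‖x‖ = 1) {e : Fin n → V} (he : IsFrame G x e) {v : V} (hv : ⟪x, v⟫_ℝ = 0) :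
    ⟪d G x v, mcv G x e⟫_ℝ = 0 := by
  unfold mcv sff
  rw [inner_sum]
  exact Finset.sum_eq_zero fun i _ => inner_d_nor hV hG hx he hv _

/-- the two normal vectors agree if their difference is tangent -/
theorem Rp_eq {n : ℕ} (hV : Module.finrank ℝ V = n + 1) {g g' : V → W} (hg : Imm g)
    (hg' : Imm g') {x y : V} (hx : ‖x‖ = 1) (hy : ‖y‖ = 1) {e e' : Fin n → V}
    (he : IsFrame g x e) (he' : IsFrame g' y e')
    (hR : ∀ v, d g x v ∈ LinearMap.range (fderiv ℝ g' y : V →ₗ[ℝ] W)) (hyy : d g' y y = 0)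
    (hl : mcv g x e - mcv g' y e' ∈ LinearMap.range (fderiv ℝ g' y : V →ₗ[ℝ] W)) :
    mcv g x e - mcv g' y e' = 0 := by
  set R := LinearMap.range (fderiv ℝ g' y : V →ₗ[ℝ] W) with hRdef
  -- every element of the range comes from a tangent vector
  have htan : ∀ w ∈ R, ∃ v : V, ⟪y, v⟫_ℝ = 0 ∧ d g' y v = w := by
    rintro w ⟨v, rfl⟩
    refine ⟨v - ⟪y, v⟫_ℝ • y, ?_, ?_⟩
    · rw [inner_sub_right, inner_smul_right, real_inner_self_eq_norm_sq, hy]
      ring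
    · have : d g' y (v - ⟪y, v⟫_ℝ • y) = d g' y v - ⟪y, v⟫_ℝ • d g' y y := by
        simp only [d, map_sub, map_smul]
      rw [this, hyy, smul_zero, sub_zero]
      rfl
  have hle : R ≤ Submodule.span ℝ (Set.range fun j => d g' y (e' j)) := by
    intro w hw
    obtain ⟨v, hv, rfl⟩ := htan w hw
    have h1 := frame_span hV hg' hy he' hv
    have h2 : d g' y v = ∑ i, ⟪d g' y (e' i), d g' y v⟫_ℝ • d g' y (e' i) := by
      conv_lhs => rw [h1]
      simp only [d, map_sum, map_smul]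
    rw [h2]
    exact Submodule.sum_mem _ fun i _ => Submodule.smul_mem _ _ (Submodule.subset_span ⟨i, rfl⟩)
  have hfinR : Module.finrank ℝ R ≤ n := by
    have : FiniteDimensional ℝ (Submodule.span ℝ (Set.range fun j => d g' y (e' j))) :=
      FiniteDimensional.span_of_finite ℝ (Set.finite_range _)
    have h1 := Submodule.finrank_mono hle
    have h2 := finrank_range_le_card (R := ℝ) (fun j => d g' y (e' j))
    rw [Fintype.card_fin] at h2
    exact h1.trans h2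
  have horth : Orthonormal ℝ fun i => d g x (e i) := by
    rw [orthonormal_iff_ite]
    exact he.2
  have hS : Submodule.span ℝ (Set.range fun i => d g x (e i)) ≤ R := by
    rw [Submodule.span_le]
    rintro _ ⟨i, rfl⟩
    exact hR _
  have hfinS : Module.finrank ℝ (Submodule.span ℝ (Set.range fun i => d g x (e i))) = n := by
    rw [finrank_span_eq_card horth.linearIndependent, Fintype.card_fin]
  have hSR : Submodule.span ℝ (Set.range fun i => d g x (e i)) = R :=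
    Submodule.eq_of_le_of_finrank_le hS (hfinR.trans hfinS.ge)
  set l := mcv g x e - mcv g' y e' with hldef
  have h1 : ⟪l, mcv g x e⟫_ℝ = 0 := by
    have hl' : l ∈ Submodule.span ℝ (Set.range fun i => d g x (e i)) := by rw [hSR]; exact hl
    refine Submodule.span_induction (p := fun w _ => ⟪w, mcv g x e⟫_ℝ = 0) ?_ ?_ ?_ ?_ hl'
    · rintro _ ⟨i, rfl⟩
      exact Rp_inner_mcv hV hg hx he (he.1 i)
    · exact inner_zero_left _
    · intro a b _ _ ha hb
      rw [inner_add_left, ha, hb, add_zero]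
    · intro c a _ ha
      rw [inner_smul_left, ha, mul_zero]
  have h2 : ⟪l, mcv g' y e'⟫_ℝ = 0 := by
    obtain ⟨v, hv, hvl⟩ := htan l hl
    rw [← hvl]
    exact Rp_inner_mcv hV hg' hy he' hv
  have h3 : ⟪l, l⟫_ℝ = 0 := by
    conv_lhs => rw [show ⟪l, l⟫_ℝ = ⟪l, mcv g x e - mcv g' y e'⟫_ℝ from rfl]
    rw [inner_sub_right, h1, h2, sub_zero]
  exact inner_self_eq_zero.1 h3

theorem step {n : ℕ} (hV : Module.finrank ℝ V = n + 1) {T T₁ : ℝ} {G G' : ℝ → V → W}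
    (h : Flow n T G) (h' : Flow n T G') (hT₀ : 0 ≤ T₁) (hT₁ : T₁ < T) : ∃ ε : ℝ, 0 < ε ∧
    ∀ t₀ t₁ : ℝ, 0 ≤ t₀ → t₀ ≤ t₁ → t₁ ≤ T₁ → (∀ x : V, ‖x‖ = 1 → G t₀ x = G' t₀ x) →
    (∀ t ∈ Icc t₀ t₁, ∀ x : V, ‖x‖ = 1 → ‖G t x - G' t x‖ ≤ ε) →
    ∀ t ∈ Icc t₀ t₁, ∀ x : V, ‖x‖ = 1 → G t x = G' t x := by
  obtain ⟨c₀, c₁, r, C, hc, hc'⟩ := unif2 h h' hT₀ hT₁
  obtain ⟨ε, hε, h2, h3, H⟩ := dist_zero hV h h' hT₁ hc'
  refine ⟨ε, hε, fun t₀ t₁ ht₀ h01 h1 heq hcl => ?_⟩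
  have H' := H t₀ t₁ ht₀ h01 h1 heq hcl
  choose! y hy using H'
  have hc₁ := hc'.hc₁
  have hr := hc'.hr
  have hsub : ∀ {t : ℝ}, t ∈ Icc t₀ t₁ → t ∈ Icc 0 T₁ := fun ht =>
    ⟨ht₀.trans ht.1, ht.2.trans h1⟩
  have hsub' : ∀ {t : ℝ}, t ∈ Icc t₀ t₁ → t ∈ Ico 0 T := fun ht =>
    ⟨ht₀.trans ht.1, (ht.2.trans h1).trans_lt hT₁⟩
  -- the minimizer is near `x`
  have hnear : ∀ t ∈ Icc t₀ t₁, ∀ x : V, ‖x‖ = 1 → ‖y t x - x‖ ≤ r / 2 := by
    intro t ht x hx
    obtain ⟨⟨hy1, hy2, _⟩, hy3⟩ := hy t ht x hx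
    have h4 := hc'.inj t (hsub ht) (y t x) x hy1 hx (by linarith)
    rw [← hy3] at h4
    have h5 := hcl t ht x hx
    have h6 : c₁ * ‖y t x - x‖ < c₁ * (r / 2) := by linarith
    exact (lt_of_mul_lt_mul_left h6 hc₁.le).le
  -- the tangent spaces agree
  have htan : ∀ t ∈ Icc t₀ t₁, ∀ x : V, ‖x‖ = 1 → ∀ v,
      d (G t) x v ∈ LinearMap.range (fderiv ℝ (G' t) (y t x) : V →ₗ[ℝ] W) := by
    intro t ht x hx v
    have hx0 : x ≠ 0 := by
      intro h0
      rw [h0, norm_zero] at hx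
      exact zero_ne_one hx
    have hd : DifferentiableAt ℝ (G t) x :=
      ((h.c2 t (hsub' ht)).contDiffAt (isOpen_compl_singleton.mem_nhds hx0)).differentiableAt
        (by norm_num)
    have hC := hc'.hC
    refine Rp_mem v hx hd (h.hom t (hsub' ht)) (y := y t) (C := C * (C / c₁) ^ 2) (ρ := r)
      (by positivity) hr ?_
    intro x' hx' hxx'
    obtain ⟨⟨hy1, _, _⟩, hy3⟩ := hy t ht x hx
    obtain ⟨⟨hy1', _, _⟩, hy3'⟩ := hy t ht x' hx'
    have hn1 := hnear t ht x hx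
    have hn2 := hnear t ht x' hx'
    have hyy : ‖y t x - y t x'‖ ≤ 2 * r := by
      have e1 : y t x - y t x' = (y t x - x) + (x - x') + (x' - y t x') := by abel
      rw [e1]
      have e2 := norm_add₃_le (a := y t x - x) (b := x - x') (c := x' - y t x')
      rw [norm_sub_rev x x', norm_sub_rev x' (y t x')] at e2
      linarith
    have hi := hc'.inj t (hsub ht) (y t x) (y t x') hy1 hy1' hyy
    have hlip := hc.lip t (hsub ht) x x' hx hx' (by rw [norm_sub_rev]; linarith)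
    rw [← hy3, ← hy3'] at hi
    have hb : ‖y t x' - y t x‖ ≤ C / c₁ * ‖x' - x‖ := by
      rw [div_mul_eq_mul_div, le_div_iff₀ hc₁, mul_comm, norm_sub_rev (y t x') (y t x),
        norm_sub_rev x' x]
      exact hi.trans hlip
    have htay := hc'.tay t (hsub ht) (y t x) (y t x') hy1 hy1' hyy
    rw [hy3', hy3]
    calc ‖G' t (y t x') - G' t (y t x) - d (G' t) (y t x) (y t x' - y t x)‖
        ≤ C * ‖y t x' - y t x‖ ^ 2 := htay
      _ ≤ C * (C / c₁ * ‖x' - x‖) ^ 2 :=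
          mul_le_mul_of_nonneg_left (pow_le_pow_left₀ (norm_nonneg _) hb 2) hC.le
      _ = C * (C / c₁) ^ 2 * ‖x' - x‖ ^ 2 := by ring
  intro t ht x hx
  -- lower bound for the velocity of `y`
  have hlow : ∀ a ∈ Icc t₀ t₁, ∀ s ∈ Icc t₀ t₁,
      c₁ * ‖y s x - y a x‖ ≤ ‖G s x - G' s (y a x)‖ := by
    intro a ha s hs
    have hn1 := hnear a ha x hx
    have hn2 := hnear s hs x hx
    have hyy : ‖y s x - y a x‖ ≤ 2 * r := by
      have e1 : y s x - y a x = (y s x - x) - (y a x - x) := by abel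
      rw [e1]
      have e2 := norm_sub_le (y s x - x) (y a x - x)
      linarith
    have hi := hc'.inj s (hsub hs) (y s x) (y a x) (hy s hs x hx).1.1 (hy a ha x hx).1.1 hyy
    rwa [← (hy s hs x hx).2] at hi
  have hφ0 : ∀ a ∈ Icc t₀ t₁, G a x - G' a (y a x) = 0 := fun a ha =>
    sub_eq_zero.2 (hy a ha x hx).2
  have hcontY : ContinuousOn (fun s => y s x) (Icc t₀ t₁) := by
    intro a ha
    obtain ⟨e, he⟩ := frame_exists hV (h.imm a (hsub' ha)) hx
    obtain ⟨e', he'⟩ := frame_exists hV (h'.imm a (hsub' ha)) (hy a ha x hx).1.1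
    have hφ := ((h.eq a (hsub' ha) x hx e he).sub
      (h'.eq a (hsub' ha) (y a x) (hy a ha x hx).1.1 e' he')).continuousWithinAt.mono
        (fun s hs => hsub' hs : Icc t₀ t₁ ⊆ Ico 0 T)
    have hlim : Tendsto (fun s => c₁⁻¹ * ‖G s x - G' s (y a x)‖) (𝓝[Icc t₀ t₁] a) (𝓝 0) := by
      have := (hφ.norm.const_mul c₁⁻¹).tendsto
      simpa [hφ0 a ha] using this
    rw [ContinuousWithinAt, tendsto_iff_norm_sub_tendsto_zero]
    refine squeeze_zero' (Eventually.of_forall fun s => norm_nonneg _) ?_ hlim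
    filter_upwards [self_mem_nhdsWithin] with s hs
    rw [inv_mul_eq_div, le_div_iff₀ hc₁, mul_comm]
    exact hlow a ha s hs
  have hder : ∀ a ∈ Ico t₀ t₁, HasDerivWithinAt (fun s => y s x) 0 (Ici a) a := by
    intro a ha
    have ha' : a ∈ Icc t₀ t₁ := ⟨ha.1, ha.2.le⟩
    obtain ⟨e, he⟩ := frame_exists hV (h.imm a (hsub' ha')) hx
    obtain ⟨e', he'⟩ := frame_exists hV (h'.imm a (hsub' ha')) (hy a ha' x hx).1.1
    set Ya := y a x with hYa
    have hYa1 : ‖Ya‖ = 1 := (hy a ha' x hx).1.1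
    have hYa0 : Ya ≠ 0 := by
      intro h0
      rw [h0, norm_zero] at hYa1
      exact zero_ne_one hYa1
    set l := mcv (G a) x e - mcv (G' a) Ya e' with hl
    have hφ : HasDerivWithinAt (fun s => G s x - G' s Ya) l (Ico 0 T) a :=
      (h.eq a (hsub' ha') x hx e he).sub (h'.eq a (hsub' ha') Ya hYa1 e' he')
    have hφa : G a x - G' a Ya = 0 := hφ0 a ha'
    have hIoc : Ioc a t₁ ⊆ Icc t₀ t₁ := fun s hs => ⟨ha.1.trans hs.1.le, hs.2⟩
    have hIcc : Icc a t₁ ⊆ Icc t₀ t₁ := fun s hs => ⟨ha.1.trans hs.1, hs.2⟩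
    have hsl : Tendsto (slope (fun s => G s x - G' s Ya) a) (𝓝[>] a) (𝓝 l) := by
      rw [← nhdsWithin_Ioc_eq_nhdsGT ha.2]
      exact (hasDerivWithinAt_iff_tendsto_slope' (by simp)).1
        (hφ.mono fun s hs => hsub' (hIoc hs))
    have hYlim : Tendsto (fun s => y s x) (𝓝[>] a) (𝓝 Ya) := by
      rw [← nhdsWithin_Ioc_eq_nhdsGT ha.2]
      exact (hcontY a ha').mono hIoc
    have hΔ : Tendsto (fun s => fderiv ℝ (G' s) Ya) (𝓝[>] a) (𝓝 (fderiv ℝ (G' a) Ya)) := by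
      rw [← nhdsWithin_Ioc_eq_nhdsGT ha.2]
      have h1 : ContinuousWithinAt (fun p : ℝ × V => fderiv ℝ (G' p.1) p.2)
          (Ico 0 T ×ˢ {0}ᶜ) (a, Ya) := h'.k1 (a, Ya) ⟨hsub' ha', hYa0⟩
      have h2 : ContinuousWithinAt (fun s : ℝ => ((s, Ya) : ℝ × V)) (Ioc a t₁) a := by
        have : Continuous fun s : ℝ => ((s, Ya) : ℝ × V) := by fun_prop
        exact this.continuousWithinAt
      exact h1.comp (f := fun s : ℝ => ((s, Ya) : ℝ × V)) h2
        (fun s hs => ⟨hsub' (hIoc hs), hYa0⟩)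
    let q : ℝ → W := fun s => d (G' a) Ya ((s - a)⁻¹ • (y s x - Ya))
    have hq : ∀ᶠ s in 𝓝[>] a, ‖slope (fun s => G s x - G' s Ya) a s - q s‖ ≤
        c₁⁻¹ * ‖slope (fun s => G s x - G' s Ya) a s‖ *
          (C * ‖y s x - Ya‖ + ‖fderiv ℝ (G' s) Ya - fderiv ℝ (G' a) Ya‖) := by
      rw [← nhdsWithin_Ioc_eq_nhdsGT ha.2]
      filter_upwards [self_mem_nhdsWithin] with s hs
      have hs' := hIoc hs
      have hsa : 0 < s - a := sub_pos.2 hs.1
      have hn1 := hnear a ha' x hx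
      have hn2 := hnear s hs' x hx
      have hyy : ‖Ya - y s x‖ ≤ 2 * r := by
        have e1 : Ya - y s x = (Ya - x) - (y s x - x) := by abel
        rw [e1]
        have e2 := norm_sub_le (Ya - x) (y s x - x)
        linarith
      have htay := hc'.tay s (hsub hs') Ya (y s x) hYa1 (hy s hs' x hx).1.1 hyy
      have hlo := hlow a ha' s hs'
      have hslope : slope (fun s => G s x - G' s Ya) a s = (s - a)⁻¹ • (G s x - G' s Ya) := by
        rw [slope_def_module]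
        simp only [hφa, sub_zero]
      have hqs : q s = (s - a)⁻¹ • d (G' a) Ya (y s x - Ya) :=
        map_smul (fderiv ℝ (G' a) Ya) _ _
      have hdec : G s x - G' s Ya - d (G' a) Ya (y s x - Ya) =
          (G' s (y s x) - G' s Ya - d (G' s) Ya (y s x - Ya)) +
            (fderiv ℝ (G' s) Ya - fderiv ℝ (G' a) Ya) (y s x - Ya) := by
        rw [(hy s hs' x hx).2]
        have h11 : (fderiv ℝ (G' s) Ya - fderiv ℝ (G' a) Ya) (y s x - Ya) =
            d (G' s) Ya (y s x - Ya) - d (G' a) Ya (y s x - Ya) := rfl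
        rw [h11]
        abel
      have hbound : ‖G s x - G' s Ya - d (G' a) Ya (y s x - Ya)‖ ≤
          ‖y s x - Ya‖ * (C * ‖y s x - Ya‖ + ‖fderiv ℝ (G' s) Ya - fderiv ℝ (G' a) Ya‖) := by
        rw [hdec]
        refine (norm_add_le _ _).trans ?_
        have h5 := (fderiv ℝ (G' s) Ya - fderiv ℝ (G' a) Ya).le_opNorm (y s x - Ya)
        nlinarith [htay, h5]
      rw [hqs, hslope, ← smul_sub, norm_smul, norm_smul, norm_inv, Real.norm_eq_abs,
        abs_of_pos hsa]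
      have h6 : ‖y s x - Ya‖ ≤ c₁⁻¹ * ‖G s x - G' s Ya‖ := by
        rw [inv_mul_eq_div, le_div_iff₀ hc₁, mul_comm]
        exact hlo
      have h7 : 0 ≤ C * ‖y s x - Ya‖ + ‖fderiv ℝ (G' s) Ya - fderiv ℝ (G' a) Ya‖ := by
        have := hc'.hC
        positivity
      calc (s - a)⁻¹ * ‖G s x - G' s Ya - d (G' a) Ya (y s x - Ya)‖
          ≤ (s - a)⁻¹ * ((c₁⁻¹ * ‖G s x - G' s Ya‖) *
            (C * ‖y s x - Ya‖ + ‖fderiv ℝ (G' s) Ya - fderiv ℝ (G' a) Ya‖)) := by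
            refine mul_le_mul_of_nonneg_left (hbound.trans ?_) (inv_nonneg.2 hsa.le)
            exact mul_le_mul_of_nonneg_right h6 h7
        _ = _ := by ring
    have hq0 : Tendsto (fun s => slope (fun s => G s x - G' s Ya) a s - q s) (𝓝[>] a)
        (𝓝 0) := by
      refine squeeze_zero_norm' hq ?_
      have h5 : Tendsto (fun s => C * ‖y s x - Ya‖ +
          ‖fderiv ℝ (G' s) Ya - fderiv ℝ (G' a) Ya‖) (𝓝[>] a) (𝓝 (C * ‖Ya - Ya‖ +
            ‖fderiv ℝ (G' a) Ya - fderiv ℝ (G' a) Ya‖)) :=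
        ((hYlim.sub_const Ya).norm.const_mul C).add (hΔ.sub_const _).norm
      have h6 := (hsl.norm.const_mul c₁⁻¹).mul h5
      simpa using h6
    have hlim : Tendsto q (𝓝[>] a) (𝓝 l) := by
      have := hsl.sub hq0
      simpa using this
    have hcl : IsClosed (LinearMap.range (fderiv ℝ (G' a) Ya : V →ₗ[ℝ] W) : Set W) :=
      Submodule.closed_of_finiteDimensional _
    have hmem : l ∈ LinearMap.range (fderiv ℝ (G' a) Ya : V →ₗ[ℝ] W) :=
      hcl.mem_of_tendsto hlim (Eventually.of_forall fun s => ⟨_, rfl⟩)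
    have hl0 : l = 0 := Rp_eq hV (h.imm a (hsub' ha')) (h'.imm a (hsub' ha')) hx hYa1 he he'
      (htan a ha' x hx) (hom_d h' (hsub' ha') hYa0) hmem
    rw [hl0] at hφ
    have h8 := (hasDerivWithinAt_iff_isLittleO.1
      (hφ.mono (fun s hs => hsub' (hIcc hs) : Icc a t₁ ⊆ Ico 0 T)))
    rw [nhdsWithin_Icc_eq_nhdsGE ha.2] at h8
    rw [hasDerivWithinAt_iff_isLittleO]
    refine Asymptotics.IsBigO.trans_isLittleO ?_ h8
    refine Asymptotics.IsBigO.of_bound c₁⁻¹ ?_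
    rw [← nhdsWithin_Icc_eq_nhdsGE ha.2]
    filter_upwards [self_mem_nhdsWithin] with s hs
    simp only [smul_zero, sub_zero, hφa]
    rw [inv_mul_eq_div, le_div_iff₀ hc₁, mul_comm]
    exact hlow a ha' s (hIcc hs)
  have hconst : y t x = y t₀ x := constant_of_has_deriv_right_zero hcontY hder t ht
  have ht0 : t₀ ∈ Icc t₀ t₁ := ⟨le_rfl, h01⟩
  have hY0 : y t₀ x = x := by
    have hn := hnear t₀ ht0 x hx
    have hi := hc'.inj t₀ (hsub ht0) (y t₀ x) x (hy t₀ ht0 x hx).1.1 hx (by linarith)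
    rw [← (hy t₀ ht0 x hx).2, heq x hx, sub_self, norm_zero] at hi
    have h9 : ‖y t₀ x - x‖ ≤ 0 := by
      by_contra hne
      rw [not_le] at hne
      have := mul_pos hc₁ hne
      linarith
    exact sub_eq_zero.1 (norm_le_zero_iff.1 h9)
  rw [(hy t ht x hx).2, hconst, hY0]

end Pool.Agent.H.MP_4ac55f_gt.RP
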