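import Pool.Agent.H.MP_4ac55f_gt.RP.Def

/-!
# Smooth solutions are classical solutions  (module Sm)

`ext_coe`, `ext_hom`: `pr` of a unit vector is the vector, `pr (r • x) = pr x` for `r > 0`.
`Sm_slice`: for `A` smooth on `J ×ˢ {0}ᶜ` (`J = Ico 0 T'`), the slice `A (t, ·)` has at `x ≠ 0` the derivative
`(fderivWithin ℝ A Ω (t, x)).comp (inr)`, and `p ↦ (fderivWithin ℝ A Ω p).comp inr` is again smooth on
`Ω`. This is applied twice for `k1`, `k2`.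
-/

set_option autoImplicit false

open scoped InnerProductSpace ContDiff Topology
open Set Metric Filter

namespace Pool.Agent.H.MP_4ac55f_gt.RP

variable {V W : Type*} [NormedAddCommGroup V] [InnerProductSpace ℝ V]
  [NormedAddCommGroup W] [InnerProductSpace ℝ W]

theorem ext_coe (f : sphere (0 : V) 1 → W) (x : sphere (0 : V) 1) : ext f (x : V) = f x := by
  have hn : ‖(x : V)‖ = 1 := mem_sphere_zero_iff_norm.1 x.2
  have h0 : (x : V) ≠ 0 := by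
    intro h
    rw [h, norm_zero] at hn
    exact zero_ne_one hn
  rw [ext, dif_neg h0]
  congr 1
  apply Subtype.ext
  change ‖(x : V)‖⁻¹ • (x : V) = x
  rw [hn, inv_one, one_smul]

theorem ext_hom (f : sphere (0 : V) 1 → W) {r : ℝ} (hr : 0 < r) {x : V} (hx : x ≠ 0) :
    ext f (r • x) = ext f x := by
  have h1 : r • x ≠ 0 := smul_ne_zero hr.ne' hx
  rw [ext, ext, dif_neg h1, dif_neg hx]
  congr 1
  apply Subtype.ext
  rw [pr, pr]
  change ‖r • x‖⁻¹ • r • x = ‖x‖⁻¹ • x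
  rw [smul_smul, norm_smul, Real.norm_of_nonneg hr.le, mul_inv]
  congr 1
  field_simp

/-- The derivative of a slice. -/
theorem Sm_slice {E : Type*} [NormedAddCommGroup E] [NormedSpace ℝ E] {A : ℝ × V → E} {T' : ℝ}
    (hA : ContDiffOn ℝ ∞ A (Ico 0 T' ×ˢ {0}ᶜ)) {t : ℝ} (ht : t ∈ Ico 0 T') {x : V} (hx : x ≠ 0) :
    HasFDerivAt (fun y => A (t, y))
      ((fderivWithin ℝ A (Ico 0 T' ×ˢ {0}ᶜ) (t, x)).comp (ContinuousLinearMap.inr ℝ ℝ V)) x := by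
  have h1 : HasFDerivWithinAt A (fderivWithin ℝ A (Ico 0 T' ×ˢ {0}ᶜ) (t, x))
      (Ico 0 T' ×ˢ {0}ᶜ) (t, x) :=
    ((hA.differentiableOn (by simp)) (t, x) ⟨ht, hx⟩).hasFDerivWithinAt
  have h2 : HasFDerivWithinAt (fun y : V => (t, y)) (ContinuousLinearMap.inr ℝ ℝ V) {0}ᶜ x :=
    (hasFDerivAt_prodMk_right t x).hasFDerivWithinAt
  have h3 := h1.comp x h2 fun y hy => ⟨ht, hy⟩
  exact h3.hasFDerivAt (isOpen_compl_singleton.mem_nhds hx)

/-- The derivatives of the slices are smooth. -/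
theorem Sm_smooth {E : Type*} [NormedAddCommGroup E] [NormedSpace ℝ E] {A : ℝ × V → E} {T' : ℝ}
    (hA : ContDiffOn ℝ ∞ A (Ico 0 T' ×ˢ {0}ᶜ)) :
    ContDiffOn ℝ ∞ (fun p => (fderivWithin ℝ A (Ico 0 T' ×ˢ {0}ᶜ) p).comp
      (ContinuousLinearMap.inr ℝ ℝ V)) (Ico 0 T' ×ˢ {0}ᶜ) := by
  have hu : UniqueDiffOn ℝ ((Ico 0 T' : Set ℝ) ×ˢ ({0}ᶜ : Set V)) :=
    (uniqueDiffOn_Ico 0 T').prod isOpen_compl_singleton.uniqueDiffOn
  exact (hA.fderivWithin hu (by simp)).clm_comp contDiffOn_const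

theorem flow_of {n : ℕ} {T : EReal} {F : ℝ → sphere (0 : V) 1 → W} (hF : IsMCF n T F) {T' : ℝ}
    (hT' : (T' : EReal) ≤ T) : Flow n T' (fun t => ext (F t)) := by
  have hI : Ico 0 T' ⊆ I T := fun t ht => ⟨ht.1, lt_of_lt_of_le (EReal.coe_lt_coe_iff.2 ht.2) hT'⟩
  obtain ⟨A, hA⟩ : ∃ A : ℝ × V → W, A = fun p => ext (F p.1) p.2 := ⟨_, rfl⟩
  have hs : ContDiffOn ℝ ∞ A (Ico 0 T' ×ˢ {0}ᶜ) := by
    rw [hA]
    exact hF.smooth.mono (prod_mono hI Subset.rfl)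
  obtain ⟨B, hB⟩ : ∃ B : ℝ × V → (V →L[ℝ] W), B = fun p =>
    (fderivWithin ℝ A (Ico 0 T' ×ˢ {0}ᶜ) p).comp (ContinuousLinearMap.inr ℝ ℝ V) := ⟨_, rfl⟩
  have hsB : ContDiffOn ℝ ∞ B (Ico 0 T' ×ˢ {0}ᶜ) := by
    rw [hB]
    exact Sm_smooth hs
  have h1 : ∀ t ∈ Ico 0 T', ∀ x : V, x ≠ 0 → fderiv ℝ (ext (F t)) x = B (t, x) := by
    intro t ht x hx
    have h := (Sm_slice hs ht hx).fderiv
    rw [hB]
    rw [hA] at h ⊢
    exact h
  have h2 : ∀ t ∈ Ico 0 T', ∀ x : V, x ≠ 0 → fderiv ℝ (fderiv ℝ (ext (F t))) x =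
      (fderivWithin ℝ B (Ico 0 T' ×ˢ {0}ᶜ) (t, x)).comp (ContinuousLinearMap.inr ℝ ℝ V) := by
    intro t ht x hx
    rw [← (Sm_slice hsB ht hx).fderiv]
    refine Filter.EventuallyEq.fderiv_eq ?_
    filter_upwards [isOpen_compl_singleton.mem_nhds hx] with y hy
    exact h1 t ht y hy
  refine ⟨fun t _ r hr x hx => ext_hom _ hr hx, fun t ht => ?_, ?_, ?_, ?_,
    fun t ht => hF.imm t (hI ht), fun t ht x hx e he => ?_⟩
  · have h3 : ContDiffOn ℝ ∞ (fun x : V => A (t, x)) {0}ᶜ :=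
      hs.comp (contDiff_prodMk_right t).contDiffOn fun x hx => ⟨ht, hx⟩
    rw [hA] at h3
    exact (contDiffOn_infty.1 h3) 2
  · have h3 := hs.continuousOn
    rw [hA] at h3
    exact h3
  · exact hsB.continuousOn.congr fun p hp => h1 p.1 hp.1 p.2 hp.2
  · exact (Sm_smooth hsB).continuousOn.congr fun p hp => h2 p.1 hp.1 p.2 hp.2
  · have h3 := hF.eq t (hI ht) ⟨x, mem_sphere_zero_iff_norm.2 hx⟩ e he
    have h4 : (fun s => ext (F s) x) = fun s => F s ⟨x, mem_sphere_zero_iff_norm.2 hx⟩ := by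
      funext s
      exact ext_coe (F s) ⟨x, mem_sphere_zero_iff_norm.2 hx⟩
    rw [h4]
    exact h3.mono hI

end Pool.Agent.H.MP_4ac55f_gt.RP
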