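import Pool.Agent.H.MP_4ac55f_gt.RP.Def

/-!
# Symmetries of the flow  (module Sy)

For linear isometries `R` of `V`, `A` of `W` and `G' = A ∘ G ∘ R`: `d G' x v = A (d G (R x) (R v))`, `d2 G' x v w = A (d2 G (R x) (R v) (R w))`
(`x ≠ 0`; on an open set), frames `e` of `G'` at `x` are frames `R ∘ e` of `G` at `R x`, `nor`, `sff`, `mcv` are transported by `A`.
-/

set_option autoImplicit false

open scoped InnerProductSpace ContDiff Topology
open Set Metric Filter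

namespace Pool.Agent.H.MP_4ac55f_gt.RP

variable {V W : Type*} [NormedAddCommGroup V] [InnerProductSpace ℝ V]
  [NormedAddCommGroup W] [InnerProductSpace ℝ W]

/-- `L ↦ A ∘ L ∘ R` -/
noncomputable def Sy_P (R : V ≃ₗᵢ[ℝ] V) (A : W ≃ₗᵢ[ℝ] W) : (V →L[ℝ] W) ≃L[ℝ] (V →L[ℝ] W) :=
  R.symm.toContinuousLinearEquiv.arrowCongr A.toContinuousLinearEquiv

theorem Sy_P_apply (R : V ≃ₗᵢ[ℝ] V) (A : W ≃ₗᵢ[ℝ] W) (L : V →L[ℝ] W) (v : V) :
    Sy_P R A L v = A (L (R v)) := rfl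

theorem Sy_fd (g : V → W) (R : V ≃ₗᵢ[ℝ] V) (A : W ≃ₗᵢ[ℝ] W) (x : V) :
    fderiv ℝ (fun y => A (g (R y))) x = Sy_P R A (fderiv ℝ g (R x)) := by
  have h1 : fderiv ℝ (fun y => A (g (R y))) x =
      (A.toContinuousLinearEquiv : W →L[ℝ] W).comp (fderiv ℝ (fun y => g (R y)) x) :=
    A.toContinuousLinearEquiv.comp_fderiv (f := fun y => g (R y)) (x := x)
  have h2 : fderiv ℝ (fun y => g (R y)) x =
      (fderiv ℝ g (R x)).comp (R.toContinuousLinearEquiv : V →L[ℝ] V) :=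
    R.toContinuousLinearEquiv.comp_right_fderiv (f := g) (x := x)
  rw [h1, h2]
  rfl

theorem Sy_fd2 (g : V → W) (R : V ≃ₗᵢ[ℝ] V) (A : W ≃ₗᵢ[ℝ] W) (x : V) :
    fderiv ℝ (fderiv ℝ (fun y => A (g (R y)))) x =
      ((Sy_P R A : (V →L[ℝ] W) →L[ℝ] (V →L[ℝ] W)).comp (fderiv ℝ (fderiv ℝ g) (R x))).comp
        (R.toContinuousLinearEquiv : V →L[ℝ] V) := by
  have h0 : fderiv ℝ (fun y => A (g (R y))) = fun x => Sy_P R A (fderiv ℝ g (R x)) :=
    funext fun x => Sy_fd g R A x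
  rw [h0]
  have h1 : fderiv ℝ (fun y => Sy_P R A (fderiv ℝ g (R y))) x =
      (Sy_P R A : (V →L[ℝ] W) →L[ℝ] (V →L[ℝ] W)).comp (fderiv ℝ (fun y => fderiv ℝ g (R y)) x) :=
    (Sy_P R A).comp_fderiv (f := fun y => fderiv ℝ g (R y)) (x := x)
  have h2 : fderiv ℝ (fun y => fderiv ℝ g (R y)) x =
      (fderiv ℝ (fderiv ℝ g) (R x)).comp (R.toContinuousLinearEquiv : V →L[ℝ] V) :=
    R.toContinuousLinearEquiv.comp_right_fderiv (f := fderiv ℝ g) (x := x)
  rw [h1, h2]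
  rfl

theorem Sy_d (g : V → W) (R : V ≃ₗᵢ[ℝ] V) (A : W ≃ₗᵢ[ℝ] W) (x v : V) :
    d (fun y => A (g (R y))) x v = A (d g (R x) (R v)) := by
  unfold d
  rw [Sy_fd, Sy_P_apply]

theorem Sy_d2 (g : V → W) (R : V ≃ₗᵢ[ℝ] V) (A : W ≃ₗᵢ[ℝ] W) (x v w : V) :
    d2 (fun y => A (g (R y))) x v w = A (d2 g (R x) (R v) (R w)) := by
  unfold d2
  rw [Sy_fd2]
  rfl

theorem Sy_frame {n : ℕ} (g : V → W) (R : V ≃ₗᵢ[ℝ] V) (A : W ≃ₗᵢ[ℝ] W) (x : V) (e : Fin n → V)
    (h : IsFrame (fun y => A (g (R y))) x e) : IsFrame g (R x) (fun i => R (e i)) := by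
  refine ⟨fun i => ?_, fun i j => ?_⟩
  · rw [LinearIsometryEquiv.inner_map_map]
    exact h.1 i
  · have h1 := h.2 i j
    rw [Sy_d, Sy_d, LinearIsometryEquiv.inner_map_map] at h1
    exact h1

theorem Sy_mcv {n : ℕ} (g : V → W) (R : V ≃ₗᵢ[ℝ] V) (A : W ≃ₗᵢ[ℝ] W) (x : V) (e : Fin n → V) :
    mcv (fun y => A (g (R y))) x e = A (mcv g (R x) (fun i => R (e i))) := by
  unfold mcv sff nor
  rw [map_sum]
  refine Finset.sum_congr rfl fun i _ => ?_
  rw [map_sub, map_sum, Sy_d2]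
  congr 1
  refine Finset.sum_congr rfl fun j _ => ?_
  rw [map_smul, Sy_d, LinearIsometryEquiv.inner_map_map]

theorem flow_sym {n : ℕ} {T : ℝ} {G : ℝ → V → W} (h : Flow n T G) (R : V ≃ₗᵢ[ℝ] V)
    (A : W ≃ₗᵢ[ℝ] W) : Flow n T (fun t x => A (G t (R x))) := by
  have hne : ∀ x : V, x ≠ 0 → R x ≠ 0 := fun x hx h0 => hx (by
    have := congrArg R.symm h0
    simpa using this)
  have hm : MapsTo (fun p : ℝ × V => (p.1, R p.2)) (Ico 0 T ×ˢ {0}ᶜ) (Ico 0 T ×ˢ {0}ᶜ) := by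
    rintro ⟨t, x⟩ ⟨ht, hx⟩
    exact ⟨ht, hne x hx⟩
  have hc : Continuous (fun p : ℝ × V => (p.1, R p.2)) :=
    continuous_fst.prodMk (R.continuous.comp continuous_snd)
  refine ⟨?_, ?_, ?_, ?_, ?_, ?_, ?_⟩
  · intro t ht r hr x hx
    show A (G t (R (r • x))) = A (G t (R x))
    rw [map_smul, h.hom t ht r hr (R x) (hne x hx)]
  · intro t ht
    have h1 : ContDiffOn ℝ 2 (fun x => G t (R x)) {0}ᶜ :=
      (h.c2 t ht).comp R.contDiff.contDiffOn (fun x hx => hne x hx)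
    exact A.contDiff.comp_contDiffOn h1
  · exact A.continuous.comp_continuousOn (h.k0.comp hc.continuousOn hm)
  · have h1 : (fun p : ℝ × V => fderiv ℝ (fun x => A (G p.1 (R x))) p.2) =
        fun p => Sy_P R A (fderiv ℝ (G p.1) (R p.2)) := by
      funext p
      exact Sy_fd (G p.1) R A p.2
    rw [h1]
    exact (Sy_P R A).continuous.comp_continuousOn (h.k1.comp hc.continuousOn hm)
  · have h1 : (fun p : ℝ × V => fderiv ℝ (fderiv ℝ (fun x => A (G p.1 (R x)))) p.2) =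
        fun p => ((Sy_P R A : (V →L[ℝ] W) →L[ℝ] (V →L[ℝ] W)).comp
          (fderiv ℝ (fderiv ℝ (G p.1)) (R p.2))).comp
          (R.toContinuousLinearEquiv : V →L[ℝ] V) := by
      funext p
      exact Sy_fd2 (G p.1) R A p.2
    rw [h1]
    exact (continuousOn_const.clm_comp (h.k2.comp hc.continuousOn hm)).clm_comp
      continuousOn_const
  · intro t ht x hx v hv h0
    have h1 : d (fun y => A (G t (R y))) x v = 0 := h0
    rw [Sy_d] at h1
    have h2 : d (G t) (R x) (R v) = 0 := by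
      have := congrArg A.symm h1
      simpa using this
    have h3 := h.imm t ht (R x) (by rw [R.norm_map]; exact hx) (R v)
      (by rw [LinearIsometryEquiv.inner_map_map]; exact hv) h2
    have := congrArg R.symm h3
    simpa using this
  · intro t ht x hx e he
    have h1 := h.eq t ht (R x) (by rw [R.norm_map]; exact hx) (fun i => R (e i))
      (Sy_frame (G t) R A x e he)
    have h2 := (A.toContinuousLinearEquiv : W →L[ℝ] W).hasFDerivAt.comp_hasDerivWithinAt t h1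
    have h3 : mcv (fun y => A (G t (R y))) x e = A (mcv (G t) (R x) (fun i => R (e i))) :=
      Sy_mcv (G t) R A x e
    show HasDerivWithinAt (fun s => A (G s (R x))) (mcv (fun y => A (G t (R y))) x e) (Ico 0 T) t
    rw [h3]
    exact h2

end Pool.Agent.H.MP_4ac55f_gt.RP
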