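import Mathlib

/-!
# MP_4ac55f: uniqueness of the mean curvature flow, second order expansions (helper38)
-/

set_option autoImplicit false

open scoped InnerProductSpace Topology
open Filter Asymptotics Set Metric

namespace Pool.Agent.H4ac.RP

/-- Second order Taylor expansion. -/
theorem taylor2 {E W : Type*} [NormedAddCommGroup E] [NormedSpace ℝ E] [NormedAddCommGroup W]
    [NormedSpace ℝ W] {F : E → W} {x : E} (h : ContDiffAt ℝ 2 F x) :
    (fun v => F (x + v) - F x - fderiv ℝ F x v - (1 / 2 : ℝ) • fderiv ℝ (fderiv ℝ F) x v v)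
      =o[𝓝 0] fun v => ‖v‖ ^ 2 := by
  have hsym : IsSymmSndFDerivAt ℝ F x := h.isSymmSndFDerivAt (by simp)
  have h1 : ∀ᶠ y in 𝓝 x, DifferentiableAt ℝ F y := by
    filter_upwards [h.eventually (by simp)] with y hy using hy.differentiableAt (by simp)
  have h2 : HasFDerivAt (fderiv ℝ F) (fderiv ℝ (fderiv ℝ F) x) x :=
    ((h.fderiv_right (m := 1) (by norm_num)).differentiableAt (by simp)).hasFDerivAt
  set L := fderiv ℝ (fderiv ℝ F) x with hL
  rw [isLittleO_iff]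
  intro c hc
  have h3 := (hasFDerivAt_iff_isLittleO_nhds_zero.1 h2).def hc
  have h4 : ∀ᶠ v in 𝓝 (0 : E), DifferentiableAt ℝ F (x + v) := by
    have : Tendsto (fun v : E => x + v) (𝓝 0) (𝓝 x) := by
      have : Continuous fun v : E => x + v := by fun_prop
      exact this.tendsto' _ _ (add_zero x)
    exact this.eventually h1
  obtain ⟨ε, hε, hball⟩ := Metric.eventually_nhds_iff_ball.1 (h3.and h4)
  filter_upwards [Metric.ball_mem_nhds (0 : E) hε] with v hv
  set r : E → W := fun v => F (x + v) - F x - fderiv ℝ F x v - (1 / 2 : ℝ) • L v v with hr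
  have hd : ∀ w ∈ Metric.closedBall (0 : E) ‖v‖,
      HasFDerivWithinAt r (fderiv ℝ F (x + w) - fderiv ℝ F x - L w)
        (Metric.closedBall (0 : E) ‖v‖) w := by
    intro w hw
    have hwε : w ∈ Metric.ball (0 : E) ε := by
      rw [mem_closedBall_zero_iff] at hw
      rw [mem_ball_zero_iff] at hv ⊢
      exact hw.trans_lt hv
    have a1 : HasFDerivAt (fun v => F (x + v)) (fderiv ℝ F (x + w)) w := by
      have := (hball w hwε).2.hasFDerivAt.comp w ((hasFDerivAt_id w).const_add x)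
      exact this
    have a2 : HasFDerivAt (fun v => fderiv ℝ F x v) (fderiv ℝ F x) w :=
      (fderiv ℝ F x).hasFDerivAt
    have a3 : HasFDerivAt (fun v => L v v) (L w + L.flip w) w := by
      have b1 : HasFDerivAt (fun v => L v) L w := L.hasFDerivAt
      have b2 : HasFDerivAt (fun v : E => v) (ContinuousLinearMap.id ℝ E) w := hasFDerivAt_id w
      have := b1.clm_apply b2
      rw [ContinuousLinearMap.comp_id] at this
      exact this
    have a4 : HasFDerivAt r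
        (fderiv ℝ F (x + w) - fderiv ℝ F x - (1 / 2 : ℝ) • (L w + L.flip w)) w := by
      exact ((a1.sub_const (F x)).sub a2).sub (a3.const_smul (1 / 2 : ℝ))
    have a5 : (1 / 2 : ℝ) • (L w + L.flip w) = L w := by
      ext u
      have : L u w = L w u := hsym.eq u w
      simp only [smul_apply, add_apply,
        ContinuousLinearMap.flip_apply, this]
      rw [← two_smul ℝ (L w u), smul_smul]
      norm_num
    rw [a5] at a4
    exact a4.hasFDerivWithinAt
  have hbound : ∀ w ∈ Metric.closedBall (0 : E) ‖v‖,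
      ‖fderiv ℝ F (x + w) - fderiv ℝ F x - L w‖ ≤ c * ‖v‖ := by
    intro w hw
    have hwε : w ∈ Metric.ball (0 : E) ε := by
      rw [mem_closedBall_zero_iff] at hw
      rw [mem_ball_zero_iff] at hv ⊢
      exact hw.trans_lt hv
    have := (hball w hwε).1
    rw [mem_closedBall_zero_iff] at hw
    exact this.trans (mul_le_mul_of_nonneg_left hw hc.le)
  have hmv := (convex_closedBall (0 : E) ‖v‖).norm_image_sub_le_of_norm_hasFDerivWithin_le hd hbound
    (Metric.mem_closedBall_self (norm_nonneg v)) (by simp : v ∈ Metric.closedBall (0 : E) ‖v‖)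
  have hr0 : r 0 = 0 := by simp [hr]
  rw [hr0, sub_zero, sub_zero] at hmv
  calc ‖r v‖ ≤ c * ‖v‖ * ‖v‖ := hmv
    _ = c * ‖‖v‖ ^ 2‖ := by rw [norm_pow, norm_norm]; ring

/-- The quadratic form of `‖F (x + v) - G (y + w)‖²`. -/
noncomputable def qf {E W : Type*} [NormedAddCommGroup E] [InnerProductSpace ℝ E]
    [NormedAddCommGroup W] [InnerProductSpace ℝ W] (F G : E → W) (x y : E) (p : E × E) : ℝ :=
  ‖fderiv ℝ F x p.1 - fderiv ℝ G y p.2‖ ^ 2 +
    (inner ℝ (F x - G y) (fderiv ℝ (fderiv ℝ F) x p.1 p.1) -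
      inner ℝ (F x - G y) (fderiv ℝ (fderiv ℝ G) y p.2 p.2))

variable {E W : Type*} [NormedAddCommGroup E] [InnerProductSpace ℝ E]
    [NormedAddCommGroup W] [InnerProductSpace ℝ W]

theorem qf_smul (F G : E → W) (x y : E) (c : ℝ) (p : E × E) :
    qf F G x y (c • p) = c ^ 2 * qf F G x y p := by
  simp only [qf, Prod.smul_fst, Prod.smul_snd, map_smul, smul_apply,
    inner_smul_right, ← smul_sub, norm_smul, Real.norm_eq_abs, mul_pow, sq_abs]
  ring

theorem qf_cont (F G : E → W) (x y : E) : Continuous (qf F G x y) := by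
  unfold qf
  fun_prop

/-- Expansion of `‖F (x + v) - G (y + w)‖²`. -/
theorem zexp {F G : E → W} {x y : E} (hF : ContDiffAt ℝ 2 F x) (hG : ContDiffAt ℝ 2 G y) :
    (fun p : E × E => ‖F (x + p.1) - G (y + p.2)‖ ^ 2 - ‖F x - G y‖ ^ 2 -
        2 * inner ℝ (F x - G y) (fderiv ℝ F x p.1 - fderiv ℝ G y p.2) - qf F G x y p)
      =o[𝓝 0] fun p => ‖p‖ ^ 2 := by
  set ξ := F x - G y with hξ
  set A := fderiv ℝ F x with hA
  set B := fderiv ℝ G y with hB
  set A2 := fderiv ℝ (fderiv ℝ F) x with hA2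
  set B2 := fderiv ℝ (fderiv ℝ G) y with hB2
  have t1 : Tendsto (fun p : E × E => p.1) (𝓝 0) (𝓝 0) := continuous_fst.tendsto' _ _ rfl
  have t2 : Tendsto (fun p : E × E => p.2) (𝓝 0) (𝓝 0) := continuous_snd.tendsto' _ _ rfl
  have o1 : (fun p : E × E => ‖p.1‖ ^ 2) =O[𝓝 0] fun p => ‖p‖ ^ 2 :=
    IsBigO.of_bound 1 (Eventually.of_forall fun p => by
      rw [norm_pow, norm_pow, norm_norm, norm_norm, one_mul]
      exact pow_le_pow_left₀ (norm_nonneg _) (norm_fst_le p) 2)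
  have o2 : (fun p : E × E => ‖p.2‖ ^ 2) =O[𝓝 0] fun p => ‖p‖ ^ 2 :=
    IsBigO.of_bound 1 (Eventually.of_forall fun p => by
      rw [norm_pow, norm_pow, norm_norm, norm_norm, one_mul]
      exact pow_le_pow_left₀ (norm_nonneg _) (norm_snd_le p) 2)
  set rF : E × E → W := fun p => F (x + p.1) - F x - A p.1 - (1 / 2 : ℝ) • A2 p.1 p.1 with hrF
  set rG : E × E → W := fun p => G (y + p.2) - G y - B p.2 - (1 / 2 : ℝ) • B2 p.2 p.2 with hrG
  have e1 : rF =o[𝓝 0] fun p : E × E => ‖p‖ ^ 2 := ((taylor2 hF).comp_tendsto t1).trans_isBigO o1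
  have e2 : rG =o[𝓝 0] fun p : E × E => ‖p‖ ^ 2 := ((taylor2 hG).comp_tendsto t2).trans_isBigO o2
  set d : E × E → W := fun p => A p.1 - B p.2 with hd
  set e : E × E → W := fun p => (1 / 2 : ℝ) • A2 p.1 p.1 - (1 / 2 : ℝ) • B2 p.2 p.2 + (rF p - rG p)
    with he
  have hdec : ∀ p : E × E, F (x + p.1) - G (y + p.2) = ξ + d p + e p := by
    intro p
    simp only [hξ, hd, he, hrF, hrG]
    abel
  have hdO : d =O[𝓝 0] fun p : E × E => ‖p‖ := by
    refine IsBigO.of_bound (‖A‖ + ‖B‖) (Eventually.of_forall fun p => ?_)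
    rw [norm_norm, add_mul]
    refine (norm_sub_le _ _).trans (add_le_add ?_ ?_)
    · exact (A.le_opNorm _).trans (mul_le_mul_of_nonneg_left (norm_fst_le p) (norm_nonneg _))
    · exact (B.le_opNorm _).trans (mul_le_mul_of_nonneg_left (norm_snd_le p) (norm_nonneg _))
  have hq1 : (fun p : E × E => (1 / 2 : ℝ) • A2 p.1 p.1 - (1 / 2 : ℝ) • B2 p.2 p.2) =O[𝓝 0]
      fun p : E × E => ‖p‖ ^ 2 := by
    refine IsBigO.of_bound (‖A2‖ + ‖B2‖) (Eventually.of_forall fun p => ?_)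
    rw [norm_pow, norm_norm, add_mul]
    refine (norm_sub_le _ _).trans (add_le_add ?_ ?_)
    · rw [norm_smul]
      have := A2.le_opNorm₂ p.1 p.1
      have h1 : ‖p.1‖ ≤ ‖p‖ := norm_fst_le p
      have h2 : ‖A2‖ * ‖p.1‖ * ‖p.1‖ ≤ ‖A2‖ * ‖p‖ ^ 2 := by
        rw [mul_assoc, ← sq]
        exact mul_le_mul_of_nonneg_left (pow_le_pow_left₀ (norm_nonneg _) h1 2) (norm_nonneg A2)
      have h3 : ‖(1 / 2 : ℝ)‖ = 1 / 2 := by norm_num
      rw [h3]
      have h4 := norm_nonneg (A2 p.1 p.1)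
      linarith
    · rw [norm_smul]
      have := B2.le_opNorm₂ p.2 p.2
      have h1 : ‖p.2‖ ≤ ‖p‖ := norm_snd_le p
      have h2 : ‖B2‖ * ‖p.2‖ * ‖p.2‖ ≤ ‖B2‖ * ‖p‖ ^ 2 := by
        rw [mul_assoc, ← sq]
        exact mul_le_mul_of_nonneg_left (pow_le_pow_left₀ (norm_nonneg _) h1 2) (norm_nonneg B2)
      have h3 : ‖(1 / 2 : ℝ)‖ = 1 / 2 := by norm_num
      rw [h3]
      have h4 := norm_nonneg (B2 p.2 p.2)
      linarith
  have heO : e =O[𝓝 0] fun p : E × E => ‖p‖ ^ 2 := hq1.add (e1.sub e2).isBigO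
  have hp1 : (fun p : E × E => ‖p‖) =o[𝓝 0] fun _ : E × E => (1 : ℝ) :=
    (isLittleO_one_iff ℝ).2 (continuous_norm.tendsto' _ _ norm_zero)
  have hp2 : (fun p : E × E => ‖p‖ ^ 2) =o[𝓝 0] fun p : E × E => ‖p‖ := by
    have := hp1.mul_isBigO (isBigO_refl (fun p : E × E => ‖p‖) (𝓝 0))
    simpa [sq] using this
  have hfin : ∀ p : E × E, ‖F (x + p.1) - G (y + p.2)‖ ^ 2 - ‖ξ‖ ^ 2 -
        2 * inner ℝ ξ (A p.1 - B p.2) - qf F G x y p =
      2 * inner ℝ ξ (rF p - rG p) + (2 * inner ℝ (d p) (e p) + ‖e p‖ ^ 2) := by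
    intro p
    have h1 : ‖ξ + d p + e p‖ ^ 2 = ‖ξ‖ ^ 2 + 2 * inner ℝ ξ (d p) + ‖d p‖ ^ 2 +
        2 * inner ℝ ξ (e p) + 2 * inner ℝ (d p) (e p) + ‖e p‖ ^ 2 := by
      rw [norm_add_sq_real, norm_add_sq_real, inner_add_left]
      ring
    have h2 : inner ℝ ξ (e p) = 1 / 2 * (inner ℝ ξ (A2 p.1 p.1) - inner ℝ ξ (B2 p.2 p.2)) +
        inner ℝ ξ (rF p - rG p) := by
      simp only [he, inner_add_right, inner_sub_right, inner_smul_right]
      ring
    rw [hdec p, h1, h2]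
    simp only [qf, ← hξ, ← hA, ← hB, ← hA2, ← hB2, hd]
    ring
  refine IsLittleO.congr_left ?_ fun p => (hfin p).symm
  refine IsLittleO.add ?_ (IsLittleO.add ?_ ?_)
  · have : (fun p : E × E => inner ℝ ξ (rF p - rG p)) =o[𝓝 0] fun p : E × E => ‖p‖ ^ 2 := by
      refine IsBigO.trans_isLittleO ?_ (e1.sub e2)
      refine IsBigO.of_bound ‖ξ‖ (Eventually.of_forall fun p => ?_)
      exact norm_inner_le_norm _ _
    exact this.const_mul_left 2
  · have h1 : (fun p : E × E => inner ℝ (d p) (e p)) =O[𝓝 0] fun p : E × E => ‖p‖ * ‖p‖ ^ 2 := by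
      have : (fun p : E × E => inner ℝ (d p) (e p)) =O[𝓝 0] fun p : E × E => ‖d p‖ * ‖e p‖ := by
        refine IsBigO.of_bound 1 (Eventually.of_forall fun p => ?_)
        rw [one_mul, norm_mul, norm_norm, norm_norm]
        exact norm_inner_le_norm _ _
      exact this.trans (hdO.norm_left.mul heO.norm_left)
    have h2 : (fun p : E × E => ‖p‖ * ‖p‖ ^ 2) =o[𝓝 0] fun p : E × E => ‖p‖ ^ 2 := by
      have := hp1.mul_isBigO (isBigO_refl (fun p : E × E => ‖p‖ ^ 2) (𝓝 0))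
      simpa using this
    exact (h1.trans_isLittleO h2).const_mul_left 2
  · have h1 : (fun p : E × E => ‖e p‖ ^ 2) =O[𝓝 0] fun p : E × E => ‖p‖ ^ 2 * ‖p‖ ^ 2 := by
      have := heO.norm_left.mul heO.norm_left
      simpa [sq] using this
    have h2 : (fun p : E × E => ‖p‖ ^ 2 * ‖p‖ ^ 2) =o[𝓝 0] fun p : E × E => ‖p‖ ^ 2 := by
      have := (hp2.trans hp1).mul_isBigO (isBigO_refl (fun p : E × E => ‖p‖ ^ 2) (𝓝 0))
      simpa using this
    exact h1.trans_isLittleO h2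

/-- A quadratic expansion at a point where `f (s v, w) ≤ f 0` for small `s` and some small `w`. -/
theorem second {X Y : Type*} [NormedAddCommGroup X] [NormedSpace ℝ X] [NormedAddCommGroup Y]
    [NormedSpace ℝ Y] [FiniteDimensional ℝ Y] (q : X × Y → ℝ) (hqc : Continuous q)
    (hqh : ∀ (c : ℝ) p, q (c • p) = c ^ 2 * q p) (f : X × Y → ℝ)
    (hf : (fun p => f p - f 0 - q p) =o[𝓝 0] fun p => ‖p‖ ^ 2) (hpos : ∀ w ≠ 0, 0 < q (0, w))
    (v : X) (h : ∀ ε > 0, ∃ (s : ℝ) (w : Y), 0 < s ∧ s < ε ∧ ‖w‖ < ε ∧ f (s • v, w) ≤ f 0) :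
    ∃ w, q (v, w) ≤ 0 := by
  by_contra hcon
  push Not at hcon
  set K : Set (ℝ × Y) := {z | 0 ≤ z.1 ∧ z.1 + ‖z.2‖ = 1} with hK
  have hKc : IsCompact K := by
    have h1 : IsClosed K := (isClosed_le continuous_const continuous_fst).inter
      (isClosed_eq (continuous_fst.add continuous_snd.norm) continuous_const)
    have h2 : K ⊆ Icc 0 1 ×ˢ Metric.closedBall (0 : Y) 1 := by
      rintro ⟨a, b⟩ ⟨h1, h2⟩
      simp only at h1 h2
      have h3 := norm_nonneg b
      refine ⟨⟨h1, by linarith⟩, ?_⟩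
      rw [mem_closedBall_zero_iff]
      simp only
      linarith
    exact (isCompact_Icc.prod (isCompact_closedBall (0 : Y) 1)).of_isClosed_subset h1 h2
  have hKne : K.Nonempty := ⟨(1, 0), by simp [hK]⟩
  have hcont : Continuous fun z : ℝ × Y => q (z.1 • v, z.2) := by fun_prop
  obtain ⟨z₀, hz₀, hmin⟩ := hKc.exists_isMinOn hKne hcont.continuousOn
  have hqpos : ∀ z : ℝ × Y, z ∈ K → 0 < q (z.1 • v, z.2) := by
    rintro ⟨a, b⟩ ⟨h1, h2⟩
    simp only at h1 h2 ⊢
    rcases h1.eq_or_lt with h3 | h3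
    · rw [← h3, zero_smul]
      refine hpos _ fun hb => ?_
      rw [hb, norm_zero, ← h3] at h2
      norm_num at h2
    · have h4 : ((a • v, b) : X × Y) = a • (v, a⁻¹ • b) := by
        ext
        · simp
        · simp [smul_smul, mul_inv_cancel₀ h3.ne']
      rw [h4, hqh]
      have := hcon (a⁻¹ • b)
      positivity
  set c := q (z₀.1 • v, z₀.2) with hc
  have hc0 : 0 < c := hqpos z₀ hz₀
  have hlow : ∀ (a : ℝ) (b : Y), 0 < a → c * (a + ‖b‖) ^ 2 ≤ q (a • v, b) := by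
    intro a b ha
    have hs : 0 < a + ‖b‖ := add_pos_of_pos_of_nonneg ha (norm_nonneg _)
    have h1 : ((a • v, b) : X × Y) = (a + ‖b‖) • ((a / (a + ‖b‖)) • v, (a + ‖b‖)⁻¹ • b) := by
      ext
      · simp [smul_smul, mul_div_cancel₀ _ hs.ne']
      · simp [smul_smul, mul_inv_cancel₀ hs.ne']
    have h2 : ((a / (a + ‖b‖), (a + ‖b‖)⁻¹ • b) : ℝ × Y) ∈ K := by
      refine ⟨by positivity, ?_⟩
      simp only
      rw [norm_smul, norm_inv, Real.norm_of_nonneg hs.le]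
      field_simp
    have h3 := hmin h2
    simp only [mem_ofPred_eq] at h3
    rw [h1, hqh]
    have h4 : c ≤ q ((a / (a + ‖b‖)) • v, (a + ‖b‖)⁻¹ • b) := h3
    nlinarith [sq_nonneg (a + ‖b‖)]
  -- the error
  set m : ℝ := c / (2 * (1 + ‖v‖) ^ 2) with hm
  have hm0 : 0 < m := by positivity
  have h1 := hf.def hm0
  obtain ⟨ε, hε, hball⟩ := Metric.eventually_nhds_iff_ball.1 h1
  obtain ⟨s, w, hs0, hsε, hwε, hle⟩ := h (ε / (1 + ‖v‖)) (by positivity)
  have hv0 := norm_nonneg v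
  have hp : ‖((s • v, w) : X × Y)‖ ≤ (1 + ‖v‖) * (s + ‖w‖) := by
    rw [Prod.norm_def]
    refine max_le ?_ ?_
    · simp only [norm_smul, Real.norm_of_nonneg hs0.le]
      nlinarith [norm_nonneg w, mul_nonneg hv0 (norm_nonneg w)]
    · simp only
      nlinarith [norm_nonneg w, mul_nonneg hv0 (norm_nonneg w), mul_nonneg hv0 hs0.le]
  have hmem : ((s • v, w) : X × Y) ∈ Metric.ball (0 : X × Y) ε := by
    rw [mem_ball_zero_iff, Prod.norm_def, max_lt_iff]
    rw [lt_div_iff₀ (by positivity)] at hsε hwε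
    constructor
    · simp only [norm_smul, Real.norm_of_nonneg hs0.le]
      nlinarith
    · simp only
      nlinarith [norm_nonneg w, mul_nonneg hv0 (norm_nonneg w)]
  have h2 := hball _ hmem
  rw [Real.norm_eq_abs, norm_pow, norm_norm] at h2
  have h3 := hlow s w hs0
  have h4 : m * ‖((s • v, w) : X × Y)‖ ^ 2 ≤ c / 2 * (s + ‖w‖) ^ 2 := by
    have h5 : ‖((s • v, w) : X × Y)‖ ^ 2 ≤ ((1 + ‖v‖) * (s + ‖w‖)) ^ 2 :=
      pow_le_pow_left₀ (norm_nonneg _) hp 2
    calc m * ‖((s • v, w) : X × Y)‖ ^ 2 ≤ m * ((1 + ‖v‖) * (s + ‖w‖)) ^ 2 :=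
          mul_le_mul_of_nonneg_left h5 hm0.le
      _ = c / 2 * (s + ‖w‖) ^ 2 := by
          rw [hm]; field_simp
  have h5 := (abs_le.1 h2).1
  have h6 : 0 < (s + ‖w‖) ^ 2 := by positivity
  nlinarith

end Pool.Agent.H4ac.RP
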