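import Pool.Agent.H.MP_4ac55f_gt.RP.Fr
import Pool.Agent.H.MP_4ac55f_gt.RP.Alg

/-!
# The trace inequality  (module Tr)
-/

set_option autoImplicit false

open scoped InnerProductSpace ContDiff Topology
open Set Metric Filter

namespace Pool.Agent.H.MP_4ac55f_gt.RP

variable {V W : Type*} [NormedAddCommGroup V] [InnerProductSpace ℝ V] [FiniteDimensional ℝ V]
  [NormedAddCommGroup W] [InnerProductSpace ℝ W]

omit [FiniteDimensional ℝ V] in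
theorem inner_nor' {n : ℕ} {G : V → W} {x : V} {e : Fin n → V} (he : IsFrame G x e) {ξ : W}
    (hξ : ∀ v : V, ⟪x, v⟫_ℝ = 0 → ⟪ξ, d G x v⟫_ℝ = 0) (b : W) :
    ⟪ξ, nor G x e b⟫_ℝ = ⟪ξ, b⟫_ℝ := by
  rw [nor, inner_sub_right, inner_sum]
  have : ∀ j, ⟪ξ, ⟪d G x (e j), b⟫_ℝ • d G x (e j)⟫_ℝ = 0 := by
    intro j
    rw [inner_smul_right, hξ _ (he.1 j), mul_zero]
  simp [this]

omit [FiniteDimensional ℝ V] in
theorem inner_mcv' {n : ℕ} {G : V → W} {x : V} {e : Fin n → V} (he : IsFrame G x e) {ξ : W}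
    (hξ : ∀ v : V, ⟪x, v⟫_ℝ = 0 → ⟪ξ, d G x v⟫_ℝ = 0) :
    ⟪ξ, mcv G x e⟫_ℝ = ∑ i, ⟪ξ, d2 G x (e i) (e i)⟫_ℝ := by
  rw [mcv, inner_sum]
  exact Finset.sum_congr rfl fun i _ => inner_nor' he hξ _

theorem trace_ineq (n : ℕ) (hV : Module.finrank ℝ V = n + 1) {C c₀ : ℝ} (hC : 0 < C)
    (hc₀ : 0 < c₀) : ∃ L d₀ : ℝ, 0 < L ∧ 0 < d₀ ∧ ∀ (G G' : V → W) (x y : V) (e e' w : Fin n → V)
    (ξ : W), ‖x‖ = 1 → ‖y‖ = 1 → Imm G → Imm G' → IsFrame G x e → IsFrame G' y e' →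
    (∀ v : V, ⟪y, v⟫_ℝ = 0 → c₀ * ‖v‖ ≤ ‖d G' y v‖) →
    (∀ a b : V, ‖d2 G' y a b‖ ≤ C * ‖a‖ * ‖b‖) → (∀ i, ⟪y, w i⟫_ℝ = 0) →
    (∀ v : V, ⟪x, v⟫_ℝ = 0 → ⟪ξ, d G x v⟫_ℝ = 0) →
    (∀ v : V, ⟪y, v⟫_ℝ = 0 → ⟪ξ, d G' y v⟫_ℝ = 0) → ‖ξ‖ ≤ d₀ →
    (∀ i, ‖d G x (e i) - d G' y (w i)‖ ^ 2 + ⟪ξ, d2 G x (e i) (e i)⟫_ℝ -
      ⟪ξ, d2 G' y (w i) (w i)⟫_ℝ ≤ 0) →
    ⟪ξ, mcv G x e - mcv G' y e'⟫_ℝ ≤ L * ‖ξ‖ ^ 2 := by
  refine ⟨2 * n ^ 5 * (C / c₀ ^ 2) ^ 2 + 1, c₀ ^ 2 / (C * (2 * n ^ 2 + 1)), by positivity,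
    by positivity, ?_⟩
  intro G G' x y e e' w ξ hx hy _ _ he he' hlo hs hw hξ hξ' hsm hle
  set Y : Submodule ℝ V := (Submodule.span ℝ {y})ᗮ with hY
  have hmem : ∀ v : V, v ∈ Y ↔ ⟪y, v⟫_ℝ = 0 := fun v => Submodule.mem_orthogonal_singleton_iff_inner_right
  have hy0 : y ≠ 0 := by
    intro h0; rw [h0, norm_zero] at hy; norm_num at hy
  have hYdim : Module.finrank ℝ Y = n := by
    have h1 := Submodule.finrank_add_finrank_orthogonal (Submodule.span ℝ {y})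
    rw [finrank_span_singleton hy0, hV, ← hY] at h1
    omega
  set Q : Y →ₗ[ℝ] W := (fderiv ℝ G' y : V →ₗ[ℝ] W) ∘ₗ Y.subtype with hQ
  have hQa : ∀ v : Y, Q v = d G' y v := fun v => rfl
  set β : Y →ₗ[ℝ] Y →ₗ[ℝ] ℝ := LinearMap.mk₂ ℝ
    (fun a b : Y => (⟪ξ, d2 G' y a b⟫_ℝ + ⟪ξ, d2 G' y b a⟫_ℝ) / 2)
    (by intro a b c; simp only [d2, Submodule.coe_add, map_add, add_apply, inner_add_right]; ring)
    (by intro c a b; simp only [d2, Submodule.coe_smul, map_smul, smul_apply, inner_smul_right,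
          smul_eq_mul]; ring)
    (by intro a b c; simp only [d2, Submodule.coe_add, map_add, add_apply, inner_add_right]; ring)
    (by intro c a b; simp only [d2, Submodule.coe_smul, map_smul, smul_apply, inner_smul_right,
          smul_eq_mul]; ring) with hβ
  have hβa : ∀ a b : Y, β a b = (⟪ξ, d2 G' y a b⟫_ℝ + ⟪ξ, d2 G' y b a⟫_ℝ) / 2 := fun a b => rfl
  have hβd : ∀ a : Y, β a a = ⟪ξ, d2 G' y a a⟫_ℝ := by
    intro a; rw [hβa]; ring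
  have hβs : ∀ a b : Y, β a b = β b a := by
    intro a b; rw [hβa, hβa, add_comm]
  have hbd : ∀ a : Y, |β a a| ≤ C / c₀ ^ 2 * ‖ξ‖ * ‖Q a‖ ^ 2 := by
    intro a
    rw [hβd]
    have h1 := abs_real_inner_le_norm ξ (d2 G' y a a)
    have h2 := hs a a
    have h3 := hlo a ((hmem _).1 a.2)
    have h4 : (c₀ * ‖(a : V)‖) ^ 2 ≤ ‖Q a‖ ^ 2 := by
      rw [hQa]
      exact pow_le_pow_left₀ (by positivity) h3 2
    calc |⟪ξ, d2 G' y a a⟫_ℝ| ≤ ‖ξ‖ * ‖d2 G' y a a‖ := h1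
      _ ≤ ‖ξ‖ * (C * ‖(a : V)‖ * ‖(a : V)‖) := mul_le_mul_of_nonneg_left h2 (norm_nonneg _)
      _ = C / c₀ ^ 2 * ‖ξ‖ * (c₀ * ‖(a : V)‖) ^ 2 := by field_simp
      _ ≤ C / c₀ ^ 2 * ‖ξ‖ * ‖Q a‖ ^ 2 := mul_le_mul_of_nonneg_left h4 (by positivity)
  -- the basis
  set f₀ : Fin n → Y := fun j => ⟨e' j, (hmem _).2 (he'.1 j)⟩ with hf₀
  have hforth : Orthonormal ℝ fun j => Q (f₀ j) := by
    rw [orthonormal_iff_ite]
    exact fun i j => he'.2 i j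
  have hli : LinearIndependent ℝ f₀ := hforth.linearIndependent.of_comp Q
  have hcard : Fintype.card (Fin n) = Module.finrank ℝ Y := by rw [hYdim, Fintype.card_fin]
  rcases Nat.eq_zero_or_pos n with hn | hn
  · subst hn
    have e1 : mcv G x e = 0 := by simp [mcv]
    have e2 : mcv G' y e' = 0 := by simp [mcv]
    rw [e1, e2, sub_zero, inner_zero_right]
    positivity
  have : Nonempty (Fin n) := ⟨⟨0, hn⟩⟩
  set f : Module.Basis (Fin n) ℝ Y := basisOfLinearIndependentOfCardEqFinrank hli hcard with hf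
  have hfa : ∀ j, f j = f₀ j := by
    intro j
    rw [hf, coe_basisOfLinearIndependentOfCardEqFinrank]
  have hforth' : Orthonormal ℝ fun j => Q (f j) := by
    simpa only [hfa] using hforth
  have hp : Orthonormal ℝ fun i => d G x (e i) := by
    rw [orthonormal_iff_ite]
    exact fun i j => he.2 i j
  have hκ' : C / c₀ ^ 2 * ‖ξ‖ * (2 * n ^ 2) ≤ 1 := by
    have h1 : ‖ξ‖ * (C * (2 * n ^ 2 + 1)) ≤ c₀ ^ 2 := (le_div_iff₀ (by positivity)).1 hsm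
    have h2 : C / c₀ ^ 2 * ‖ξ‖ * (2 * n ^ 2) = (‖ξ‖ * (C * (2 * n ^ 2))) / c₀ ^ 2 := by ring
    rw [h2, div_le_one (by positivity)]
    have h3 : 0 ≤ ‖ξ‖ * C := by positivity
    nlinarith
  have key := Pool.Agent.H4ac.RP.alg Q β hβs (by positivity) hκ' hbd (fun i => d G x (e i)) hp
    (fun i => ⟪ξ, d2 G x (e i) (e i)⟫_ℝ) (fun i => (⟨w i, (hmem _).2 (hw i)⟩ : Y))
    (fun i => by
      rw [hβd]
      have := hle i
      simp only [hQa]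
      linarith) f hforth'
  have h1 : ∑ j, β (f j) (f j) = ⟪ξ, mcv G' y e'⟫_ℝ := by
    rw [inner_mcv' he' hξ']
    refine Finset.sum_congr rfl fun j _ => ?_
    rw [hβd, hfa]
  rw [h1, ← inner_mcv' he hξ] at key
  rw [inner_sub_right]
  have h2 : 2 * n ^ 5 * (C / c₀ ^ 2 * ‖ξ‖) ^ 2 ≤ (2 * n ^ 5 * (C / c₀ ^ 2) ^ 2 + 1) * ‖ξ‖ ^ 2 := by
    have := sq_nonneg ‖ξ‖
    nlinarith
  exact key.trans h2

end Pool.Agent.H.MP_4ac55f_gt.RP
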